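import Pool.Agent.N89.BD.Main
import Pool.Agent.N89.GS.Uni

/-! Project BD (helper89): the main theorem, the local part. -/

set_option autoImplicit false

namespace Pool.Agent.N89.BD

open MvPolynomial NumberField Pool.Agent.H901R3.MS Pool.Agent.W659 Pool.Agent.W659.SA
  Pool.Agent.N89.GS WeierstrassCurve

/-- the local sets of the sieve -/
def LocS (K : Type) [Field K] [NumberField K] {r s : ℕ} (a b : Fin r → ℤ) (Γ : Subgroup Kˣ)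
    (J : Type) [Fintype J] {N : ℕ} (ω : Module.Basis (Fin N) ℤ (𝓞 K)) (δ : ℝ)
    (BadP : (∀ i, Pt (a i : K) (b i : K)) → (Fin s → Kˣ) → Set (J × Fin N → ℤ))
    (k : Type) [Field k] [Fintype k] (φ : 𝓞 K →+* k) (w : Place K k)
    (red : (∀ i, Pt (a i : K) (b i : K) → Pt (a i : k) (b i : k))) : Prop :=
  ∃ Bl : (∀ i, Pt (a i : k) (b i : k)) → (Fin s → k) → Set (J → k),
        (∀ x y, (∀ l, y l ≠ 0) → (((Bl x y).ncard : ℕ) : ℝ) ≤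
          (1 - δ) * (Fintype.card k : ℝ) ^ Fintype.card J) ∧
        ∀ (P : ∀ i, Pt (a i : K) (b i : K)) (u : Fin s → Kˣ), (∀ l, u l ∈ Γ) →
          (∀ l, (u l : K) ∈ w.A ∧ w.r (u l : K) ≠ 0) → ∀ c ∈ BadP P u,
          (fun i => φ (∑ j, c (i, j) • ω j)) ∈
            Bl (fun i => red i (P i)) (fun l => w.r (u l : K))

theorem locS_of (hGL : S_GL) {K : Type} [Field K] [NumberField K] {N h r s m q : ℕ}
    (ω : Module.Basis (Fin N) ℤ (𝓞 K)) (a b : Fin r → ℤ)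
    (hab : ∀ i, a i * b i = 0 ∧ (a i ≠ 0 ∨ b i ≠ 0)) (B S : ℕ) (hS : 1 ≤ S)
    (G : Fin q → Pol (𝓞 K) r s m) (dG : Fin q → Fin r → ℕ) (fG : Fin q → ℕ)
    (hdG : ∀ e, MHomog (G e) (dG e)) (hfG : ∀ e, THomog (G e) (fG e))
    (Φ : Fin h → Pol (𝓞 K) r s m) {ι : Fin h → Type}
    [∀ j, Fintype (ι j)] (Λ : (j : Fin h) → ι j → Pol (𝓞 K) r s m) (d : Fin h → Fin r → ℕ)
    (e : Fin h → ℕ) (hdΦ : ∀ j, MHomog (Φ j) (d j)) (heΦ : ∀ j, THomog (Φ j) (e j))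
    (hdΛ : ∀ j x, MHomog (Λ j x) (d j)) (heΛ : ∀ j x, THomog (Λ j x) (e j)) (δ : ℝ)
    {p : ℕ} (hpp : p.Prime) (hp : S + 5 + ∑ i, (4 * a i ^ 3 + 27 * b i ^ 2).natAbs + 1 ≤ p)
    {k : Type} [Field k] [Fintype k] [CharP k p] {φ : 𝓞 K →+* k} (hφ : Function.Surjective φ)
    {w : Place K k} (hw : ∀ x : 𝓞 K, (x : K) ∈ w.A ∧ w.r (x : K) = φ x)
    {red₀ : ∀ i, Pt (a i : K) (b i : K) → Pt (a i : k) (b i : k)}
    (hred₀ : ∀ i, IsRed w (a i) (b i) (red₀ i))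
    (Ω : Type) [Field Ω] [IsAlgClosed Ω] [DecidableEq Ω] [Algebra k Ω] (ψ : 𝓞 K →+* Ω)
    (hψ : ψ = (algebraMap k Ω).comp φ) (hf : (Fr k Ω).comp ψ = ψ)
    (hloc : ∀ v : Gr Ω a b s,
      (((BLoc ψ hf G Φ Λ B v : Set ((Σ j, ι j) → k)).ncard : ℕ) : ℝ) ≤
        (1 - δ) * (Fintype.card k : ℝ) ^ Fintype.card (Σ j, ι j)) :
    LocS K a b (SUn K S) (Σ j, ι j) ω δ (BadP hGL ω a b B S G Φ Λ) k φ w red₀ := by
  refine ⟨fun x y => BLoc ψ hf G Φ Λ B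
      ((fun i => mp (algebraMap k Ω) (x i), fun l => Additive.ofMul (uo k Ω (y l))) : Gr Ω a b s),
      fun x y _ => hloc _, ?_⟩
  intro P₀ u₀ _ _ c hc
  exact local_step hGL ω a b hab B S hS G dG fG hdG hfG Φ Λ d e hdΦ heΦ hdΛ heΛ hpp
      hp hφ hw hred₀ Ω ψ hψ hf hc

/-- the local sets exist for all large primes -/
theorem locS_all (hTRC : S_TRC) (hFIB : S_FIB) (hCZ : S_CZ) (hLNO : S_LNO) (hBN2 : S_BN2)
    (hTSA : S_TSA) (hGL : S_GL) (K : Type) [Field K] [NumberField K]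
    (r s m q κ : ℕ) (a b : Fin r → ℤ) (hab : ∀ i, a i * b i = 0 ∧ (a i ≠ 0 ∨ b i ≠ 0))
    (G : Fin q → Pol (𝓞 K) r s m) (dG : Fin q → Fin r → ℕ) (fG : Fin q → ℕ)
    (hdG : ∀ e, MHomog (G e) (dG e)) (hfG : ∀ e, THomog (G e) (fG e)) (σ : K →+* ℂ)
    (hdim : DimLE σ a b G κ) (B : ℕ) (hB : 1 ≤ B) (hg : 1 ≤ r + s) :
    ∃ (k₀ : ℕ) (δ : ℝ), 0 < δ ∧ δ < 1 ∧
    ∀ h : ℕ, 1 ≤ h → (r + s + κ) * B ≤ (r + s) + h * B →
      ∀ (Φ : Fin h → Pol (𝓞 K) r s m) (ι : Fin h → Type) [∀ j, Fintype (ι j)]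
        (Λ : (j : Fin h) → ι j → Pol (𝓞 K) r s m) (d : Fin h → Fin r → ℕ) (e : Fin h → ℕ),
        (∀ j, MHomog (Φ j) (d j)) → (∀ j, THomog (Φ j) (e j)) → (∀ j x, MHomog (Λ j x) (d j)) →
        (∀ j x, THomog (Λ j x) (e j)) → (∀ j, SepAll (toC σ) a b G (Λ j) k₀) →
        ∀ S : ℕ, 1 ≤ S → ∀ (N : ℕ) (ω : Module.Basis (Fin N) ℤ (𝓞 K)),
        ∃ p₁ : ℕ, ∀ p : ℕ, p.Prime → p₁ ≤ p → 12 ∣ p + 1 → ∀ (k : Type) [Field k] [Fintype k],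
          (Fintype.card k = p ∨ Fintype.card k = p ^ 2) → ∀ φ : 𝓞 K →+* k,
          Function.Surjective φ → ∀ w : Place K k,
          (∀ x : 𝓞 K, (x : K) ∈ w.A ∧ w.r (x : K) = φ x) →
          ∀ red : (∀ i, Pt (a i : K) (b i : K) → Pt (a i : k) (b i : k)),
          (∀ i, IsRed w (a i) (b i) (red i)) →
          LocS K a b (SUn K S) (Σ j, ι j) ω δ (BadP hGL ω a b B S G Φ Λ) k φ w red := by
  obtain ⟨A, p₁, hcnt⟩ := cntX hTRC hFIB K r s m q κ a b hab G fG hfG σ hdim B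
  obtain ⟨k₀, q₀, δ, hδ0, hδ1, hloc⟩ := localBD hCZ hLNO hBN2 r s κ B A hB hg
  refine ⟨k₀, δ, hδ0, hδ1, ?_⟩
  intro h hh hyp Φ ι _ Λ d e hdΦ heΦ hdΛ heΛ hsep S hS N ω
  choose p₂ hp₂ using fun j => hTSA K r s m q a b G (ι j) (Λ j) k₀ σ (hsep j)
  refine ⟨p₁ + q₀ + ∑ j, p₂ j + (S + 5 + ∑ i, (4 * a i ^ 3 + 27 * b i ^ 2).natAbs + 1), ?_⟩
  intro p hpp hp h12 k _ _ hcard φ hφ w hw red₀ hred₀
  have hchk : CharP k p := charP_of_card hpp hcard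
  have hpk : p ≤ Fintype.card k := by
    rcases hcard with h | h
    · exact h.ge
    · rw [h, pow_two]
      exact Nat.le_mul_of_pos_left _ hpp.pos
  have hp2 : ∀ j, p₂ j ≤ p := fun j => by
    have := Finset.single_le_sum (f := p₂) (fun _ _ => Nat.zero_le _) (Finset.mem_univ j)
    omega
  have hp1 : p₁ ≤ p := by omega
  have hpq : q₀ ≤ Fintype.card k := by omega
  have hpS : S + 5 + ∑ i, (4 * a i ^ 3 + 27 * b i ^ 2).natAbs + 1 ≤ p := by omega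
  have hgen : ∀ (Ω : Type) [Field Ω] [IsAlgClosed Ω] [DecidableEq Ω] [Algebra k Ω],
      LocS K a b (SUn K S) (Σ j, ι j) ω δ (BadP hGL ω a b B S G Φ Λ) k φ w red₀ := by
    intro Ω _ _ _ _
    have hch : CharP Ω p := charP_of_injective_algebraMap (algebraMap k Ω).injective p
    obtain ⟨hc1, hc2⟩ := hcnt p hpp hp1 h12 k hcard φ Ω
    have hsepΩ : ∀ j, SepAll ((algebraMap k Ω).comp φ) a b G (Λ j) k₀ :=
      fun j => hp₂ j p hpp (hp2 j) Ω _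
    exact locS_of hGL ω a b hab B S hS G dG fG hdG hfG Φ Λ d e hdΦ heΦ hdΛ heΛ δ hpp hpS hφ hw
      hred₀ Ω ((algebraMap k Ω).comp φ) rfl (Fr_comp φ)
      (hloc m q h a b hh hyp (𝓞 K) k Ω ((algebraMap k Ω).comp φ) (Fr_comp φ) G Φ ι Λ hpq hc1 hc2
        hsepΩ)
  classical
  exact hgen (AlgebraicClosure k)

theorem step0 (K : Type) [Field K] [NumberField K] {r s : ℕ} (a b : Fin r → ℤ)
    (hab : ∀ i, a i * b i = 0 ∧ (a i ≠ 0 ∨ b i ≠ 0)) (Γ : Subgroup Kˣ) (hΓ : Γ.FG)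
    (J : Type) [Fintype J] (N : ℕ) (ω : Module.Basis (Fin N) ℤ (𝓞 K)) (δ : ℝ) (hδ0 : 0 < δ)
    (hδ1 : δ < 1) (p₁ : ℕ)
    (BadP : (∀ i, Pt (a i : K) (b i : K)) → (Fin s → Kˣ) → Set (J × Fin N → ℤ))
    (hp₁ : ∀ p : ℕ, p.Prime → p₁ ≤ p → 12 ∣ p + 1 → ∀ (k : Type) [Field k] [Fintype k],
          (Fintype.card k = p ∨ Fintype.card k = p ^ 2) → ∀ φ : 𝓞 K →+* k,
          Function.Surjective φ → ∀ w : Place K k,
          (∀ x : 𝓞 K, (x : K) ∈ w.A ∧ w.r (x : K) = φ x) →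
          ∀ red : (∀ i, Pt (a i : K) (b i : K) → Pt (a i : k) (b i : k)),
          (∀ i, IsRed w (a i) (b i) (red i)) →
          LocS K a b Γ J ω δ BadP k φ w red) :
    ∃ p₀ R : ℕ, ∀ (T : Finset ℕ) (M : ℕ), GoodT K p₀ T M → ∀ H : ℕ, ∏ p ∈ T, p ≤ 2 * H + 1 →
      (({c : J × Fin N → ℤ | (∀ i, |c i| ≤ (H : ℤ)) ∧ ∃ P u, (∀ l, u l ∈ Γ) ∧
        c ∈ BadP P u}.ncard : ℕ) : ℝ) ≤ (2 * (2 * (H : ℝ) + 1)) ^ Fintype.card (J × Fin N) *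
        ((M : ℝ) ^ R * (1 - δ) ^ T.card) := by
  refine sieveE K a b hab Γ hΓ J N ω δ hδ0 hδ1 p₁ BadP ?_
  intro p hpp hp h12 k _ _ _ hcard φ hφ w hw red₀ hred₀
  exact hp₁ p hpp hp h12 k hcard φ hφ w hw red₀ hred₀

theorem stepA (K : Type) [Field K] [NumberField K] 
    (J : Type) [Fintype J] (N : ℕ) (δ : ℝ) (hδ0 : 0 < δ)
    (hδ1 : δ < 1) (BB : ℕ → Set (J × Fin N → ℤ)) 
    (h : ∃ p₀ R : ℕ, ∀ (T : Finset ℕ) (M : ℕ), GoodT K p₀ T M → ∀ H : ℕ, ∏ p ∈ T, p ≤ 2 * H + 1 →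
      (((BB H).ncard : ℕ) : ℝ) ≤ (2 * (2 * (H : ℝ) + 1)) ^ Fintype.card (J × Fin N) *
        ((M : ℝ) ^ R * (1 - δ) ^ T.card)) :
    ∃ c₀ : ℝ, 0 < c₀ ∧ ∃ H₀ : ℕ, ∀ H : ℕ, H₀ ≤ H →
          (((BB H).ncard : ℕ) : ℝ) ≤
            (2 * (H : ℝ) + 1) ^ (Fintype.card J * N) *
              Real.exp (-c₀ * (Real.log H / Real.log (Real.log H))) := by
  obtain ⟨p₀, R, hSv⟩ := h
  exact asym K J N δ hδ0 hδ1 p₀ R BB hSv

theorem step1 (K : Type) [Field K] [NumberField K] {r s : ℕ} (a b : Fin r → ℤ)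
    (hab : ∀ i, a i * b i = 0 ∧ (a i ≠ 0 ∨ b i ≠ 0)) (Γ : Subgroup Kˣ) (hΓ : Γ.FG)
    (J : Type) [Fintype J] (N : ℕ) (ω : Module.Basis (Fin N) ℤ (𝓞 K)) (δ : ℝ) (hδ0 : 0 < δ)
    (hδ1 : δ < 1) (p₁ : ℕ)
    (BadP : (∀ i, Pt (a i : K) (b i : K)) → (Fin s → Kˣ) → Set (J × Fin N → ℤ))
    (hp₁ : ∀ p : ℕ, p.Prime → p₁ ≤ p → 12 ∣ p + 1 → ∀ (k : Type) [Field k] [Fintype k],
          (Fintype.card k = p ∨ Fintype.card k = p ^ 2) → ∀ φ : 𝓞 K →+* k,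
          Function.Surjective φ → ∀ w : Place K k,
          (∀ x : 𝓞 K, (x : K) ∈ w.A ∧ w.r (x : K) = φ x) →
          ∀ red : (∀ i, Pt (a i : K) (b i : K) → Pt (a i : k) (b i : k)),
          (∀ i, IsRed w (a i) (b i) (red i)) →
          LocS K a b Γ J ω δ BadP k φ w red) :
    ∃ c₀ : ℝ, 0 < c₀ ∧ ∃ H₀ : ℕ, ∀ H : ℕ, H₀ ≤ H →
          (({c : J × Fin N → ℤ | (∀ i, |c i| ≤ (H : ℤ)) ∧
            ∃ P u, (∀ l, u l ∈ Γ) ∧ c ∈ BadP P u}.ncard : ℕ) : ℝ) ≤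
            (2 * (H : ℝ) + 1) ^ (Fintype.card J * N) *
              Real.exp (-c₀ * (Real.log H / Real.log (Real.log H))) := 
  stepA K J N δ hδ0 hδ1 (fun H => {c : J × Fin N → ℤ | (∀ i, |c i| ≤ (H : ℤ)) ∧
            ∃ (P : ∀ i, Pt (a i : K) (b i : K)) (u : Fin s → Kˣ), (∀ l, u l ∈ Γ) ∧ c ∈ BadP P u})
    (step0 K a b hab Γ hΓ J N ω δ hδ0 hδ1 p₁ BadP hp₁)

end Pool.Agent.N89.BD
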