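import Pool.Agent.N89.GS.Stm

/-!
# Project BD (helper89): points of bounded degree on complete intersections over semiabelian varieties

`K` is a number field, `G = E_1 × ⋯ × E_r × G_m^s`, `𝒯 ⊂ G × ℙ^(m-1)` an arbitrary closed subscheme,
`X_c ⊂ 𝒯` a random complete intersection with `B dim X_c ≤ dim G`: for 100 % of the `c` there are no
points of degree at most `B` over `K` on `X_c`. Definitions and statements of the tasks.
-/

set_option autoImplicit false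

namespace Pool.Agent.N89.BD

open MvPolynomial NumberField Pool.Agent.H901R3.MS Pool.Agent.W659 Pool.Agent.W659.SA
  Pool.Agent.N89.GS WeierstrassCurve

/-! ### Field homomorphisms as places, and the induced maps of the points -/

/-- a homomorphism of fields is a place -/
def ofHom {K k : Type} [Field K] [Field k] (f : K →+* k) : Place K k where
  A := ⊤
  ρ := f.comp (⊤ : Subring K).subtype
  inv_of_notMem := fun _ hx => absurd trivial hx
  inv_of_ne := fun _ _ => trivial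

/-- composition of a place with a homomorphism of the residue fields -/
def Place.post {K k k' : Type} [Field K] [Field k] [Field k'] (v : Place K k) (f : k →+* k') :
    Place K k' where
  A := v.A
  ρ := f.comp v.ρ
  inv_of_notMem := fun x hx => by
    obtain ⟨h, h0⟩ := v.inv_of_notMem x hx
    exact ⟨h, by rw [RingHom.comp_apply, h0, map_zero]⟩
  inv_of_ne := fun x hx => v.inv_of_ne x (fun h => hx (by rw [RingHom.comp_apply, h, map_zero]))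

/-- composition of a homomorphism of fields with a place -/
def Place.pre {K K' k : Type} [Field K] [Field K'] [Field k] (v : Place K' k) (f : K →+* K') :
    Place K k where
  A := v.A.comap f
  ρ := v.ρ.comp (f.restrict (v.A.comap f) v.A (fun _ h => h))
  inv_of_notMem := fun x hx => by
    obtain ⟨h, h0⟩ := v.inv_of_notMem (f x) hx
    refine ⟨by rw [Subring.mem_comap, map_inv₀]; exact h, ?_⟩
    rw [RingHom.comp_apply, ← h0]
    congr 1
    ext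
    exact map_inv₀ f x
  inv_of_ne := fun x hx => by
    have h := v.inv_of_ne _ hx
    rw [Subring.mem_comap, map_inv₀]
    exact h

/-- the Frobenius endomorphism `x ↦ x ^ |k|` of a field containing the finite field `k` -/
noncomputable def Fr (k Ω : Type) [Field k] [Fintype k] [Field Ω] [Algebra k Ω] : Ω →+* Ω :=
  (FiniteField.frobeniusAlgHom k Ω : Ω →+* Ω)

theorem Fr_apply (k Ω : Type) [Field k] [Fintype k] [Field Ω] [Algebra k Ω] (x : Ω) :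
    Fr k Ω x = x ^ Fintype.card k := by
  show FiniteField.frobeniusAlgHom k Ω x = _
  rw [FiniteField.frobeniusAlgHom_apply]

/-- the image of a point under a homomorphism of fields -/
def mp {K k : Type} [Field K] [Field k] (f : K →+* k) {a b : ℤ} :
    Pt (a : K) (b : K) → Pt (a : k) (b : k)
  | Affine.Point.zero => Affine.Point.zero
  | Affine.Point.some x y h => Affine.Point.some (f x) (f y) (by
      have h1 : CV (a : k) (b : k) = (CV (a : K) (b : K)).map f := by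
        simp [CV, WeierstrassCurve.map]
      rw [h1]
      exact (WeierstrassCurve.Affine.map_nonsingular _ f.injective x y).2 h)

/-! ### Separation of arbitrary points -/

/-- the linear system `Λ` separates any `k₀` different points of `𝒯` -/
def SepAll {O k : Type} [CommRing O] [Field k] (φ : O →+* k) {r s m q : ℕ} (a b : Fin r → ℤ)
    (G : Fin q → Pol O r s m) {ι : Type} (Λ : ι → Pol O r s m) (k₀ : ℕ) : Prop :=
  ∀ l ≤ k₀, ∀ (V : Fin l → Fin r → Fin 3 → k) (u : Fin l → Fin s → k) (T : Fin l → Fin m → k),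
    (∀ i, OnB a b (V i) (u i)) → (∀ i, OnF φ G (V i) (u i) (T i)) →
    (∀ i j, i ≠ j → ¬ (SameB (V i) (u i) (V j) (u j) ∧ ∃ c : k, T i = c • T j)) →
      LinearIndependent k (fun i => fun x => vl φ (Λ x) (V i) (u i) (T i))

/-! ### Statements of the tasks -/

/-- TSA: transfer of the separation of points to large characteristic -/
def S_TSA : Prop := ∀ (K : Type) [Field K] [NumberField K] (r s m q : ℕ) (a b : Fin r → ℤ)
  (G : Fin q → Pol (𝓞 K) r s m) (ι : Type) [Finite ι] (Λ : ι → Pol (𝓞 K) r s m) (k₀ : ℕ)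
  (σ : K →+* ℂ), SepAll (toC σ) a b G Λ k₀ →
  ∃ p₁ : ℕ, ∀ p : ℕ, p.Prime → p₁ ≤ p → ∀ (k : Type) [Field k] [CharP k p] (φ : 𝓞 K →+* k),
    SepAll φ a b G Λ k₀

/-- MOA: a system which contains all monomials `V^μ u^x T^α`, `μ` of multidegree `d`, `α` of degree
`e`, `x₀ ≤ x ≤ x₀ + k₀ - 1`, separates any `k₀` points if all `d i ≥ k₀ - 1` and `e ≥ k₀ - 1` -/
def S_MOA : Prop := ∀ (O k : Type) [CommRing O] [Field k] (φ : O →+* k) (r s m q : ℕ)
  (a b : Fin r → ℤ) (G : Fin q → Pol O r s m) (ι : Type) (Λ : ι → Pol O r s m) (k₀ : ℕ)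
  (d : Fin r → ℕ) (e : ℕ) (x₀ : Fin s → ℕ), (∀ i, k₀ ≤ d i + 1) → k₀ ≤ e + 1 →
  (∀ (μ : Fin r → Fin 3 → ℕ) (x : Fin s → ℕ) (α : Fin m → ℕ), (∀ i, ∑ j, μ i j = d i) →
    (∀ l, x₀ l ≤ x l ∧ x l + 1 ≤ x₀ l + k₀) → ∑ i, α i = e → ∃ y, Λ y = mon μ x α) →
  SepAll φ a b G Λ k₀

/-- LNO: the number of the solutions over the finite field `k` of a Frobenius-stable independent
system of linear equations over an extension `Ω` -/
def S_LNO : Prop := ∀ (k Ω : Type) [Field k] [Fintype k] [Field Ω] [Algebra k Ω] (ι I : Type)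
  [Fintype ι] [Fintype I] (π : Equiv.Perm I) (w : I → ι → Ω) (y : I → Ω),
  (∀ i x, w i x ^ Fintype.card k = w (π i) x) → (∀ i, y i ^ Fintype.card k = y (π i)) →
  LinearIndependent Ω w →
  {c : ι → k | ∀ i, ∑ x, algebraMap k Ω (c x) * w i x = y i}.ncard *
    Fintype.card k ^ Fintype.card I = Fintype.card k ^ Fintype.card ι

/-- BN2: Poisson approximation of the number of the sets `Z ∈ 𝒵` contained in a random set `X c` -/
def S_BN2 : Prop := ∀ B D : ℕ, ∃ (k₀ : ℕ) (δ : ℝ), 0 < δ ∧ 2 * δ < 1 ∧ ∀ D₂ : ℕ, ∃ ε : ℝ, 0 < ε ∧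
  ∀ (C α : Type) [Fintype C] [DecidableEq α] (X : C → Set α) (𝒵 : Finset (Finset α)) (p : ℝ),
  0 ≤ p → p ≤ 1 / 2 → (∀ Z ∈ 𝒵, Z.card = B) → 1 ≤ B →
  (∀ J ⊆ 𝒵, J.card ≤ k₀ → (({c : C | ∀ Z ∈ J, ↑Z ⊆ X c}.ncard : ℕ) : ℝ) =
    Fintype.card C * p ^ (J.biUnion id).card) →
  ∑ Z ∈ 𝒵, p ^ Z.card ≤ D →
  (∀ J ⊆ 𝒵, J.card ≤ k₀ → ∑ Z ∈ 𝒵, p ^ (Z \ J.biUnion id).card ≤ D₂) →
  (∀ Z₀ ∈ 𝒵, ∑ Z ∈ 𝒵 with Z ≠ Z₀ ∧ (Z ∩ Z₀).Nonempty, p ^ (Z \ Z₀).card ≤ ε) →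
  (({c : C | ∃ Z ∈ 𝒵, ↑Z ⊆ X c}.ncard : ℕ) : ℝ) ≤ (1 - 2 * δ) * Fintype.card C

/-- CZ: the number of the supports `Y` of Frobenius-stable zero-cycles `∑ μ(x) x` with given sum
`∑ μ(x) pt(x) = σ` -/
def S_CZ : Prop := ∀ B A e g : ℕ, ∃ C : ℕ, ∀ (q : ℕ) (X 𝔾 : Type) [AddCommGroup 𝔾] (F : X → X)
  (pt : X → 𝔾), 2 ≤ q → g ≤ e → Function.Injective F →
  (∀ t, 1 ≤ t → t ≤ B → {x : X | F^[t] x = x}.Finite ∧
    {x : X | F^[t] x = x}.ncard ≤ A * q ^ (e * t)) →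
  (∀ t m, 1 ≤ t → t ≤ B → 1 ≤ m → m ≤ B → ∀ σ : 𝔾,
    {x : X | F^[t] x = x ∧ m • ∑ i ∈ Finset.range t, pt (F^[i] x) = σ}.ncard * q ^ g ≤
      A * q ^ (e * t)) →
  ∀ t, 1 ≤ t → t ≤ B → ∀ σ : 𝔾,
    {Y : Finset X | Y.card = t ∧ (∀ x ∈ Y, F x ∈ Y) ∧ ∃ μ : X → ℕ,
      (∀ x ∈ Y, 1 ≤ μ x ∧ μ x ≤ B ∧ μ (F x) = μ x) ∧ ∑ x ∈ Y, μ x • pt x = σ}.Finite ∧
    {Y : Finset X | Y.card = t ∧ (∀ x ∈ Y, F x ∈ Y) ∧ ∃ μ : X → ℕ,
      (∀ x ∈ Y, 1 ≤ μ x ∧ μ x ≤ B ∧ μ (F x) = μ x) ∧ ∑ x ∈ Y, μ x • pt x = σ}.ncard * q ^ g ≤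
      C * q ^ (e * t)

/-- TOR: the number of the `m`-torsion points is bounded in all large characteristics -/
def S_TOR : Prop := ∀ a b : ℤ, 4 * a ^ 3 + 27 * b ^ 2 ≠ 0 → ∀ m : ℕ, 1 ≤ m → ∃ C p₀ : ℕ,
  ∀ p : ℕ, p.Prime → p₀ ≤ p → ∀ (k : Type) [Field k] [CharP k p] [DecidableEq k],
    {P : Pt (a : k) (b : k) | m • P = 0}.Finite ∧ {P : Pt (a : k) (b : k) | m • P = 0}.ncard ≤ C

/-- CRD: a lower bound for the number of the points over `𝔽_p` and `𝔽_(p²)` -/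
def S_CRD : Prop := ∀ (p : ℕ) (a b : ℤ), p.Prime → 12 ∣ p + 1 → a * b = 0 →
  ¬ (p : ℤ) ∣ 4 * a ^ 3 + 27 * b ^ 2 → ∀ (k : Type) [Field k] [Fintype k],
    (Fintype.card k = p ∨ Fintype.card k = p ^ 2) →
    Fintype.card k ≤ 8 * Nat.card (Pt (a : k) (b : k))

/-- TRC: the number of the points `P` of `E(𝔽_(q^t))` such that `m` times the trace of `P` is given -/
def S_TRC : Prop := ∀ a b : ℤ, a * b = 0 → 4 * a ^ 3 + 27 * b ^ 2 ≠ 0 → ∀ B : ℕ, ∃ C p₀ : ℕ,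
  ∀ p : ℕ, p.Prime → p₀ ≤ p → 12 ∣ p + 1 → ∀ (k : Type) [Field k] [Fintype k],
    (Fintype.card k = p ∨ Fintype.card k = p ^ 2) → ∀ (Ω : Type) [Field Ω] [Algebra k Ω]
    [DecidableEq Ω] (t m : ℕ), 1 ≤ t → t ≤ B → 1 ≤ m → m ≤ B → ∀ σ : Pt (a : Ω) (b : Ω),
    {P : Pt (a : Ω) (b : Ω) | (mp (Fr k Ω))^[t] P = P}.Finite ∧
    {P : Pt (a : Ω) (b : Ω) | (mp (Fr k Ω))^[t] P = P}.ncard ≤ C * Fintype.card k ^ t ∧
    {P : Pt (a : Ω) (b : Ω) | (mp (Fr k Ω))^[t] P = P ∧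
      m • ∑ i ∈ Finset.range t, (mp (Fr k Ω))^[i] P = σ}.ncard * Fintype.card k ≤
      C * Fintype.card k ^ t

/-- the group of `S`-units of `L` -/
def SUn (L : Type) [Field L] (S : ℕ) : Subgroup Lˣ where
  carrier := {u | ∃ n : ℕ, IsIntegral ℤ ((S : L) ^ n * u) ∧ IsIntegral ℤ ((S : L) ^ n * (u⁻¹ : Lˣ))}
  one_mem' := ⟨0, by simpa using isIntegral_one, by simpa using isIntegral_one⟩
  mul_mem' := by
    rintro u v ⟨n, h1, h2⟩ ⟨n', h3, h4⟩
    refine ⟨n + n', ?_, ?_⟩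
    · have h : (S : L) ^ (n + n') * ((u * v : Lˣ) : L) = (S : L) ^ n * u * ((S : L) ^ n' * v) := by
        push_cast
        ring
      rw [h]
      exact h1.mul h3
    · have h : (S : L) ^ (n + n') * (((u * v)⁻¹ : Lˣ) : L) =
          (S : L) ^ n * (u⁻¹ : Lˣ) * ((S : L) ^ n' * (v⁻¹ : Lˣ)) := by
        rw [mul_inv, Units.val_mul]
        ring
      rw [h]
      exact h2.mul h4
  inv_mem' := by
    rintro u ⟨n, h1, h2⟩
    exact ⟨n, h2, by simpa using h1⟩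

/-- SUF: the group of `S`-units is finitely generated -/
def S_SUF : Prop := ∀ (K : Type) [Field K] [NumberField K] (S : ℕ), 1 ≤ S → (SUn K S).FG

/-- GL1: places and Frobenius elements of a Galois extension -/
def S_GL1 : Prop := ∀ (K M : Type) [Field K] [NumberField K] [Field M] [NumberField M] [Algebra K M]
  [IsGalois K M] (k : Type) [Field k] [Fintype k] (w : Place K k) (φ : 𝓞 K →+* k),
  Function.Surjective φ → (∀ x : 𝓞 K, (x : K) ∈ w.A ∧ w.r (x : K) = φ x) →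
  ∀ (Ω : Type) [Field Ω] [IsAlgClosed Ω] [Algebra k Ω],
  ∃ (V : Place M Ω) (σ : M ≃ₐ[K] M), (∀ x : 𝓞 M, (x : M) ∈ V.A) ∧
    (∀ y : K, (algebraMap K M y ∈ V.A ↔ y ∈ w.A) ∧
      V.r (algebraMap K M y) = algebraMap k Ω (w.r y)) ∧
    ∀ y : M, (σ y ∈ V.A ↔ y ∈ V.A) ∧ (y ∈ V.A → V.r (σ y) = V.r y ^ Fintype.card k)

/-- GL: reduction of the conjugates of the points over `L` at a place of `K` -/
def S_GL : Prop := ∀ (K L : Type) [Field K] [NumberField K] [Field L] [NumberField L] [Algebra K L],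
  ∃ tr : (∀ a b : ℤ, Pt (a : L) (b : L) → Pt (a : K) (b : K)),
  ∀ (k : Type) [Field k] [Fintype k] (w : Place K k) (φ : 𝓞 K →+* k), Function.Surjective φ →
  (∀ x : 𝓞 K, (x : K) ∈ w.A ∧ w.r (x : K) = φ x) →
  ∀ (Ω : Type) [Field Ω] [IsAlgClosed Ω] [DecidableEq Ω] [Algebra k Ω],
  ∃ (v : Fin (Module.finrank K L) → Place L Ω) (π : Equiv.Perm (Fin (Module.finrank K L))),
    (∀ i, ∀ x : 𝓞 K, algebraMap K L (x : K) ∈ (v i).A ∧
      (v i).r (algebraMap K L (x : K)) = algebraMap k Ω (φ x)) ∧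
    (∀ i (x : 𝓞 L), (x : L) ∈ (v i).A) ∧
    (∀ i, ∀ y ∈ (v i).A, y ∈ (v (π i)).A ∧ (v (π i)).r y = (v i).r y ^ Fintype.card k) ∧
    (∀ i, ∀ y, y ∈ (v (π i)).A → y ∈ (v i).A) ∧
    (∀ a b : ℤ, Disc (a : Ω) (b : Ω) →
      ∀ (red : Fin (Module.finrank K L) → Pt (a : L) (b : L) → Pt (a : Ω) (b : Ω))
      (red₀ : Pt (a : K) (b : K) → Pt (a : k) (b : k)), (∀ i, IsRed (v i) a b (red i)) →
      IsRed w a b red₀ → ∀ P, ∑ i, red i P = mp (algebraMap k Ω) (red₀ (tr a b P))) ∧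
    (∀ u : L, (∀ i, u ∈ (v i).A ∧ (v i).r u ≠ 0) → Algebra.norm K u ∈ w.A ∧
      algebraMap k Ω (w.r (Algebra.norm K u)) = ∏ i, (v i).r u)

end Pool.Agent.N89.BD
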