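import Mathlib

/-! Project BD (helper89): sums over stable sets with given sum, abstract form. -/

set_option autoImplicit false

namespace Pool.Agent.N89.BD

section
variable {X 𝔾 : Type} [AddCommGroup 𝔾]

/-- the supports of the stable zero-cycles with `t` points and with sum `σ` -/
def YS (F : X → X) (pt : X → 𝔾) (B t : ℕ) (σ : 𝔾) : Set (Finset X) :=
  {Y : Finset X | Y.card = t ∧ (∀ x ∈ Y, F x ∈ Y) ∧ ∃ μ : X → ℕ,
      (∀ x ∈ Y, 1 ≤ μ x ∧ μ x ≤ B ∧ μ (F x) = μ x) ∧ ∑ x ∈ Y, μ x • pt x = σ}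

theorem mem_of_stable {F : X → X} (hF : Function.Injective F) {U : Finset X}
    (hU : ∀ x ∈ U, F x ∈ U) {x : X} (hx : F x ∈ U) : x ∈ U := by
  classical
  have h1 : U.image F = U := by
    apply Finset.eq_of_subset_of_card_le
    · intro y hy
      rw [Finset.mem_image] at hy
      obtain ⟨z, hz, rfl⟩ := hy
      exact hU z hz
    · rw [Finset.card_image_of_injective _ hF]
  rw [← h1, Finset.mem_image] at hx
  obtain ⟨z, hz, hzx⟩ := hx
  rw [← hF hzx]
  exact hz

theorem expo {B e g h : ℕ} (hB : 1 ≤ B) (hg : 1 ≤ g) (hyp : e * B ≤ g + h * B) {t : ℕ}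
    (ht1 : 1 ≤ t) (ht2 : t + 1 ≤ B) : e * t + 1 ≤ g + h * t := by
  by_cases he : e ≤ h
  · have := Nat.mul_le_mul_right t he
    omega
  · obtain ⟨d, rfl⟩ : ∃ d, e = h + 1 + d := ⟨e - h - 1, by omega⟩
    have h1 : (1 + d) * B ≤ g := by
      have h2 : (h + 1 + d) * B = h * B + (1 + d) * B := by ring
      omega
    have h2 : (1 + d) * t + 1 ≤ (1 + d) * B := by
      have h3 : (1 + d) * (t + 1) ≤ (1 + d) * B := Nat.mul_le_mul_left _ ht2
      have h4 : (1 + d) * (t + 1) = (1 + d) * t + (1 + d) := by ring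
      omega
    have h3 : (h + 1 + d) * t = h * t + (1 + d) * t := by ring
    omega

variable (F : X → X) (hF : Function.Injective F) (pt : X → 𝔾) (B C Q e g h : ℕ)
  (hQ : 2 ≤ Q) (hB : 1 ≤ B) (hg : 1 ≤ g) (hyp : e * B ≤ g + h * B)
  (hY : ∀ t, 1 ≤ t → t ≤ B → ∀ σ : 𝔾, (YS F pt B t σ).Finite ∧
    (YS F pt B t σ).ncard * Q ^ g ≤ C * Q ^ (e * t))

include hQ hyp hY in
theorem yb1 (t : ℕ) (ht1 : 1 ≤ t) (ht2 : t ≤ B) (hg : 1 ≤ g) (σ : 𝔾) :
    ((YS F pt B t σ).ncard : ℝ) * (((Q : ℝ) ^ h)⁻¹) ^ t ≤ C := by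
  have h1 := (hY t ht1 ht2 σ).2
  have hQ0 : (0 : ℝ) < Q := by exact_mod_cast (show 0 < Q by omega)
  have hle : e * t ≤ g + h * t := by
    rcases Nat.lt_or_ge t B with h2 | h2
    · have := expo (ht1.trans ht2) hg hyp ht1 h2
      omega
    · have : t = B := le_antisymm ht2 h2
      subst this
      exact hyp
  have h3 : (YS F pt B t σ).ncard * Q ^ g ≤ C * Q ^ (g + h * t) :=
    h1.trans (Nat.mul_le_mul_left _ (Nat.pow_le_pow_right (by omega) hle))
  have h4 : (YS F pt B t σ).ncard ≤ C * Q ^ (h * t) := by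
    rw [pow_add] at h3
    have h5 : (YS F pt B t σ).ncard * Q ^ g ≤ (C * Q ^ (h * t)) * Q ^ g := by
      calc _ ≤ _ := h3
        _ = _ := by ring
    exact Nat.le_of_mul_le_mul_right h5 (Nat.pow_pos (by omega))
  have h5 : ((YS F pt B t σ).ncard : ℝ) ≤ C * (Q : ℝ) ^ (h * t) := by exact_mod_cast h4
  rw [inv_pow, ← pow_mul]
  rwa [← div_eq_mul_inv, div_le_iff₀ (by positivity)]

include hQ hyp hY in
theorem yb2 (t : ℕ) (ht1 : 1 ≤ t) (ht2 : t + 1 ≤ B) (hg : 1 ≤ g) (σ : 𝔾) :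
    ((YS F pt B t σ).ncard : ℝ) * (((Q : ℝ) ^ h)⁻¹) ^ t ≤ C / Q := by
  have h1 := (hY t ht1 (by omega) σ).2
  have hQ0 : (0 : ℝ) < Q := by exact_mod_cast (show 0 < Q by omega)
  have hle : e * t + 1 ≤ g + h * t := expo (by omega) hg hyp ht1 ht2
  have h3 : (YS F pt B t σ).ncard * Q ^ g * Q ≤ C * Q ^ (g + h * t) := by
    calc (YS F pt B t σ).ncard * Q ^ g * Q ≤ C * Q ^ (e * t) * Q := Nat.mul_le_mul_right _ h1
      _ = C * Q ^ (e * t + 1) := by rw [pow_succ]; ring
      _ ≤ _ := Nat.mul_le_mul_left _ (Nat.pow_le_pow_right (by omega) hle)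
  have h4 : (YS F pt B t σ).ncard * Q ≤ C * Q ^ (h * t) := by
    rw [pow_add] at h3
    have h5 : (YS F pt B t σ).ncard * Q * Q ^ g ≤ (C * Q ^ (h * t)) * Q ^ g := by
      calc _ = (YS F pt B t σ).ncard * Q ^ g * Q := by ring
        _ ≤ _ := h3
        _ = _ := by ring
    exact Nat.le_of_mul_le_mul_right h5 (Nat.pow_pos (by omega))
  have h5 : ((YS F pt B t σ).ncard : ℝ) * Q ≤ C * (Q : ℝ) ^ (h * t) := by exact_mod_cast h4
  rw [inv_pow, ← pow_mul, ← div_eq_mul_inv, div_le_div_iff₀ (by positivity) hQ0]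
  exact h5

include hF hQ hB hg hyp hY in
theorem sumZ [DecidableEq X] (σ : 𝔾) (U : Finset X) (hU : ∀ x ∈ U, F x ∈ U)
    (𝒵 : Finset (Finset X))
    (hZ : ∀ Z ∈ 𝒵, Z.card = B ∧ (∀ x ∈ Z, F x ∈ Z) ∧ ∑ x ∈ Z, pt x = σ) :
    ∑ Z ∈ 𝒵, (((Q : ℝ) ^ h)⁻¹) ^ (Z \ U).card ≤ 2 ^ U.card * (1 + C) ∧
    ((∀ Z ∈ 𝒵, (Z ∩ U).Nonempty ∧ ¬ Z ⊆ U) →
      ∑ Z ∈ 𝒵, (((Q : ℝ) ^ h)⁻¹) ^ (Z \ U).card ≤ 2 ^ U.card * (C / Q)) := by
  classical
  set p : ℝ := ((Q : ℝ) ^ h)⁻¹ with hp
  have hQ0 : (0 : ℝ) < Q := by exact_mod_cast (show 0 < Q by omega)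
  have hp0 : 0 ≤ p := by positivity
  have hfw : ∑ Z ∈ 𝒵, p ^ (Z \ U).card =
      ∑ W ∈ U.powerset, ∑ Z ∈ 𝒵 with Z ∩ U = W, p ^ (Z \ U).card :=
    (Finset.sum_fiberwise_of_maps_to (fun Z _ => by
      rw [Finset.mem_powerset]
      exact Finset.inter_subset_right) _).symm
  -- the inner sums
  have hin : ∀ W ∈ U.powerset, (B ≤ W.card →
      ∑ Z ∈ 𝒵 with Z ∩ U = W, p ^ (Z \ U).card ≤ 1) ∧
      (W.card < B → ∑ Z ∈ 𝒵 with Z ∩ U = W, p ^ (Z \ U).card ≤
        ((YS F pt B (B - W.card) (σ - ∑ x ∈ W, pt x)).ncard : ℝ) * p ^ (B - W.card)) := by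
    intro W hW
    have hcardZ : ∀ Z ∈ 𝒵.filter (fun Z => Z ∩ U = W), (Z \ U).card = B - W.card := by
      intro Z hZW
      rw [Finset.mem_filter] at hZW
      have h1 := Finset.card_sdiff_add_card_inter Z U
      rw [hZW.2, (hZ Z hZW.1).1] at h1
      omega
    have hsum : ∑ Z ∈ 𝒵 with Z ∩ U = W, p ^ (Z \ U).card =
        ((𝒵.filter (fun Z => Z ∩ U = W)).card : ℝ) * p ^ (B - W.card) := by
      rw [Finset.sum_congr rfl (fun Z hZW => by rw [hcardZ Z hZW]), Finset.sum_const, nsmul_eq_mul]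
    constructor
    · intro hWB
      have h1 : (𝒵.filter (fun Z => Z ∩ U = W)).card ≤ 1 := by
        rw [Finset.card_le_one]
        have h2 : ∀ Z ∈ 𝒵.filter (fun Z => Z ∩ U = W), Z = W := by
          intro Z hZW
          have h3 := hcardZ Z hZW
          rw [Nat.sub_eq_zero_of_le hWB, Finset.card_eq_zero, Finset.sdiff_eq_empty_iff_subset] at h3
          rw [Finset.mem_filter] at hZW
          rw [← hZW.2]
          exact (Finset.inter_eq_left.2 h3).symm
        intro Z hZW Z' hZW'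
        rw [h2 Z hZW, h2 Z' hZW']
      rw [hsum, Nat.sub_eq_zero_of_le hWB, pow_zero, mul_one]
      exact_mod_cast h1
    · intro hWB
      rw [hsum]
      refine mul_le_mul_of_nonneg_right ?_ (by positivity)
      have hfin := (hY (B - W.card) (by omega) (by omega) (σ - ∑ x ∈ W, pt x)).1
      have h1 : (𝒵.filter (fun Z => Z ∩ U = W)).card ≤
          (YS F pt B (B - W.card) (σ - ∑ x ∈ W, pt x)).ncard := by
        rw [← Set.ncard_coe_finset]
        refine Set.ncard_le_ncard_of_injOn (fun Z => Z \ U) ?_ ?_ hfin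
        · intro Z hZW
          rw [Finset.mem_coe, Finset.mem_filter] at hZW
          obtain ⟨hZ1, hZ2, hZ3⟩ := hZ Z hZW.1
          refine ⟨hcardZ Z (by rw [Finset.mem_filter]; exact hZW), ?_, fun _ => 1, ?_, ?_⟩
          · intro x hx
            rw [Finset.mem_sdiff] at hx ⊢
            exact ⟨hZ2 x hx.1, fun hcon => hx.2 (mem_of_stable hF hU hcon)⟩
          · intro x _
            exact ⟨le_rfl, hB, rfl⟩
          · simp only [one_smul]
            have h4 : ∑ x ∈ Z \ U, pt x + ∑ x ∈ Z ∩ U, pt x = ∑ x ∈ Z, pt x := by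
              rw [← Finset.sum_union (Finset.disjoint_sdiff_inter Z U),
                Finset.sdiff_union_inter]
            rw [← hZ3, ← h4, hZW.2, add_sub_cancel_right]
        · intro Z hZW Z' hZW' hEq
          rw [Finset.mem_coe, Finset.mem_filter] at hZW hZW'
          have h5 : Z = Z \ U ∪ Z ∩ U := (Finset.sdiff_union_inter Z U).symm
          have h6 : Z' = Z' \ U ∪ Z' ∩ U := (Finset.sdiff_union_inter Z' U).symm
          have hEq' : Z \ U = Z' \ U := hEq
          rw [h5, h6, hEq', hZW.2, hZW'.2]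
      exact_mod_cast h1
  constructor
  · rw [hfw]
    calc _ ≤ ∑ W ∈ U.powerset, (1 + (C : ℝ)) := by
          refine Finset.sum_le_sum fun W hW => ?_
          rcases Nat.lt_or_ge W.card B with h1 | h1
          · refine ((hin W hW).2 h1).trans ((yb1 F pt B C Q e g h hQ hyp hY (B - W.card)
              (by omega) (by omega) hg _).trans ?_)
            linarith
          · refine ((hin W hW).1 h1).trans ?_
            have : (0 : ℝ) ≤ C := by positivity
            linarith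
      _ = _ := by
          rw [Finset.sum_const, Finset.card_powerset, nsmul_eq_mul]
          push_cast
          ring
  · intro hne
    rw [hfw]
    calc _ ≤ ∑ W ∈ U.powerset, ((C : ℝ) / Q) := by
          refine Finset.sum_le_sum fun W hW => ?_
          by_cases hemp : (𝒵.filter (fun Z => Z ∩ U = W)) = ∅
          · rw [hemp, Finset.sum_empty]
            positivity
          · obtain ⟨Z, hZW⟩ := Finset.nonempty_iff_ne_empty.2 hemp
            rw [Finset.mem_filter] at hZW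
            obtain ⟨h1, h2⟩ := hne Z hZW.1
            rw [hZW.2] at h1
            have h3 : W.card < B := by
              rw [← (hZ Z hZW.1).1, ← hZW.2]
              apply Finset.card_lt_card
              refine ⟨Finset.inter_subset_left, fun hcon => h2 ?_⟩
              exact hcon.trans Finset.inter_subset_right
            have h4 : 1 ≤ W.card := h1.card_pos
            exact ((hin W hW).2 h3).trans (yb2 F pt B C Q e g h hQ hyp hY (B - W.card)
              (by omega) (by omega) hg _)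
      _ = _ := by
          rw [Finset.sum_const, Finset.card_powerset, nsmul_eq_mul]
          push_cast
          ring

end

end Pool.Agent.N89.BD
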