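import Pool.Agent.N89.BD.Stm
import Pool.Agent.H901R3.MS.P_R1
import Pool.Agent.H901R3.MS.P_R2
import Pool.Agent.H901R3.MS.P_R3
import Pool.Agent.H901R3.MS.P_R4
import Pool.Agent.H901R3.MS.P_R5
import Pool.Agent.H901R3.MS.P_R6
import Pool.Agent.H901R3.MS.P_R7

/-! Project BD (helper89): field homomorphisms as places. -/

set_option autoImplicit false

namespace Pool.Agent.N89.BD

open MvPolynomial NumberField Pool.Agent.H901R3.MS Pool.Agent.W659 Pool.Agent.W659.SA
  Pool.Agent.N89.GS WeierstrassCurve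

section
variable {K k k' : Type} [Field K] [Field k] [Field k']

theorem ofHom_mem (f : K →+* k) (x : K) : x ∈ (ofHom f).A := trivial

theorem ofHom_r (f : K →+* k) (x : K) : (ofHom f).r x = f x := by
  rw [(ofHom f).r_of (ofHom_mem f x)]
  rfl

theorem post_r (v : Place K k) (f : k →+* k') (x : K) : (Place.post v f).r x = f (v.r x) := by
  by_cases hx : x ∈ v.A
  · rw [v.r_of hx, (Place.post v f).r_of hx]
    rfl
  · have h1 : v.r x = 0 := by simp [Place.r, hx]
    have h2 : (Place.post v f).r x = 0 := by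
      have hx' : x ∉ (Place.post v f).A := hx
      simp [Place.r, hx']
    rw [h1, h2, map_zero]

theorem pre_mem {K' : Type} [Field K'] (v : Place K' k) (f : K →+* K') (x : K) :
    x ∈ (Place.pre v f).A ↔ f x ∈ v.A := Iff.rfl

theorem pre_r {K' : Type} [Field K'] (v : Place K' k) (f : K →+* K') (x : K) :
    (Place.pre v f).r x = v.r (f x) := by
  by_cases hx : f x ∈ v.A
  · rw [v.r_of hx, (Place.pre v f).r_of hx]
    rfl
  · have h1 : v.r (f x) = 0 := by simp [Place.r, hx]
    have h2 : (Place.pre v f).r x = 0 := by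
      have hx' : x ∉ (Place.pre v f).A := hx
      simp [Place.r, hx']
    rw [h1, h2]

theorem isRed_mp (f : K →+* k) (a b : ℤ) :
    IsRed (ofHom f) a b (mp f : Pt (a : K) (b : K) → Pt (a : k) (b : k)) := by
  refine ⟨rfl, fun x y h hx => absurd (ofHom_mem f x) hx, fun x y h hx => ⟨ofHom_mem f y, ?_⟩⟩
  have h1 : (CV (a : k) (b : k)) = (CV (a : K) (b : K)).map f := by
    simp [CV, WeierstrassCurve.map]
  have h2 : (CV (a : k) b).toAffine.Nonsingular (f x) (f y) := by
    rw [h1]
    exact (WeierstrassCurve.Affine.map_nonsingular _ f.injective x y).2 h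
  refine ⟨by rw [ofHom_r, ofHom_r]; exact h2, ?_⟩
  show Affine.Point.some (f x) (f y) _ = _
  congr 1
  · rw [ofHom_r]
  · rw [ofHom_r]

/-- the reduction map is unique -/
theorem isRed_unique {v : Place K k} {a b : ℤ} {red red' : Pt (a : K) (b : K) → Pt (a : k) (b : k)}
    (h : IsRed v a b red) (h' : IsRed v a b red') : red = red' := by
  funext P
  rcases P with _ | ⟨x, y, hP⟩
  · exact h.1.trans h'.1.symm
  · by_cases hx : x ∈ v.A
    · obtain ⟨_, g, hg⟩ := h.2.2 x y hP hx
      obtain ⟨_, g', hg'⟩ := h'.2.2 x y hP hx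
      rw [hg, hg']
    · rw [h.2.1 x y hP hx, h'.2.1 x y hP hx]

/-- the reduction map is a homomorphism -/
theorem isRed_add [DecidableEq K] [DecidableEq k] {v : Place K k} {a b : ℤ}
    (hd : Disc (a : k) (b : k)) {red : Pt (a : K) (b : K) → Pt (a : k) (b : k)}
    (h : IsRed v a b red) (P Q : Pt (a : K) (b : K)) : red (P + Q) = red P + red Q := by
  obtain ⟨red', h'⟩ := t_R6 t_R1 t_R2 t_R3 t_R4 t_R5 K k v a b hd
  rw [isRed_unique h h', map_add]

theorem mp_add [DecidableEq K] [DecidableEq k] (f : K →+* k) {a b : ℤ}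
    (hd : Disc (a : k) (b : k)) (P Q : Pt (a : K) (b : K)) : mp f (P + Q) = mp f P + mp f Q :=
  isRed_add hd (isRed_mp f a b) P Q

theorem mp_inj (f : K →+* k) {a b : ℤ} :
    Function.Injective (mp f : Pt (a : K) (b : K) → Pt (a : k) (b : k)) := by
  intro P Q h
  rcases P with _ | ⟨x, y, hP⟩ <;> rcases Q with _ | ⟨x', y', hQ⟩
  · rfl
  · exact absurd h (by simp [mp])
  · exact absurd h (by simp [mp])
  · simp only [mp, Affine.Point.some.injEq] at h
    obtain ⟨h1, h2⟩ := h
    have h3 := f.injective h1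
    have h4 := f.injective h2
    subst h3 h4
    rfl

/-- composition of the reduction with a homomorphism -/
theorem isRed_post {v : Place K k} {a b : ℤ} {red : Pt (a : K) (b : K) → Pt (a : k) (b : k)}
    (h : IsRed v a b red) (f : k →+* k') : IsRed (Place.post v f) a b (fun P => mp f (red P)) := by
  refine ⟨?_, fun x y hP hx => ?_, fun x y hP hx => ?_⟩
  · simp only [h.1]
    rfl
  · simp only [h.2.1 x y hP hx]
    rfl
  · obtain ⟨hy, g, hg⟩ := h.2.2 x y hP hx
    refine ⟨hy, ?_⟩
    have h1 : (CV (a : k') (b : k')) = (CV (a : k) (b : k)).map f := by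
      simp [CV, WeierstrassCurve.map]
    have h2 : (CV (a : k') b).toAffine.Nonsingular (f (v.r x)) (f (v.r y)) := by
      rw [h1]
      exact (WeierstrassCurve.Affine.map_nonsingular _ f.injective _ _).2 g
    refine ⟨by rw [post_r, post_r]; exact h2, ?_⟩
    simp only [hg]
    show Affine.Point.some (f (v.r x)) (f (v.r y)) _ = _
    congr 1
    · rw [post_r]
    · rw [post_r]

/-- composition of a homomorphism with the reduction -/
theorem isRed_pre {K' : Type} [Field K'] {v : Place K' k} {a b : ℤ}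
    {red : Pt (a : K') (b : K') → Pt (a : k) (b : k)}
    (h : IsRed v a b red) (f : K →+* K') :
    IsRed (Place.pre v f) a b (fun P : Pt (a : K) (b : K) => red (mp f P)) := by
  refine ⟨h.1, fun x y hP hx => ?_, fun x y hP hx => ?_⟩
  · exact h.2.1 (f x) (f y) _ hx
  · have h1 : (CV (a : K') (b : K')) = (CV (a : K) (b : K)).map f := by
      simp [CV, WeierstrassCurve.map]
    have h2 : (CV (a : K') b).toAffine.Nonsingular (f x) (f y) := by
      rw [h1]
      exact (WeierstrassCurve.Affine.map_nonsingular _ f.injective _ _).2 hP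
    obtain ⟨hy, g, hg⟩ := h.2.2 (f x) (f y) h2 hx
    refine ⟨hy, by rw [pre_r, pre_r]; exact g, ?_⟩
    show red (Affine.Point.some (f x) (f y) _) = _
    rw [hg]
    congr 1

end

end Pool.Agent.N89.BD
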