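import Pool.Agent.N89.BD.Pts

/-! Project BD (helper89): the number of the points of `𝒯` fixed by a power of the Frobenius map and
with given trace. -/

set_option autoImplicit false

namespace Pool.Agent.N89.BD

open MvPolynomial NumberField Pool.Agent.H901R3.MS Pool.Agent.W659 Pool.Agent.W659.SA
  Pool.Agent.N89.GS WeierstrassCurve

theorem onB_rep {Ω : Type} [Field Ω] {r s m : ℕ} {a b : Fin r → ℤ} (x : XT Ω a b s m) :
    OnB a b (fun i => rep (x.1 i)) (fun l => (x.2.1 l : Ω)) :=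
  ⟨fun _ => FD.onE_rep _, fun l => (x.2.1 l).ne_zero⟩

/-- the points of a fibre over a finite field -/
theorem fibre_cnt {O k Ω : Type} [CommRing O] [Field k] [Fintype k] [Field Ω] [Algebra k Ω]
    (φ : O →+* k) {r s m q : ℕ} {a b : Fin r → ℤ} (G : Fin q → Pol O r s m) (fG : Fin q → ℕ)
    (hfG : ∀ e, THomog (G e) (fG e)) {D κ t : ℕ} (ht : 1 ≤ t)
    (hD : ∀ (E : Type) [Field E] [Fintype E] (ψ : O →+* E) (j : E →+* Ω),
      j.comp ψ = (algebraMap k Ω).comp φ → ∀ (V : Fin r → Fin 3 → E) (u : Fin s → E),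
      OnB a b V u → Nat.card {T : Fin m → E // ∀ e, vl ψ (G e) V u T = 0} ≤
        D * Fintype.card E ^ (κ + 1))
    (P : ∀ i, Pt (a i : Ω) (b i : Ω)) (u : Fin s → Ωˣ) (hP : ∀ i, (mp (Fr k Ω))^[t] (P i) = P i)
    (hu : ∀ l, (Fr k Ω)^[t] (u l : Ω) = u l) :
    {T : Fin m → Ω | OnX ((algebraMap k Ω).comp φ) G ((P, u, T) : XT Ω a b s m) ∧
      ∀ j, (Fr k Ω)^[t] (T j) = T j}.Finite ∧
    {T : Fin m → Ω | OnX ((algebraMap k Ω).comp φ) G ((P, u, T) : XT Ω a b s m) ∧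
      ∀ j, (Fr k Ω)^[t] (T j) = T j}.ncard ≤ 2 * D * (Fintype.card k ^ t) ^ κ := by
  classical
  obtain ⟨hfin, hcard⟩ := Fx_finite (k := k) (Ω := Ω) ht
  set E := Fx k Ω t with hE
  have : Fintype E := Fintype.ofFinite _
  rw [Nat.card_eq_fintype_card] at hcard
  let j : E →+* Ω := E.subtype
  have hj : ∀ x : Ω, (Fr k Ω)^[t] x = x → ∃ y : E, j y = x := fun x hx => ⟨⟨x, mem_Fx.2 hx⟩, rfl⟩
  have hkE : ∀ x : k, algebraMap k Ω x ∈ E := by
    intro x
    rw [hE, mem_Fx, Fr_iter, ← map_pow, FiniteField.pow_card_pow]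
  let ψ : O →+* E := ((algebraMap k Ω).codRestrict E hkE).comp φ
  have hψ : j.comp ψ = (algebraMap k Ω).comp φ := by
    ext x
    rfl
  -- the coordinates of the base point
  have hrep : ∀ i jj, (Fr k Ω)^[t] (rep (P i) jj) = rep (P i) jj := by
    intro i jj
    have h1 : ∀ (n : ℕ) (Q : Pt (a i : Ω) (b i : Ω)), rep ((mp (Fr k Ω))^[n] Q) =
        fun jj => (Fr k Ω)^[n] (rep Q jj) := by
      intro n
      induction n with
      | zero => intro Q; rfl
      | succ n ih =>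
        intro Q
        simp only [Function.iterate_succ', Function.comp_apply]
        rw [rep_mp, ih]
    have h2 := congrFun (h1 t (P i)) jj
    rw [hP i] at h2
    exact h2.symm
  choose V hV using fun i jj => hj _ (hrep i jj)
  choose u' hu' using fun l => hj _ (hu l)
  have hOn : OnB a b V u' := by
    refine ⟨fun i => onE_of_map j ?_, fun l h0 => ?_⟩
    · simp only [hV]
      exact FD.onE_rep _
    · have h1 := hu' l
      rw [h0, map_zero] at h1
      exact (u l).ne_zero h1.symm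
  have h1 := cnt_nrm ψ G fG hfG V u' (hD E ψ j hψ V u' hOn)
  have hset : {T : Fin m → Ω | OnX ((algebraMap k Ω).comp φ) G ((P, u, T) : XT Ω a b s m) ∧
      ∀ j, (Fr k Ω)^[t] (T j) = T j} ⊆ (fun T : Fin m → E => fun i => j (T i)) ''
        {T : Fin m → E | Nrm T ∧ ∀ e, vl ψ (G e) V u' T = 0} := by
    rintro T ⟨⟨hN, hG⟩, hT⟩
    choose T' hT' using fun i => hj _ (hT i)
    refine ⟨T', ⟨?_, fun e => ?_⟩, funext hT'⟩
    · apply Nrm.of_map j
      have h2 : (fun i => j (T' i)) = T := funext hT'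
      rw [h2]
      exact hN
    · apply j.injective
      rw [map_zero, vl_map, hψ, ← hG e]
      unfold vx
      congr 1
      · funext i jj
        exact hV i jj
      · funext l
        exact hu' l
      · funext i
        exact hT' i
  have hfin2 : ((fun T : Fin m → E => fun i => j (T i)) ''
        {T : Fin m → E | Nrm T ∧ ∀ e, vl ψ (G e) V u' T = 0}).Finite := Set.toFinite _
  refine ⟨hfin2.subset hset, (Set.ncard_le_ncard hset hfin2).trans ?_⟩
  refine (Set.ncard_image_le (Set.toFinite _)).trans (h1.trans ?_)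
  exact Nat.mul_le_mul_left _ (Nat.pow_le_pow_left hcard κ)

/-- counting over the base -/
theorem base_cnt {Ω : Type} [Field Ω] {r s m : ℕ} {a b : Fin r → ℤ} (S : Set (XT Ω a b s m))
    (A : ∀ i, Set (Pt (a i : Ω) (b i : Ω))) (hA : ∀ i, (A i).Finite) (B : Fin s → Set Ωˣ)
    (hB : ∀ l, (B l).Finite) (hS : ∀ x ∈ S, (∀ i, x.1 i ∈ A i) ∧ ∀ l, x.2.1 l ∈ B l) (D : ℕ)
    (hD : ∀ (P : ∀ i, Pt (a i : Ω) (b i : Ω)) (u : Fin s → Ωˣ), (∀ i, P i ∈ A i) →
      (∀ l, u l ∈ B l) → {T : Fin m → Ω | ((P, u, T) : XT Ω a b s m) ∈ S}.Finite ∧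
        {T : Fin m → Ω | ((P, u, T) : XT Ω a b s m) ∈ S}.ncard ≤ D) :
    S.Finite ∧ S.ncard ≤ (∏ i, (A i).ncard) * (∏ l, (B l).ncard) * D := by
  classical
  set 𝓐 : Finset (∀ i, Pt (a i : Ω) (b i : Ω)) := Fintype.piFinset fun i => (hA i).toFinset
    with h𝓐
  set 𝓑 : Finset (Fin s → Ωˣ) := Fintype.piFinset fun l => (hB l).toFinset with h𝓑
  have hmA : ∀ P, P ∈ 𝓐 ↔ ∀ i, P i ∈ A i := by
    intro P
    rw [h𝓐, Fintype.mem_piFinset]
    simp
  have hmB : ∀ u, u ∈ 𝓑 ↔ ∀ l, u l ∈ B l := by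
    intro u
    rw [h𝓑, Fintype.mem_piFinset]
    simp
  have hcA : 𝓐.card = ∏ i, (A i).ncard := by
    rw [h𝓐, Fintype.card_piFinset]
    exact Finset.prod_congr rfl fun i _ => (Set.ncard_eq_toFinset_card _ (hA i)).symm
  have hcB : 𝓑.card = ∏ l, (B l).ncard := by
    rw [h𝓑, Fintype.card_piFinset]
    exact Finset.prod_congr rfl fun l _ => (Set.ncard_eq_toFinset_card _ (hB l)).symm
  have hsub : S ⊆ ⋃ β ∈ 𝓐 ×ˢ 𝓑, (fun T : Fin m → Ω => ((β.1, β.2, T) : XT Ω a b s m)) ''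
      {T : Fin m → Ω | ((β.1, β.2, T) : XT Ω a b s m) ∈ S} := by
    rintro ⟨P, u, T⟩ hx
    obtain ⟨h1, h2⟩ := hS _ hx
    rw [Set.mem_iUnion₂]
    refine ⟨(P, u), ?_, T, hx, rfl⟩
    rw [Finset.mem_product, hmA, hmB]
    exact ⟨h1, h2⟩
  have hfin : (⋃ β ∈ 𝓐 ×ˢ 𝓑, (fun T : Fin m → Ω => ((β.1, β.2, T) : XT Ω a b s m)) ''
      {T : Fin m → Ω | ((β.1, β.2, T) : XT Ω a b s m) ∈ S}).Finite := by
    apply Set.Finite.biUnion (𝓐 ×ˢ 𝓑).finite_toSet
    intro β hβ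
    rw [Finset.mem_coe, Finset.mem_product, hmA, hmB] at hβ
    exact (hD β.1 β.2 hβ.1 hβ.2).1.image _
  refine ⟨hfin.subset hsub, (Set.ncard_le_ncard hsub hfin).trans ?_⟩
  refine (Finset.set_ncard_biUnion_le _ _).trans ?_
  rw [← hcA, ← hcB, ← Finset.card_product, ← smul_eq_mul]
  apply Finset.sum_le_card_nsmul
  intro β hβ
  rw [Finset.mem_product, hmA, hmB] at hβ
  exact (Set.ncard_image_le (hD β.1 β.2 hβ.1 hβ.2).1).trans (hD β.1 β.2 hβ.1 hβ.2).2

theorem geom_le {Q t : ℕ} (hQ : 2 ≤ Q) (ht : 1 ≤ t) :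
    (∑ i ∈ Finset.range t, Q ^ i) * Q ≤ 2 * Q ^ t := by
  have h1 : ∀ t, ∑ i ∈ Finset.range t, Q ^ i < Q ^ t + 0 := by
    intro t
    induction t with
    | zero => simp
    | succ t ih =>
      rw [Finset.sum_range_succ, pow_succ]
      have h3 := Nat.mul_le_mul_left (Q ^ t) hQ
      omega
  obtain ⟨t, rfl⟩ : ∃ t', t = t' + 1 := ⟨t - 1, by omega⟩
  have h2 := h1 t
  rw [Finset.sum_range_succ, pow_succ]
  have h3 : ∑ i ∈ Finset.range t, Q ^ i + Q ^ t ≤ 2 * Q ^ t := by omega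
  calc (∑ i ∈ Finset.range t, Q ^ i + Q ^ t) * Q ≤ 2 * Q ^ t * Q := Nat.mul_le_mul_right _ h3
    _ = 2 * (Q ^ t * Q) := by ring

/-- the torus part -/
theorem torus_cnt {k Ω : Type} [Field k] [Fintype k] [Field Ω] [Algebra k Ω] {t : ℕ}
    (ht : 1 ≤ t) : {u : Ωˣ | (Units.map (Fr k Ω : Ω →* Ω))^[t] u = u}.Finite ∧
    {u : Ωˣ | (Units.map (Fr k Ω : Ω →* Ω))^[t] u = u}.ncard ≤ Fintype.card k ^ t ∧
    ∀ (n : ℕ), 1 ≤ n → ∀ v : Additive Ωˣ,
    {u : Ωˣ | (Units.map (Fr k Ω : Ω →* Ω))^[t] u = u ∧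
      n • ∑ i ∈ Finset.range t, Additive.ofMul ((Units.map (Fr k Ω : Ω →* Ω))^[i] u) = v}.ncard *
      Fintype.card k ≤ 2 * n * Fintype.card k ^ t := by
  classical
  have hit : ∀ (i : ℕ) (u : Ωˣ), (((Units.map (Fr k Ω : Ω →* Ω))^[i] u : Ωˣ) : Ω) =
      (u : Ω) ^ Fintype.card k ^ i := by
    intro i u
    induction i with
    | zero => simp
    | succ i ih =>
      rw [Function.iterate_succ', Function.comp_apply, Units.coe_map]
      show Fr k Ω _ = _
      rw [ih, Fr_apply, ← pow_mul, pow_succ]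
  have hit2 : ∀ (i : ℕ) (u : Ωˣ), (Units.map (Fr k Ω : Ω →* Ω))^[i] u = u ^ Fintype.card k ^ i := by
    intro i u
    apply Units.ext
    rw [hit, Units.val_pow_eq_pow_val]
  obtain ⟨hfin, hcard⟩ := Fx_finite (k := k) (Ω := Ω) ht
  have hinj : Set.InjOn (fun u : Ωˣ => (u : Ω))
      {u : Ωˣ | (Units.map (Fr k Ω : Ω →* Ω))^[t] u = u} := fun u _ v _ h => Units.ext h
  have hmaps : Set.MapsTo (fun u : Ωˣ => (u : Ω))
      {u : Ωˣ | (Units.map (Fr k Ω : Ω →* Ω))^[t] u = u} (Fx k Ω t : Set Ω) := by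
    intro u hu
    show (u : Ω) ∈ Fx k Ω t
    rw [mem_Fx, Fr_iter, ← hit]
    exact congrArg (fun v : Ωˣ => (v : Ω)) hu
  have hfinE : (Fx k Ω t : Set Ω).Finite := Set.toFinite _
  have hf1 : {u : Ωˣ | (Units.map (Fr k Ω : Ω →* Ω))^[t] u = u}.Finite :=
    Set.Finite.of_injOn hmaps hinj hfinE
  refine ⟨hf1, ?_, ?_⟩
  · have h2 := Set.ncard_le_ncard_of_injOn (fun u : Ωˣ => (u : Ω)) hmaps hinj hfinE
    exact h2.trans hcard
  · intro n hn v
    set N := ∑ i ∈ Finset.range t, Fintype.card k ^ i with hN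
    have hQ : 2 ≤ Fintype.card k := Fintype.one_lt_card
    have hN1 : 1 ≤ N := by
      have h3 : Fintype.card k ^ 0 ≤ N := Finset.single_le_sum
        (f := fun i => Fintype.card k ^ i) (fun _ _ => Nat.zero_le _)
        (Finset.mem_range.2 (show 0 < t by omega))
      simpa using h3
    have hsub : Set.MapsTo (fun u : Ωˣ => (u : Ω))
        {u : Ωˣ | (Units.map (Fr k Ω : Ω →* Ω))^[t] u = u ∧
        n • ∑ i ∈ Finset.range t, Additive.ofMul ((Units.map (Fr k Ω : Ω →* Ω))^[i] u) = v}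
        ((Polynomial.nthRoots (N * n) ((v.toMul : Ωˣ) : Ω)).toFinset : Set Ω) := by
      rintro u ⟨_, hu⟩
      rw [Finset.mem_coe, Multiset.mem_toFinset, Polynomial.mem_nthRoots (by positivity)]
      have h4 : (u ^ N) ^ n = v.toMul := by
        rw [← hu, toMul_nsmul, toMul_sum]
        congr 1
        rw [hN, ← Finset.prod_pow_eq_pow_sum]
        exact Finset.prod_congr rfl fun i _ => (hit2 i u).symm
      rw [pow_mul, ← h4]
      push_cast
      rfl
    have h5 := Set.ncard_le_ncard_of_injOn (fun u : Ωˣ => (u : Ω)) hsub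
      (fun u _ v _ h => Units.ext h) (Finset.finite_toSet _)
    rw [Set.ncard_coe_finset] at h5
    have h6 : (Polynomial.nthRoots (N * n) ((v.toMul : Ωˣ) : Ω)).toFinset.card ≤ N * n :=
      (Multiset.toFinset_card_le _).trans (Polynomial.card_nthRoots _ _)
    have h7 := geom_le hQ ht
    rw [← hN] at h7
    calc _ ≤ N * n * Fintype.card k := Nat.mul_le_mul_right _ (h5.trans h6)
      _ = n * (N * Fintype.card k) := by ring
      _ ≤ n * (2 * Fintype.card k ^ t) := Nat.mul_le_mul_left _ h7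
      _ = _ := by ring

end Pool.Agent.N89.BD
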