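import Pool.Agent.N89.BD.Cnt

/-! Project BD (helper89): the number of the points of `𝒯` fixed by a power of the Frobenius map and
with given trace: the theorem. -/

set_option autoImplicit false

namespace Pool.Agent.N89.BD

open MvPolynomial NumberField Pool.Agent.H901R3.MS Pool.Agent.W659 Pool.Agent.W659.SA
  Pool.Agent.N89.GS WeierstrassCurve

theorem charP_ext {k E Ω : Type} [Field k] [Field E] [Field Ω] [Algebra k Ω] (j : E →+* Ω) (p : ℕ)
    [CharP k p] : CharP E p := by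
  have h1 : CharP Ω p := charP_of_injective_algebraMap (algebraMap k Ω).injective p
  exact (RingHom.charP_iff j j.injective p).2 h1

/-- the counting hypotheses of `S_CZ` -/
theorem cntX (hTRC : S_TRC) (hFIB : S_FIB) (K : Type) [Field K] [NumberField K] (r s m q κ : ℕ)
    (a b : Fin r → ℤ) (hab : ∀ i, a i * b i = 0 ∧ (a i ≠ 0 ∨ b i ≠ 0))
    (G : Fin q → Pol (𝓞 K) r s m) (fG : Fin q → ℕ) (hfG : ∀ e, THomog (G e) (fG e)) (σ : K →+* ℂ)
    (hdim : DimLE σ a b G κ) (B : ℕ) :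
    ∃ A p₀ : ℕ, ∀ p : ℕ, p.Prime → p₀ ≤ p → 12 ∣ p + 1 → ∀ (k : Type) [Field k] [Fintype k],
      (Fintype.card k = p ∨ Fintype.card k = p ^ 2) → ∀ φ : 𝓞 K →+* k,
      ∀ (Ω : Type) [Field Ω] [Algebra k Ω] [DecidableEq Ω],
      (∀ t, 1 ≤ t → t ≤ B → {x : XG ((algebraMap k Ω).comp φ) a b G |
        (FG _ (Fr k Ω) (Fr_comp φ))^[t] x = x}.Finite ∧
        {x : XG ((algebraMap k Ω).comp φ) a b G |
          (FG _ (Fr k Ω) (Fr_comp φ))^[t] x = x}.ncard ≤ A * Fintype.card k ^ ((r + s + κ) * t)) ∧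
      ∀ t n, 1 ≤ t → t ≤ B → 1 ≤ n → n ≤ B → ∀ v : Gr Ω a b s,
        {x : XG ((algebraMap k Ω).comp φ) a b G | (FG _ (Fr k Ω) (Fr_comp φ))^[t] x = x ∧
          n • ∑ i ∈ Finset.range t, ptG _ ((FG _ (Fr k Ω) (Fr_comp φ))^[i] x) = v}.ncard *
          Fintype.card k ^ (r + s) ≤ A * Fintype.card k ^ ((r + s + κ) * t) := by
  classical
  have hdisc : ∀ i, 4 * a i ^ 3 + 27 * b i ^ 2 ≠ 0 := by
    intro i h
    obtain ⟨h1, h2⟩ := hab i
    rcases mul_eq_zero.1 h1 with h3 | h3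
    · rw [h3] at h h2
      have h4 : (b i) ^ 2 = 0 := by linarith
      rcases h2 with h2 | h2
      · exact h2 rfl
      · exact h2 (pow_eq_zero_iff two_ne_zero |>.1 h4)
    · rw [h3] at h h2
      have h4 : (a i) ^ 3 = 0 := by linarith
      rcases h2 with h2 | h2
      · exact h2 (pow_eq_zero_iff three_ne_zero |>.1 h4)
      · exact h2 rfl
  choose C p₁ hC using fun i => hTRC (a i) (b i) (hab i).1 (hdisc i) B
  obtain ⟨D, p₂, hD⟩ := hFIB K r s m q κ a b G fG hfG σ hdim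
  refine ⟨(∏ i, (C i + 1)) * (2 * B + 1) ^ s * (2 * D), ∑ i, p₁ i + p₂, ?_⟩
  intro p hpp hp h12 k _ _ hcard φ Ω _ _ _
  haveI : CharP k p := charP_of_card hpp hcard
  set Q := Fintype.card k with hQ
  set ψ : 𝓞 K →+* Ω := (algebraMap k Ω).comp φ with hψ
  have hQ1 : 2 ≤ Q := Fintype.one_lt_card
  have hD' : ∀ (E : Type) [Field E] [Fintype E] (ψ : 𝓞 K →+* E) (j : E →+* Ω),
      j.comp ψ = (algebraMap k Ω).comp φ → ∀ (V : Fin r → Fin 3 → E) (u : Fin s → E),
      OnB a b V u → Nat.card {T : Fin m → E // ∀ e, vl ψ (G e) V u T = 0} ≤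
        D * Fintype.card E ^ (κ + 1) := by
    intro E _ _ ψ' j _ V u hV
    haveI : CharP E p := charP_ext (k := k) j p
    exact hD p hpp (by omega) E ψ' V u hV
  have hfix : ∀ (t : ℕ) (x : XG ψ a b G), (FG ψ (Fr k Ω) (Fr_comp φ))^[t] x = x →
      (∀ i, (mp (Fr k Ω))^[t] (x.1.1 i) = x.1.1 i) ∧
      (∀ l, (Units.map (Fr k Ω : Ω →* Ω))^[t] (x.1.2.1 l) = x.1.2.1 l) ∧
      ∀ j, (Fr k Ω)^[t] (x.1.2.2 j) = x.1.2.2 j := by
    intro t x hx
    have h1 := congrArg Subtype.val hx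
    rw [FG_iter, FX_iter] at h1
    have h2 := congrArg Prod.fst h1
    have h3 := congrArg (fun z : XT Ω a b s m => z.2.1) h1
    have h4 := congrArg (fun z : XT Ω a b s m => z.2.2) h1
    exact ⟨fun i => congrFun h2 i, fun l => congrFun h3 l, fun j => congrFun h4 j⟩
  have hTR : ∀ i t n, 1 ≤ t → t ≤ B → 1 ≤ n → n ≤ B → ∀ v : Pt (a i : Ω) (b i : Ω),
      {P : Pt (a i : Ω) (b i : Ω) | (mp (Fr k Ω))^[t] P = P}.Finite ∧
      {P : Pt (a i : Ω) (b i : Ω) | (mp (Fr k Ω))^[t] P = P}.ncard ≤ C i * Q ^ t ∧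
      {P : Pt (a i : Ω) (b i : Ω) | (mp (Fr k Ω))^[t] P = P ∧
        n • ∑ j ∈ Finset.range t, (mp (Fr k Ω))^[j] P = v}.ncard * Q ≤ C i * Q ^ t := by
    intro i t n ht1 ht2 hn1 hn2 v
    exact hC i p hpp (by
      have := Finset.single_le_sum (f := p₁) (fun _ _ => Nat.zero_le _) (Finset.mem_univ i)
      omega) h12 k hcard Ω t n ht1 ht2 hn1 hn2 v
  -- the two counts in a common form
  have key : ∀ (t : ℕ), 1 ≤ t → t ≤ B → ∀ (S : Set (XG ψ a b G))
      (A' : ∀ i, Set (Pt (a i : Ω) (b i : Ω))) (B' : Fin s → Set Ωˣ),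
      (∀ i, ∀ P ∈ A' i, (mp (Fr k Ω))^[t] P = P) →
      (∀ l, ∀ u ∈ B' l, (Units.map (Fr k Ω : Ω →* Ω))^[t] u = u) →
      (∀ x ∈ S, (FG ψ (Fr k Ω) (Fr_comp φ))^[t] x = x ∧ (∀ i, x.1.1 i ∈ A' i) ∧
        ∀ l, x.1.2.1 l ∈ B' l) →
      S.Finite ∧ S.ncard ≤ (∏ i, (A' i).ncard) * (∏ l, (B' l).ncard) *
        (2 * D * (Q ^ t) ^ κ) := by
    intro t ht1 ht2 S A' B' hA' hB' hS
    have h1 := base_cnt (Subtype.val '' S : Set (XT Ω a b s m)) A' (fun i =>
      (hTR i t 1 ht1 ht2 le_rfl (ht1.trans ht2) 0).1.subset (hA' i)) B'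
      (fun l => (torus_cnt ht1).1.subset (hB' l)) (by
        rintro _ ⟨x, hx, rfl⟩
        exact (hS x hx).2) (2 * D * (Q ^ t) ^ κ) (by
        intro P u hP hu
        have h2 := fibre_cnt φ G fG hfG ht1 hD' P u (fun i => hA' i _ (hP i)) (fun l => by
          have h3 := congrArg (fun z : Ωˣ => (z : Ω)) (hB' l _ (hu l))
          have h4 : ∀ (n : ℕ) (z : Ωˣ), (((Units.map (Fr k Ω : Ω →* Ω))^[n] z : Ωˣ) : Ω) =
              (Fr k Ω)^[n] (z : Ω) := by
            intro n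
            induction n with
            | zero => intro z; rfl
            | succ n ih =>
              intro z
              simp only [Function.iterate_succ', Function.comp_apply]
              rw [Units.coe_map, ← ih]
              rfl
          simp only [h4] at h3
          exact h3)
        have hsub : {T : Fin m → Ω | ((P, u, T) : XT Ω a b s m) ∈
            (Subtype.val '' S : Set (XT Ω a b s m))} ⊆
            {T : Fin m → Ω | OnX ψ G ((P, u, T) : XT Ω a b s m) ∧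
              ∀ j, (Fr k Ω)^[t] (T j) = T j} := by
          rintro T ⟨x, hx, hxT⟩
          refine ⟨by rw [← hxT]; exact x.2, fun j => ?_⟩
          have h5 := (hfix t x (hS x hx).1).2.2 j
          rw [hxT] at h5
          exact h5
        exact ⟨h2.1.subset hsub, (Set.ncard_le_ncard hsub h2.1).trans h2.2⟩)
    have hfin : S.Finite := Set.Finite.of_finite_image h1.1 Subtype.val_injective.injOn
    refine ⟨hfin, ?_⟩
    rw [← Set.ncard_image_of_injective S Subtype.val_injective]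
    exact h1.2
  have hconst : ∀ t, (∏ i, (C i * Q ^ t)) * (∏ _l : Fin s, (2 * B * Q ^ t)) *
      (2 * D * (Q ^ t) ^ κ) ≤ (∏ i, (C i + 1)) * (2 * B + 1) ^ s * (2 * D) *
        Q ^ ((r + s + κ) * t) := by
    intro t
    rw [Finset.prod_mul_distrib, Finset.prod_const, Finset.prod_const, Finset.card_univ,
      Finset.card_univ, Fintype.card_fin, Fintype.card_fin, mul_pow]
    have h1 : Q ^ ((r + s + κ) * t) = (Q ^ t) ^ r * (Q ^ t) ^ s * (Q ^ t) ^ κ := by
      rw [← pow_add, ← pow_add, ← pow_mul, mul_comm t]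
    rw [h1]
    have h2 : ∏ i, C i ≤ ∏ i, (C i + 1) := Finset.prod_le_prod' fun i _ => Nat.le_succ _
    have h3 : (2 * B) ^ s ≤ (2 * B + 1) ^ s := Nat.pow_le_pow_left (Nat.le_succ _) s
    calc (∏ i, C i) * (Q ^ t) ^ r * ((2 * B) ^ s * (Q ^ t) ^ s) * (2 * D * (Q ^ t) ^ κ)
        = ((∏ i, C i) * (2 * B) ^ s) * (2 * D * ((Q ^ t) ^ r * (Q ^ t) ^ s * (Q ^ t) ^ κ)) := by ring
      _ ≤ ((∏ i, (C i + 1)) * (2 * B + 1) ^ s) *
          (2 * D * ((Q ^ t) ^ r * (Q ^ t) ^ s * (Q ^ t) ^ κ)) :=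
          Nat.mul_le_mul_right _ (Nat.mul_le_mul h2 h3)
      _ = _ := by ring
  constructor
  · intro t ht1 ht2
    have h1 := key t ht1 ht2 {x | (FG ψ (Fr k Ω) (Fr_comp φ))^[t] x = x}
      (fun i => {P | (mp (Fr k Ω))^[t] P = P})
      (fun l => {u | (Units.map (Fr k Ω : Ω →* Ω))^[t] u = u}) (fun i P hP => hP)
      (fun l u hu => hu) (fun x hx => ⟨hx, (hfix t x hx).1, (hfix t x hx).2.1⟩)
    refine ⟨h1.1, h1.2.trans (le_trans ?_ (hconst t))⟩
    refine Nat.mul_le_mul_right _ (Nat.mul_le_mul ?_ ?_)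
    · exact Finset.prod_le_prod' fun i _ => (hTR i t 1 ht1 ht2 le_rfl (ht1.trans ht2) 0).2.1
    · refine Finset.prod_le_prod' fun l _ => ?_
      refine (torus_cnt ht1).2.1.trans ?_
      exact Nat.le_mul_of_pos_left _ (by omega)
  · intro t n ht1 ht2 hn1 hn2 v
    have hsum : ∀ x : XG ψ a b G, n • ∑ i ∈ Finset.range t,
        ptG _ ((FG ψ (Fr k Ω) (Fr_comp φ))^[i] x) = v →
        (∀ i, n • ∑ j ∈ Finset.range t, (mp (Fr k Ω))^[j] (x.1.1 i) = v.1 i) ∧
        ∀ l, n • ∑ j ∈ Finset.range t,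
          Additive.ofMul ((Units.map (Fr k Ω : Ω →* Ω))^[j] (x.1.2.1 l)) = v.2 l := by
      intro x hx
      have h2 : ∀ i, ptG _ ((FG ψ (Fr k Ω) (Fr_comp φ))^[i] x) =
          (((fun j => (mp (Fr k Ω))^[i] (x.1.1 j)),
            fun l => Additive.ofMul ((Units.map (Fr k Ω : Ω →* Ω))^[i] (x.1.2.1 l))) :
              Gr Ω a b s) := by
        intro i
        unfold ptG
        rw [FG_iter, FX_iter]
      simp only [h2] at hx
      constructor
      · intro i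
        have h3 := congrFun (congrArg Prod.fst hx) i
        rw [← h3]
        simp [Prod.fst_sum, Finset.sum_apply]
      · intro l
        have h3 := congrFun (congrArg Prod.snd hx) l
        rw [← h3]
        simp [Prod.snd_sum, Finset.sum_apply]
    have h1 := key t ht1 ht2 {x | (FG ψ (Fr k Ω) (Fr_comp φ))^[t] x = x ∧
        n • ∑ i ∈ Finset.range t, ptG _ ((FG ψ (Fr k Ω) (Fr_comp φ))^[i] x) = v}
      (fun i => {P | (mp (Fr k Ω))^[t] P = P ∧
        n • ∑ j ∈ Finset.range t, (mp (Fr k Ω))^[j] P = v.1 i})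
      (fun l => {u | (Units.map (Fr k Ω : Ω →* Ω))^[t] u = u ∧
        n • ∑ j ∈ Finset.range t, Additive.ofMul ((Units.map (Fr k Ω : Ω →* Ω))^[j] u) = v.2 l})
      (fun i P hP => hP.1) (fun l u hu => hu.1)
      (fun x hx => ⟨hx.1, fun i => ⟨(hfix t x hx.1).1 i, (hsum x hx.2).1 i⟩,
        fun l => ⟨(hfix t x hx.1).2.1 l, (hsum x hx.2).2 l⟩⟩)
    refine le_trans ?_ (hconst t)
    calc _ ≤ (∏ i, {P : Pt (a i : Ω) (b i : Ω) | (mp (Fr k Ω))^[t] P = P ∧
        n • ∑ j ∈ Finset.range t, (mp (Fr k Ω))^[j] P = v.1 i}.ncard) *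
        (∏ l, {u : Ωˣ | (Units.map (Fr k Ω : Ω →* Ω))^[t] u = u ∧
        n • ∑ j ∈ Finset.range t,
          Additive.ofMul ((Units.map (Fr k Ω : Ω →* Ω))^[j] u) = v.2 l}.ncard) *
        (2 * D * (Q ^ t) ^ κ) * Q ^ (r + s) := Nat.mul_le_mul_right _ h1.2
      _ = (∏ i, ({P : Pt (a i : Ω) (b i : Ω) | (mp (Fr k Ω))^[t] P = P ∧
        n • ∑ j ∈ Finset.range t, (mp (Fr k Ω))^[j] P = v.1 i}.ncard * Q)) *
        (∏ l, ({u : Ωˣ | (Units.map (Fr k Ω : Ω →* Ω))^[t] u = u ∧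
        n • ∑ j ∈ Finset.range t,
          Additive.ofMul ((Units.map (Fr k Ω : Ω →* Ω))^[j] u) = v.2 l}.ncard * Q)) *
        (2 * D * (Q ^ t) ^ κ) := by
          rw [Finset.prod_mul_distrib, Finset.prod_mul_distrib, Finset.prod_const,
            Finset.prod_const, Finset.card_univ, Finset.card_univ, Fintype.card_fin,
            Fintype.card_fin, pow_add]
          ring
      _ ≤ _ := by
          refine Nat.mul_le_mul_right _ (Nat.mul_le_mul ?_ ?_)
          · exact Finset.prod_le_prod' fun i _ => (hTR i t n ht1 ht2 hn1 hn2 _).2.2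
          · refine Finset.prod_le_prod' fun l _ => ?_
            refine ((torus_cnt ht1).2.2 n hn1 _).trans ?_
            exact Nat.mul_le_mul_right _ (Nat.mul_le_mul_left 2 hn2)

end Pool.Agent.N89.BD
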