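import Pool.Agent.N89.BD.Base
import Pool.Agent.N89.GS.Sieve2

/-! Project BD (helper89): the sieve engine. -/

set_option autoImplicit false

namespace Pool.Agent.N89.BD

open MvPolynomial NumberField Pool.Agent.H901R3.MS Pool.Agent.W659 Pool.Agent.W659.SA
  Pool.Agent.N89.GS WeierstrassCurve

/-- the asymptotic bound from the sieve inequality with given primes -/
theorem asym (L : Type) [Field L] [NumberField L] (J : Type) [Fintype J] (N : ℕ) (δ : ℝ)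
    (hδ0 : 0 < δ) (hδ1 : δ < 1) (p₀ R : ℕ) (Bd : ℕ → Set (J × Fin N → ℤ))
    (hSv : ∀ (T : Finset ℕ) (M : ℕ), GoodT L p₀ T M → ∀ H : ℕ, ∏ p ∈ T, p ≤ 2 * H + 1 →
      (((Bd H).ncard : ℕ) : ℝ) ≤ (2 * (2 * (H : ℝ) + 1)) ^ Fintype.card (J × Fin N) *
        ((M : ℝ) ^ R * (1 - δ) ^ T.card)) :
    ∃ c : ℝ, 0 < c ∧ ∃ H₀ : ℕ, ∀ H : ℕ, H₀ ≤ H →
    (((Bd H).ncard : ℕ) : ℝ) ≤ (2 * (H : ℝ) + 1) ^ (Fintype.card J * N) *
        Real.exp (-c * (Real.log H / Real.log (Real.log H))) := by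
  classical
  obtain ⟨n₁, hn₁⟩ := exists_pow_lt_of_lt_one (show (0 : ℝ) < 2 / 3 by norm_num)
    (show 1 - δ < 1 by linarith)
  obtain ⟨n₀, hn₀, hn₀'⟩ : ∃ n₀ : ℕ, 0 < n₀ ∧ (1 - δ) ^ n₀ ≤ 2 / 3 := by
    refine ⟨n₁ + 1, by omega, ?_⟩
    have h1 : (1 - δ) ^ (n₁ + 1) ≤ (1 - δ) ^ n₁ :=
      pow_le_pow_of_le_one (by linarith) (by linarith) (by omega)
    linarith
  have hn₀r : (0 : ℝ) < n₀ := by exact_mod_cast hn₀
  obtain ⟨M, _, _, hM1, hM3, hM⟩ := _root_.W580.FK.main L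
  obtain ⟨τ, hτ0, hτ1, κ', hκ', Y, hY⟩ := sp2 M True True (fun _ => hM1) (fun _ => hM3)
  obtain ⟨Y₂, hY₂⟩ := floor_step2 hτ0 hτ1
  obtain ⟨c, hc, H₀, hH3, hA⟩ := t_ASYK (Fintype.card (J × Fin N)) R (κ' / (4 * n₀)) ((τ + 1) / 2)
    (by positivity) (by linarith) (by linarith)
  set M' : ℕ := p₀ + 2 * n₀ + 2 with hM'
  set N' : ℕ := ⌈(4 * (M' : ℝ) / κ') ^ 2⌉₊ with hN'
  refine ⟨c, hc, max H₀ (4 ^ (max Y (max 3 (max N' Y₂)))), ?_⟩
  intro H hH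
  have hH0 : H₀ ≤ H := (le_max_left _ _).trans hH
  have hH1 : 4 ^ (max Y (max 3 (max N' Y₂))) ≤ H := (le_max_right _ _).trans hH
  have hy0 := W_Z1K.le_floor_of_pow hH1
  have hpow := W_Z1K.pow_le_of_floor H
  set y : ℕ := ⌊Real.log (2 * H + 1) / Real.log 4⌋₊ with hy
  have hyY : Y ≤ y := (le_max_left _ _).trans hy0
  have hy3 : 3 ≤ y := ((le_max_left _ _).trans (le_max_right _ _)).trans hy0
  have hyN : N' ≤ y := (((le_max_left _ _).trans (le_max_right _ _)).trans (le_max_right _ _)).trans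
    hy0
  have hyY2 : Y₂ ≤ y := (((le_max_right _ _).trans (le_max_right _ _)).trans
    (le_max_right _ _)).trans hy0
  set T : Finset ℕ := ((DegP M True True y \ RoughP τ y) \ RoughM τ y).filter (fun p => M' ≤ p)
    with hT
  have hmemT : ∀ p ∈ T, (1 ≤ p ∧ p ≤ y) ∧ (p.Prime ∧ CondP True True p ∧
      Nonempty (𝓞 M →+* ZMod p)) ∧
      (∀ q : ℕ, q.Prime → q ∣ p + 1 → q ≤ ⌊(y : ℝ) ^ τ⌋₊) ∧
      (∀ q : ℕ, q.Prime → q ∣ p - 1 → q ≤ ⌊(y : ℝ) ^ τ⌋₊) ∧ M' ≤ p := by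
    intro p hp
    rw [hT, Finset.mem_filter, Finset.mem_sdiff, Finset.mem_sdiff] at hp
    obtain ⟨⟨⟨h1, h3⟩, h4⟩, h2⟩ := hp
    unfold DegP at h1
    rw [Finset.mem_filter, Finset.mem_Icc] at h1
    refine ⟨h1.1, h1.2, ?_, ?_, h2⟩
    · intro q hq hqp
      by_contra hcon
      apply h3
      unfold RoughP
      rw [Finset.mem_filter, Finset.mem_Icc]
      exact ⟨h1.1, h1.2.1, q, hq, hqp, not_le.1 hcon⟩
    · intro q hq hqp
      by_contra hcon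
      apply h4
      unfold RoughM
      rw [Finset.mem_filter, Finset.mem_Icc]
      exact ⟨h1.1, h1.2.1, q, hq, hqp, not_le.1 hcon⟩
  -- cardinality
  have hcard : ((((DegP M True True y \ RoughP τ y) \ RoughM τ y)).card : ℝ) ≤
      (T.card : ℝ) + M' := by
    have h1 : ((DegP M True True y \ RoughP τ y) \ RoughM τ y) ⊆ T ∪ Finset.range M' := by
      intro p hp
      rw [Finset.mem_union]
      by_cases hpM : M' ≤ p
      · left
        rw [hT, Finset.mem_filter]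
        exact ⟨hp, hpM⟩
      · right
        rw [Finset.mem_range]
        omega
    have h2 := (Finset.card_le_card h1).trans (Finset.card_union_le _ _)
    rw [Finset.card_range] at h2
    exact_mod_cast h2
  have hκy := hY y hyY
  have hyr3 : (3 : ℝ) ≤ (y : ℝ) := by exact_mod_cast hy3
  have hMy : (M' : ℝ) ≤ κ' / 2 * (y / Real.log y) := by
    have h1 := W_Z1K.div_log_ge hyr3
    have h2 : 4 * (M' : ℝ) / κ' ≤ Real.sqrt y := by
      apply Real.le_sqrt_of_sq_le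
      have h3 : (4 * (M' : ℝ) / κ') ^ 2 ≤ (N' : ℝ) := Nat.le_ceil _
      have h4 : (N' : ℝ) ≤ (y : ℝ) := by exact_mod_cast hyN
      exact h3.trans h4
    have h5 : 4 * (M' : ℝ) ≤ Real.sqrt y * κ' := by
      rwa [div_le_iff₀ hκ'] at h2
    have h6 : κ' / 2 * (Real.sqrt y / 2) ≤ κ' / 2 * (y / Real.log y) :=
      mul_le_mul_of_nonneg_left h1 (by positivity)
    nlinarith
  have hTcard : κ' / 2 * (y / Real.log y) ≤ (T.card : ℝ) := by
    have h1 : κ' * (y / Real.log y) = κ' / 2 * (y / Real.log y) + κ' / 2 * (y / Real.log y) := by ring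
    linarith
  -- the integer L
  obtain ⟨L₁, hL1, hL2, hL3⟩ := t_LY y ⌊(y : ℝ) ^ τ⌋₊
  have hL2' : ((2 * L₁ ^ 2 : ℕ) : ℝ) ≤ ((y : ℝ) + 1) ^ ⌊(y : ℝ) ^ ((τ + 1) / 2)⌋₊ := by
    have h1 : (L₁ : ℝ) ≤ ((y : ℝ) + 1) ^ ⌊(y : ℝ) ^ τ⌋₊ := by exact_mod_cast hL2
    have h2 : ((y : ℝ) + 1) ^ (2 * ⌊(y : ℝ) ^ τ⌋₊ + 1) ≤
        ((y : ℝ) + 1) ^ ⌊(y : ℝ) ^ ((τ + 1) / 2)⌋₊ :=
      pow_le_pow_right₀ (by linarith) (hY₂ y hyY2)
    refine le_trans ?_ h2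
    rw [pow_succ ((y : ℝ) + 1), mul_comm 2 ⌊(y : ℝ) ^ τ⌋₊, pow_mul]
    push_cast
    have h3 : (0 : ℝ) ≤ (L₁ : ℝ) := by positivity
    have h4 := pow_le_pow_left₀ h3 h1 2
    have h5 : (0 : ℝ) ≤ (L₁ : ℝ) ^ 2 := by positivity
    nlinarith
  have hGT : GoodT L p₀ T (2 * L₁ ^ 2) := by
    refine ⟨by have := Nat.pow_pos (n := 2) hL1; omega, ?_⟩
    intro p hpT
    obtain ⟨h1, ⟨h2, h3, h6⟩, h4, h4', h5⟩ := hmemT p hpT
    haveI : Fact p.Prime := ⟨h2⟩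
    have h7 := h3.1 trivial
    have h8 := h3.2 trivial
    have h9 : p + 1 ∣ L₁ := hL3 (p + 1) (by omega) (by omega) h4
    have h10 : p - 1 ∣ L₁ := hL3 (p - 1) (by omega) (by omega) h4'
    refine ⟨h2, by omega, by omega, hM p h7 h6, ?_, ?_⟩
    · exact Nat.mul_dvd_mul_left 2 (h9.trans (dvd_pow_self _ two_ne_zero))
    · have h11 : p ^ 2 - 1 = (p + 1) * (p - 1) := by
        have := Nat.sq_sub_sq p 1
        simpa using this
      rw [h11, pow_two]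
      exact (mul_dvd_mul h9 h10).trans (dvd_mul_left _ _)
  have hprod : ∏ p ∈ T, p ≤ 2 * H + 1 := by
    have h1 : ∏ p ∈ T, p ≤ primorial y := by
      unfold primorial
      apply Finset.prod_le_prod_of_subset_of_one_le'
      · intro p hp
        obtain ⟨h1, h2, h3, h4⟩ := hmemT p hp
        rw [Finset.mem_filter, Finset.mem_range]
        exact ⟨by omega, h2.1⟩
      · intro p hp _
        exact (Finset.mem_filter.1 hp).2.one_lt.le
    exact (h1.trans (primorial_le_four_pow y)).trans hpow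
  have hfin := hSv T (2 * L₁ ^ 2) hGT H hprod
  have hTn : 2 * n₀ ≤ T.card := by
    have h1 : ((2 * n₀ : ℕ) : ℝ) ≤ T.card := by
      have h2 : ((2 * n₀ : ℕ) : ℝ) ≤ (M' : ℝ) := by
        have : 2 * n₀ ≤ M' := by omega
        exact_mod_cast this
      linarith
    exact_mod_cast h1
  have hTdiv : κ' / (4 * n₀) * (y / Real.log y) ≤ ((T.card / n₀ : ℕ) : ℝ) := by
    have h1 : T.card < n₀ * (T.card / n₀) + n₀ := by
      have := Nat.div_add_mod T.card n₀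
      have := Nat.mod_lt T.card hn₀
      omega
    have h2 : T.card ≤ 2 * n₀ * (T.card / n₀) := by
      have h3 : n₀ ≤ n₀ * (T.card / n₀) := by
        have h4 : 2 ≤ T.card / n₀ := (Nat.le_div_iff_mul_le hn₀).2 hTn
        exact Nat.le_mul_of_pos_right _ (by omega)
      have h5 : 2 * n₀ * (T.card / n₀) = n₀ * (T.card / n₀) + n₀ * (T.card / n₀) := by ring
      omega
    have h3 : (T.card : ℝ) ≤ 2 * n₀ * ((T.card / n₀ : ℕ) : ℝ) := by exact_mod_cast h2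
    have h4 : (0 : ℝ) < n₀ := by exact_mod_cast hn₀
    have h5 : κ' / (4 * n₀) * (y / Real.log y) = (κ' / 2 * (y / Real.log y)) / (2 * n₀) := by
      field_simp
      ring
    rw [h5, div_le_iff₀ (by positivity)]
    linarith
  have hfin1 : (2 * (2 * (H : ℝ) + 1)) ^ Fintype.card (J × Fin N) *
      (((2 * L₁ ^ 2 : ℕ) : ℝ) ^ R * (1 - δ) ^ T.card) ≤
      (2 * (2 * (H : ℝ) + 1)) ^ Fintype.card (J × Fin N) *
      (((2 * L₁ ^ 2 : ℕ) : ℝ) ^ R * (2 / 3) ^ (T.card / n₀)) := by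
    apply mul_le_mul_of_nonneg_left _ (by positivity)
    apply mul_le_mul_of_nonneg_left _ (by positivity)
    have h2 : (1 - δ) ^ T.card ≤ (1 - δ) ^ (n₀ * (T.card / n₀)) :=
      pow_le_pow_of_le_one (by linarith) (by linarith) (Nat.mul_div_le _ _)
    refine h2.trans ?_
    rw [pow_mul]
    exact pow_le_pow_left₀ (pow_nonneg (by linarith) _) hn₀' _
  have hfin2 := (hfin.trans hfin1).trans
    (hA H hH0 y (T.card / n₀) (2 * L₁ ^ 2) hy hTdiv hL2')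
  rwa [Fintype.card_prod, Fintype.card_fin] at hfin2

/-- the points of `E_1 × ⋯ × E_r × G_m^s` (torus coordinates in `Γ`) fall in at most `L ^ R` classes;
for good `p` all the points of a class have the same reduction at a place above `p` -/
theorem classesK (K : Type) [Field K] [NumberField K] (r s : ℕ) (a b : Fin r → ℤ)
    (hab : ∀ i, a i * b i = 0 ∧ (a i ≠ 0 ∨ b i ≠ 0)) (Γ : Subgroup Kˣ) (hΓ : Γ.FG) :
    ∃ p₀ R : ℕ, ∀ L : ℕ, 1 ≤ L → ∃ (Q : Type) (_ : Fintype Q), Fintype.card Q ≤ L ^ R ∧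
    ∃ (cls : (∀ i, Pt (a i : K) (b i : K)) → (Fin s → Kˣ) → Q)
      (rp : Q → ∀ i, Pt (a i : K) (b i : K)) (ru : Q → Fin s → Kˣ),
    ∀ p : ℕ, p.Prime → p₀ ≤ p → 12 ∣ p + 1 → 2 * (p + 1) ∣ L → p ^ 2 - 1 ∣ L →
    ∀ (k : Type) [Field k] [Fintype k] [DecidableEq k],
      (Fintype.card k = p ∨ Fintype.card k = p ^ 2) →
    ∀ w : Place K k, (∀ x : 𝓞 K, (x : K) ∈ w.A) →
    ∀ red : (∀ i, Pt (a i : K) (b i : K) → Pt (a i : k) (b i : k)),
      (∀ i, IsRed w (a i) (b i) (red i)) →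
    ∀ (P : ∀ i, Pt (a i : K) (b i : K)) (u : Fin s → Kˣ), (∀ l, u l ∈ Γ) →
      (∀ i, red i (P i) = red i (rp (cls P u) i)) ∧
      ∀ l, (u l : K) ∈ w.A ∧ w.r (u l : K) ≠ 0 ∧ w.r (u l : K) = w.r (ru (cls P u) l : K) := by
  classical
  have hdisc : ∀ i, 4 * a i ^ 3 + 27 * b i ^ 2 ≠ 0 := by
    intro i h
    obtain ⟨h1, h2⟩ := hab i
    rcases mul_eq_zero.1 h1 with h3 | h3
    · rw [h3] at h h2
      have h4 : (b i) ^ 2 = 0 := by linarith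
      rcases h2 with h2 | h2
      · exact h2 rfl
      · exact h2 (pow_eq_zero_iff two_ne_zero |>.1 h4)
    · rw [h3] at h h2
      have h4 : (a i) ^ 3 = 0 := by linarith
      rcases h2 with h2 | h2
      · exact h2 (pow_eq_zero_iff three_ne_zero |>.1 h4)
      · exact h2 rfl
  have hdK : ∀ i, Disc (a i : K) (b i : K) := fun i =>
    FD.disc_of two_ne_zero (by exact_mod_cast hdisc i)
  have h1 : ∀ i, ∃ R : ℕ, ∀ L : ℕ, 1 ≤ L → ∃ A : Finset (Pt (a i : K) (b i : K)),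
      A.card ≤ L ^ R ∧ ∀ g : Pt (a i : K) (b i : K), ∃ κ ∈ A, ∃ δ : Pt (a i : K) (b i : K),
        g = κ + L • δ := by
    intro i
    exact t_M2 _ (t_M1K K (a i) (b i) (hdK i))
  choose R hR using h1
  obtain ⟨R', hR'⟩ := classes_units t_M2 Γ hΓ
  obtain ⟨p₁, hp₁⟩ := Pool.Agent.W605.SA.UR.main K Γ hΓ
  refine ⟨p₁ + 5 + ∑ i, (4 * a i ^ 3 + 27 * b i ^ 2).natAbs + 1, ∑ i, R i + s * R', ?_⟩
  intro L hL
  have h2 : ∀ i, ∃ A : Finset (Pt (a i : K) (b i : K)),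
      A.card ≤ L ^ (R i) ∧ ∀ g : Pt (a i : K) (b i : K), ∃ κ ∈ A, ∃ δ : Pt (a i : K) (b i : K),
        g = κ + L • δ := fun i => hR i L hL
  choose A hAc hAr using h2
  obtain ⟨B, hBc, hBΓ, hBr⟩ := hR' L hL
  choose κ₀ hκ₀ δ₀ hδ₀ using hAr
  have hBr' : ∀ g : Kˣ, ∃ κ : B, g ∈ Γ → ∃ δ ∈ Γ, g = κ.1 * δ ^ L := by
    intro g
    by_cases hg : g ∈ Γ
    · obtain ⟨κ, hκ, δ, hδ, h⟩ := hBr g hg
      exact ⟨⟨κ, hκ⟩, fun _ => ⟨δ, hδ, h⟩⟩
    · obtain ⟨κ, hκ, _⟩ := hBr 1 Γ.one_mem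
      exact ⟨⟨κ, hκ⟩, fun h => absurd h hg⟩
  choose μ hμ using hBr'
  refine ⟨(∀ i, A i) × (Fin s → B), inferInstance, ?_,
    fun P u => (fun i => ⟨κ₀ i (P i), hκ₀ i (P i)⟩, fun l => μ (u l)),
    fun q i => (q.1 i).1, fun q l => (q.2 l).1, ?_⟩
  · rw [Fintype.card_prod, Fintype.card_pi, Fintype.card_fun, Fintype.card_fin, pow_add,
      ← Finset.prod_pow_eq_pow_sum]
    refine Nat.mul_le_mul ?_ ?_
    · refine Finset.prod_le_prod (fun _ _ => Nat.zero_le _) fun i _ => ?_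
      rw [Fintype.card_coe]
      exact hAc i
    · rw [Fintype.card_coe, mul_comm s R', pow_mul]
      exact Nat.pow_le_pow_left hBc s
  intro p hpp hp0 h12 hL1 hL2 k _ _ _ hcard w hw red hred
  haveI : Fact p.Prime := ⟨hpp⟩
  haveI : CharP k p := charP_of_card hpp hcard
  have hpd : ∀ i, ¬ (p : ℤ) ∣ 4 * a i ^ 3 + 27 * b i ^ 2 := by
    intro i h
    have h5 := Nat.le_of_dvd (Int.natAbs_pos.2 (hdisc i)) (Int.natCast_dvd.1 h)
    have h6 : (4 * a i ^ 3 + 27 * b i ^ 2).natAbs ≤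
        ∑ i, (4 * a i ^ 3 + 27 * b i ^ 2).natAbs :=
      Finset.single_le_sum (f := fun i => (4 * a i ^ 3 + 27 * b i ^ 2).natAbs)
        (fun _ _ => Nat.zero_le _) (Finset.mem_univ i)
    omega
  have h2k : (2 : k) ≠ 0 := by
    intro h
    have h5 : ((2 : ℕ) : k) = 0 := by exact_mod_cast h
    rw [CharP.cast_eq_zero_iff k p] at h5
    have := Nat.le_of_dvd (by norm_num) h5
    omega
  have hdk : ∀ i, Disc (a i : k) (b i : k) := fun i => FD.disc_of h2k (by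
    intro h
    exact hpd i ((CharP.intCast_eq_zero_iff k p _).1 h))
  have hkill : ∀ i, ∀ P : Pt (a i : k) (b i : k), (2 * (p + 1)) • P = 0 := fun i P =>
    Pool.Agent.W605.FK.main p (a i) (b i) (by omega) (hpd i)
      (Pool.Agent.H35R6.DCCNT.cnt p (a i) (b i) hpp h12 (hab i).1) k hcard P
  have hredL : ∀ i, ∀ κ δ : Pt (a i : K) (b i : K), red i (κ + L • δ) = red i κ := by
    intro i κ δ
    obtain ⟨red', hred'⟩ := t_R6 t_R1 t_R2 t_R3 t_R4 t_R5 K k w (a i) (b i) (hdk i)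
    rw [isRed_unique (hred i) hred']
    obtain ⟨m, hm⟩ := hL1
    rw [map_add, map_nsmul, hm, mul_comm, mul_smul, hkill i, smul_zero, add_zero]
  have hU : ∀ g ∈ Γ, (g : K) ∈ w.A ∧ w.r (g : K) ≠ 0 := fun g hg =>
    hp₁ p hpp (by omega) k w hw g hg
  have hUL : ∀ κ ∈ Γ, ∀ δ ∈ Γ, w.r ((κ * δ ^ L : Kˣ) : K) = w.r (κ : K) := by
    intro κ hκ δ hδ
    have h5 : ((κ * δ ^ L : Kˣ) : K) = (κ : K) * (δ : K) ^ L := by push_cast; rfl
    have h6 : ((δ : K) ^ L) ∈ w.A := w.A.pow_mem (hU δ hδ).1 L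
    rw [h5, w.r_mul (hU κ hκ).1 h6, w.r_pow (hU δ hδ).1]
    obtain ⟨m, hm⟩ := card_sub_one_dvd hcard hL2
    rw [hm, pow_mul, FiniteField.pow_card_sub_one_eq_one _ (hU δ hδ).2, one_pow, mul_one]
  intro P u hu
  refine ⟨fun i => ?_, fun l => ⟨(hU _ (hu l)).1, (hU _ (hu l)).2, ?_⟩⟩
  · conv_lhs => rw [hδ₀ i (P i)]
    exact hredL i _ _
  · obtain ⟨δ, hδ, h⟩ := hμ (u l) (hu l)
    conv_lhs => rw [h]
    exact hUL _ (hBΓ _ (μ (u l)).2) δ hδ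

/-- the sieve inequality with given primes, abstract form -/
theorem sieveE (K : Type) [Field K] [NumberField K] {r s : ℕ} (a b : Fin r → ℤ)
    (hab : ∀ i, a i * b i = 0 ∧ (a i ≠ 0 ∨ b i ≠ 0)) (Γ : Subgroup Kˣ) (hΓ : Γ.FG)
    (J : Type) [Fintype J] (N : ℕ) (ω : Module.Basis (Fin N) ℤ (𝓞 K)) (δ : ℝ) (hδ0 : 0 < δ)
    (hδ1 : δ < 1) (p₁ : ℕ)
    (BadP : (∀ i, Pt (a i : K) (b i : K)) → (Fin s → Kˣ) → Set (J × Fin N → ℤ))
    (hloc : ∀ p : ℕ, p.Prime → p₁ ≤ p → 12 ∣ p + 1 → ∀ (k : Type) [Field k] [Fintype k]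
      [DecidableEq k], (Fintype.card k = p ∨ Fintype.card k = p ^ 2) → ∀ φ : 𝓞 K →+* k,
      Function.Surjective φ → ∀ w : Place K k,
      (∀ x : 𝓞 K, (x : K) ∈ w.A ∧ w.r (x : K) = φ x) →
      ∀ red : (∀ i, Pt (a i : K) (b i : K) → Pt (a i : k) (b i : k)),
      (∀ i, IsRed w (a i) (b i) (red i)) →
      ∃ Bl : (∀ i, Pt (a i : k) (b i : k)) → (Fin s → k) → Set (J → k),
        (∀ x y, (∀ l, y l ≠ 0) → (((Bl x y).ncard : ℕ) : ℝ) ≤
          (1 - δ) * (Fintype.card k : ℝ) ^ Fintype.card J) ∧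
        ∀ (P : ∀ i, Pt (a i : K) (b i : K)) (u : Fin s → Kˣ), (∀ l, u l ∈ Γ) →
          (∀ l, (u l : K) ∈ w.A ∧ w.r (u l : K) ≠ 0) → ∀ c ∈ BadP P u,
          (fun i => φ (∑ j, c (i, j) • ω j)) ∈
            Bl (fun i => red i (P i)) (fun l => w.r (u l : K))) :
    ∃ p₀ R : ℕ, ∀ (T : Finset ℕ) (M : ℕ), GoodT K p₀ T M → ∀ H : ℕ, ∏ p ∈ T, p ≤ 2 * H + 1 →
      (({c : J × Fin N → ℤ | (∀ i, |c i| ≤ (H : ℤ)) ∧ ∃ P u, (∀ l, u l ∈ Γ) ∧
        c ∈ BadP P u}.ncard : ℕ) : ℝ) ≤ (2 * (2 * (H : ℝ) + 1)) ^ Fintype.card (J × Fin N) *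
        ((M : ℝ) ^ R * (1 - δ) ^ T.card) := by
  classical
  obtain ⟨p₀, R, hcl⟩ := classesK K r s a b hab Γ hΓ
  refine ⟨p₀ + p₁ + 5 + ∑ i, (4 * a i ^ 3 + 27 * b i ^ 2).natAbs + 1, R, ?_⟩
  intro T M hT H hH
  obtain ⟨hM, hT⟩ := hT
  have hTp : ∀ p ∈ T, p.Prime := fun p hp => (hT p hp).1
  obtain ⟨Q, _, hQ, cls, rp, ru, hcls⟩ := hcl M hM
  have hdisc : ∀ i, 4 * a i ^ 3 + 27 * b i ^ 2 ≠ 0 := by
    intro i h
    obtain ⟨h1, h2⟩ := hab i
    rcases mul_eq_zero.1 h1 with h3 | h3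
    · rw [h3] at h h2
      have h4 : (b i) ^ 2 = 0 := by linarith
      rcases h2 with h2 | h2
      · exact h2 rfl
      · exact h2 (pow_eq_zero_iff two_ne_zero |>.1 h4)
    · rw [h3] at h h2
      have h4 : (a i) ^ 3 = 0 := by linarith
      rcases h2 with h2 | h2
      · exact h2 (pow_eq_zero_iff three_ne_zero |>.1 h4)
      · exact h2 rfl
  -- the local data
  have key : ∀ p : ℕ, p ∈ T → ∃ G0 : Q → Set (J × Fin N → ZMod p),
      (∀ x, (((G0 x).ncard : ℕ) : ℝ) ≤ (1 - δ) * (p : ℝ) ^ Fintype.card (J × Fin N)) ∧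
      ∀ (P : ∀ i, Pt (a i : K) (b i : K)) (u : Fin s → Kˣ), (∀ l, u l ∈ Γ) →
        ∀ c ∈ BadP P u, (fun s => (c s : ZMod p)) ∈ G0 (cls P u) := by
    intro p hp
    obtain ⟨hpp, hp0, h12, ⟨k, _, _, hcard, φ, hφ⟩, hL1, hL2⟩ := hT p hp
    haveI : Fact p.Prime := ⟨hpp⟩
    haveI : CharP k p := charP_of_card hpp hcard
    obtain ⟨w, hw⟩ := Pool.Agent.W496.FK.PLQ.main K k φ hφ
    have hdk : ∀ i, Disc (a i : k) (b i : k) := fun i => FD.disc_of (by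
      intro h
      have h5 : ((2 : ℕ) : k) = 0 := by exact_mod_cast h
      rw [CharP.cast_eq_zero_iff k p] at h5
      have := Nat.le_of_dvd (by norm_num) h5
      omega) (by
      intro h
      have h4 := (CharP.intCast_eq_zero_iff k p _).1 h
      have h5 := Nat.le_of_dvd (Int.natAbs_pos.2 (hdisc i)) (Int.natCast_dvd.1 h4)
      have h6 : (4 * a i ^ 3 + 27 * b i ^ 2).natAbs ≤
          ∑ i, (4 * a i ^ 3 + 27 * b i ^ 2).natAbs :=
        Finset.single_le_sum (f := fun i => (4 * a i ^ 3 + 27 * b i ^ 2).natAbs)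
          (fun _ _ => Nat.zero_le _) (Finset.mem_univ i)
      omega)
    choose red hred using fun i => t_R6 t_R1 t_R2 t_R3 t_R4 t_R5 K k w (a i) (b i) (hdk i)
    obtain ⟨Bl, hBl1, hBl2⟩ := hloc p hpp (by omega) h12 k hcard φ hφ w hw
      (fun i => red i) hred
    have hrk := hcls p hpp (by omega) h12 hL1 hL2 k hcard w (fun x => (hw x).1)
      (fun i => red i) hred
    have hG0 : ∀ x : Q, ∃ G0 : Set (J × Fin N → ZMod p),
        (((G0).ncard : ℕ) : ℝ) ≤ (1 - δ) * (p : ℝ) ^ Fintype.card (J × Fin N) ∧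
        ((∀ l, w.r (ru x l : K) ≠ 0) → ∀ c : J × Fin N → ℤ,
          (fun i => φ (∑ j, c (i, j) • ω j)) ∈
            Bl (fun i => red i (rp x i)) (fun l => w.r (ru x l : K)) →
          (fun s => (c s : ZMod p)) ∈ G0) := by
      intro x
      by_cases hx : ∀ l, w.r (ru x l : K) ≠ 0
      · obtain ⟨G0, hG1, hG2⟩ := CI.preI K J N ω p k hcard φ hφ
          (Bl (fun i => red i (rp x i)) (fun l => w.r (ru x l : K))) (1 - δ) (hBl1 _ _ hx)
        exact ⟨G0, hG1, fun _ => hG2⟩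
      · refine ⟨∅, ?_, fun h => absurd h hx⟩
        rw [Set.ncard_empty, Nat.cast_zero]
        have : 0 ≤ 1 - δ := by linarith
        positivity
    choose G0 hG1 hG2 using hG0
    refine ⟨G0, hG1, ?_⟩
    intro P u hu c hc
    obtain ⟨h1, h2⟩ := hrk P u hu
    have h3 := hBl2 P u hu (fun l => ⟨(h2 l).1, (h2 l).2.1⟩) c hc
    have h4 : (fun i => red i (P i)) = fun i => red i (rp (cls P u) i) := funext h1
    have h5 : (fun l => w.r (u l : K)) = fun l => w.r (ru (cls P u) l : K) :=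
      funext fun l => (h2 l).2.2
    rw [h4, h5] at h3
    exact hG2 _ (fun l => by rw [← (h2 l).2.2]; exact (h2 l).2.1) c h3
  choose G0 hG1 hG2 using key
  let G1 : Q → (p : ℕ) → Set (J × Fin N → ZMod p) := fun x p =>
    {c | ∃ hp : p ∈ T, c ∈ G0 p hp x}
  have hGeq : ∀ x (p : ℕ) (hp : p ∈ T), G1 x p = G0 p hp x := by
    intro x p hp
    ext c
    exact ⟨fun ⟨_, h⟩ => h, fun h => ⟨hp, h⟩⟩
  have hB : ∀ x, (({c : J × Fin N → ℤ | c ∈ Box (J × Fin N) H ∧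
      ∀ p ∈ T, (fun s => (c s : ZMod p)) ∈ G1 x p}.ncard : ℕ) : ℝ) ≤
      (2 * (2 * (H : ℝ) + 1)) ^ Fintype.card (J × Fin N) * (1 - δ) ^ T.card := fun x =>
    t_BOX (J × Fin N) T hTp (G1 x) (1 - δ) (by linarith) (by
      intro p hp
      rw [hGeq x p hp]
      exact hG1 p hp x) H hH
  have hsub : {c : J × Fin N → ℤ | (∀ i, |c i| ≤ (H : ℤ)) ∧ ∃ P u, (∀ l, u l ∈ Γ) ∧
      c ∈ BadP P u} ⊆ ⋃ x ∈ (Finset.univ : Finset Q),
      {c : J × Fin N → ℤ | c ∈ Box (J × Fin N) H ∧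
        ∀ p ∈ T, (fun s => (c s : ZMod p)) ∈ G1 x p} := by
    rintro c ⟨hc1, P, u, hu, hc⟩
    rw [Set.mem_iUnion₂]
    refine ⟨cls P u, Finset.mem_univ _, ?_, ?_⟩
    · unfold Box
      rw [Fintype.mem_piFinset]
      intro s
      rw [Finset.mem_Icc]
      exact abs_le.1 (hc1 s)
    intro p hp
    rw [hGeq _ p hp]
    exact hG2 p hp P u hu c hc
  have hfin : (⋃ x ∈ (Finset.univ : Finset Q),
      {c : J × Fin N → ℤ | c ∈ Box (J × Fin N) H ∧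
        ∀ p ∈ T, (fun s => (c s : ZMod p)) ∈ G1 x p}).Finite := by
    apply Set.Finite.subset (Box (J × Fin N) H).finite_toSet
    intro c hc
    rw [Set.mem_iUnion₂] at hc
    obtain ⟨_, _, hc, _⟩ := hc
    exact hc
  have hcard : (((Finset.univ : Finset Q).card : ℕ) : ℝ) ≤ (M : ℝ) ^ R := by
    rw [Finset.card_univ]
    exact_mod_cast hQ
  have h1δ : 0 ≤ 1 - δ := by linarith
  set s₀ := Fintype.card (J × Fin N) with hs₀
  calc (({c : J × Fin N → ℤ | (∀ i, |c i| ≤ (H : ℤ)) ∧ ∃ P u, (∀ l, u l ∈ Γ) ∧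
        c ∈ BadP P u}.ncard : ℕ) : ℝ)
      ≤ (((⋃ x ∈ (Finset.univ : Finset Q), {c : J × Fin N → ℤ |
          c ∈ Box (J × Fin N) H ∧
          ∀ p ∈ T, (fun s => (c s : ZMod p)) ∈ G1 x p}).ncard : ℕ) : ℝ) := by
        exact_mod_cast Set.ncard_le_ncard hsub hfin
    _ ≤ ((∑ x ∈ (Finset.univ : Finset Q), {c : J × Fin N → ℤ |
          c ∈ Box (J × Fin N) H ∧
          ∀ p ∈ T, (fun s => (c s : ZMod p)) ∈ G1 x p}.ncard : ℕ) : ℝ) := by
        exact_mod_cast Finset.set_ncard_biUnion_le _ _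
    _ = ∑ x ∈ (Finset.univ : Finset Q), (({c : J × Fin N → ℤ |
          c ∈ Box (J × Fin N) H ∧
          ∀ p ∈ T, (fun s => (c s : ZMod p)) ∈ G1 x p}.ncard : ℕ) : ℝ) := by
        push_cast
        rfl
    _ ≤ ∑ x ∈ (Finset.univ : Finset Q), (2 * (2 * (H : ℝ) + 1)) ^ s₀ *
          (1 - δ) ^ T.card := Finset.sum_le_sum fun x _ => hB x
    _ = (((Finset.univ : Finset Q).card : ℕ) : ℝ) * ((2 * (2 * (H : ℝ) + 1)) ^ s₀ *
          (1 - δ) ^ T.card) := by rw [Finset.sum_const, nsmul_eq_mul]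
    _ ≤ (M : ℝ) ^ R * ((2 * (2 * (H : ℝ) + 1)) ^ s₀ *
          (1 - δ) ^ T.card) := mul_le_mul_of_nonneg_right hcard (by positivity)
    _ = (2 * (2 * (H : ℝ) + 1)) ^ s₀ * ((M : ℝ) ^ R *
          (1 - δ) ^ T.card) := by ring

end Pool.Agent.N89.BD
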