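import Pool.Agent.N89.BD.Main2
import Pool.Agent.N89.GS.Fin
import Pool.Agent.N614.BD.LNO
import Pool.Agent.N935.BD.BN2
import Pool.Agent.N346.BD.CZ
import Pool.Agent.N721.BD.CRD
import Pool.Agent.N34.BD.TRC
import Pool.Agent.N403.BD.SUF
import Pool.Agent.N455.BD.GL1
import Pool.Agent.N712.BD.GL
import Pool.Agent.N769.BD.MOA
import Pool.Agent.N519.BD.TSA
import Pool.Agent.N403.BD.TOR

/-! Project BD (helper89): everything put together. -/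

set_option autoImplicit false

namespace Pool.Agent.N89.BD

open MvPolynomial NumberField Pool.Agent.H901R3.MS Pool.Agent.W659 Pool.Agent.W659.SA
  Pool.Agent.N89.GS WeierstrassCurve

theorem finBD' (hTSA : S_TSA) (hTOR : S_TOR)
    (K : Type) [Field K] [NumberField K] (N : ℕ) (ω : Module.Basis (Fin N) ℤ (𝓞 K))
    (r s m q κ : ℕ) (a b : Fin r → ℤ) (hab : ∀ i, a i * b i = 0 ∧ (a i ≠ 0 ∨ b i ≠ 0))
    (G : Fin q → Pol (𝓞 K) r s m) (dG : Fin q → Fin r → ℕ) (fG : Fin q → ℕ)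
    (hdG : ∀ l, MHomog (G l) (dG l)) (hfG : ∀ l, THomog (G l) (fG l)) (σ : K →+* ℂ)
    (hdim : DimLE σ a b G κ) (B : ℕ) (hB : 1 ≤ B) (hg : 1 ≤ r + s) :
    ∃ k₀ : ℕ,
      (∀ h : ℕ, 1 ≤ h → (r + s + κ) * B ≤ (r + s) + h * B →
        ∀ (Φ : Fin h → Pol (𝓞 K) r s m) (ι : Fin h → Type) [∀ j, Fintype (ι j)]
        (Λ : (j : Fin h) → ι j → Pol (𝓞 K) r s m) (d : Fin h → Fin r → ℕ) (e : Fin h → ℕ),
        (∀ j, MHomog (Φ j) (d j)) → (∀ j, THomog (Φ j) (e j)) → (∀ j x, MHomog (Λ j x) (d j)) →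
        (∀ j x, THomog (Λ j x) (e j)) → (∀ j, SepAll (toC σ) a b G (Λ j) k₀) →
        (∀ S : ℕ, 1 ≤ S → ∃ c₀ : ℝ, 0 < c₀ ∧ ∃ H₀ : ℕ, ∀ H : ℕ, H₀ ≤ H →
            (({c : (Σ j, ι j) × Fin N → ℤ | (∀ i, |c i| ≤ (H : ℤ)) ∧
              c ∈ BadB ω a b B S G Φ Λ}.ncard : ℕ) : ℝ) ≤
              (2 * (H : ℝ) + 1) ^ (Fintype.card (Σ j, ι j) * N) *
                Real.exp (-c₀ * (Real.log H / Real.log (Real.log H)))) ∧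
        ∃ E : Set ((Σ j, ι j) × Fin N → ℤ),
          (∃ H₀ : ℕ, ∀ H : ℕ, H₀ ≤ H →
            (({c : (Σ j, ι j) × Fin N → ℤ | (∀ i, |c i| ≤ (H : ℤ)) ∧ c ∈ E}.ncard : ℕ) : ℝ) ≤
              (2 * (H : ℝ) + 1) ^ (Fintype.card (Σ j, ι j) * N) *
                Real.exp (-(Real.log H / Real.log (Real.log H) ^ 2))) ∧
          ∀ S : ℕ, 1 ≤ S → (BadB ω a b B S G Φ Λ \ E).Finite) ∧
      ∀ (ι : Type) (Λ : ι → Pol (𝓞 K) r s m) (d : Fin r → ℕ) (e : ℕ) (x₀ : Fin s → ℕ),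
        (∀ i, k₀ ≤ d i + 1) → k₀ ≤ e + 1 →
        (∀ (μ : Fin r → Fin 3 → ℕ) (x : Fin s → ℕ) (α : Fin m → ℕ), (∀ i, ∑ j, μ i j = d i) →
          (∀ l, x₀ l ≤ x l ∧ x l + 1 ≤ x₀ l + k₀) → ∑ i, α i = e → ∃ y, Λ y = mon μ x α) →
        SepAll (toC σ) a b G Λ k₀ := by
  obtain ⟨k₀, hM⟩ := mainBD (Pool.Agent.N34.BD.TRC.main hTOR Pool.Agent.N721.BD.main) t_FIB
    Pool.Agent.N346.BD.CZ.main Pool.Agent.N614.BD.LNO.main Pool.Agent.N935.BD.BN2.main hTSA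
    (Pool.Agent.N712.BD.main Pool.Agent.N455.BD.GL1.main) Pool.Agent.N403.BDSUF.main K r s m q κ
    a b hab G dG fG hdG hfG σ hdim B hB hg
  refine ⟨k₀, ?_, fun ι Λ d e x₀ hd he h => Pool.Agent.N769.BD.main (𝓞 K) ℂ (toC σ) r s m q a b G
    ι Λ k₀ d e x₀ hd he h⟩
  intro h hh hyp Φ ι _ Λ d e hdΦ heΦ hdΛ heΛ hsep
  exact ⟨fun S hS => hM h hh hyp Φ ι Λ d e hdΦ heΦ hdΛ heΛ hsep S hS N ω,
    uniBD K a b G σ B k₀ hM h hh hyp Φ ι Λ d e hdΦ heΦ hdΛ heΛ hsep N ω⟩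

/-- the theorem -/
theorem finBD : type_of% (finBD' Pool.Agent.N519.BD.TSA.main Pool.Agent.N403.BD.main) :=
  finBD' Pool.Agent.N519.BD.TSA.main Pool.Agent.N403.BD.main

end Pool.Agent.N89.BD
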