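import Pool.Agent.N89.BD.Loc2
import Pool.Agent.N89.GS.Sieve

/-! Project BD (helper89): reduction of the conjugates of a point. -/

set_option autoImplicit false

namespace Pool.Agent.N89.BD

open MvPolynomial NumberField Pool.Agent.H901R3.MS Pool.Agent.W659 Pool.Agent.W659.SA
  Pool.Agent.N89.GS WeierstrassCurve

/-! ### Normalised reduction of vectors -/

/-- `x` is a normalised reduction of the vector `T` at the place `v` -/
def IsNred {L Ω : Type} [Field L] [Field Ω] (v : Place L Ω) {m : ℕ} (T : Fin m → L)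
    (x : Fin m → Ω) : Prop :=
  Nrm x ∧ ∃ (ζ : L) (z : Ω), ζ ≠ 0 ∧ z ≠ 0 ∧ (∀ j, ζ * T j ∈ v.A) ∧ ∀ j, x j = z * v.r (ζ * T j)

theorem exists_nred {L Ω : Type} [Field L] [Field Ω] (v : Place L Ω) {m : ℕ} (T : Fin m → L)
    (hT : T ≠ 0) : ∃ x, IsNred v T x := by
  obtain ⟨i₀, hi₀, hprim⟩ := CI.exists_primitive v T hT
  have h1 : (fun j => v.r ((T i₀)⁻¹ * T j)) ≠ 0 := by
    intro h
    have h1 := congrFun h i₀
    simp only [inv_mul_cancel₀ hi₀, Place.r_one, Pi.zero_apply] at h1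
    exact one_ne_zero h1
  obtain ⟨z, hz, hN⟩ := exists_nrm _ h1
  exact ⟨_, hN, (T i₀)⁻¹, z, inv_ne_zero hi₀, hz, hprim, fun j => rfl⟩

theorem IsNred.unique {L Ω : Type} [Field L] [Field Ω] {v : Place L Ω} {m : ℕ} {T : Fin m → L}
    {x x' : Fin m → Ω} (h : IsNred v T x) (h' : IsNred v T x') : x = x' := by
  obtain ⟨hN, ζ, z, hζ, hz, hA, hx⟩ := h
  obtain ⟨hN', ζ', z', hζ', hz', hA', hx'⟩ := h'
  obtain ⟨j₀, hj₀⟩ := Function.ne_iff.1 hN'.ne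
  have h1 : v.r (ζ' * T j₀) ≠ 0 := by
    intro h
    apply hj₀
    rw [hx' j₀, h, mul_zero]
    rfl
  have hT0 : T j₀ ≠ 0 := by
    intro h0
    rw [h0, mul_zero, Place.r_zero] at h1
    exact h1 rfl
  have h2 : ζ * ζ'⁻¹ ∈ v.A := by
    have h3 := v.div_mem (hA j₀) h1
    have h4 : ζ * T j₀ / (ζ' * T j₀) = ζ * ζ'⁻¹ := by
      field_simp
    rwa [h4] at h3
  apply hN.eq hN' (c := z * v.r (ζ * ζ'⁻¹) * z'⁻¹)
  funext j
  rw [Pi.smul_apply, smul_eq_mul, hx j, hx' j]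
  have h3 : ζ * T j = ζ * ζ'⁻¹ * (ζ' * T j) := by
    field_simp
  rw [h3, v.r_mul h2 (hA' j)]
  field_simp

theorem isNred_frob {L Ω : Type} [Field L] [Field Ω] {v v' : Place L Ω} {m : ℕ} {T : Fin m → L}
    {x : Fin m → Ω} (f : Ω →+* Ω) (hA : ∀ y ∈ v.A, y ∈ v'.A ∧ v'.r y = f (v.r y))
    (h : IsNred v T x) : IsNred v' T (fun j => f (x j)) := by
  obtain ⟨hN, ζ, z, hζ, hz, hTA, hx⟩ := h
  refine ⟨hN.map f, ζ, f z, hζ, (map_ne_zero f).2 hz, fun j => (hA _ (hTA j)).1, fun j => ?_⟩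
  show f (x j) = _
  rw [hx j, map_mul, (hA _ (hTA j)).2]

/-! ### Reduction of points -/

theorem isRed_congr {K k : Type} [Field K] [Field k] {v v' : Place K k} (hA : ∀ y, y ∈ v.A ↔ y ∈ v'.A)
    (hr : ∀ y, v.r y = v'.r y) {a b : ℤ} {red : Pt (a : K) (b : K) → Pt (a : k) (b : k)}
    (h : IsRed v a b red) : IsRed v' a b red := by
  refine ⟨h.1, fun x y hP hx => h.2.1 x y hP (fun h1 => hx ((hA x).1 h1)), fun x y hP hx => ?_⟩
  obtain ⟨hy, g, hg⟩ := h.2.2 x y hP ((hA x).2 hx)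
  refine ⟨(hA y).1 hy, by rw [← hr, ← hr]; exact g, ?_⟩
  rw [hg]
  congr 1
  · exact hr x
  · exact hr y

theorem r_notMem {K k : Type} [Field K] [Field k] (v : Place K k) {y : K} (h : y ∉ v.A) :
    v.r y = 0 := by simp [Place.r, h]

/-- reduction of a point over `L` -/
theorem redpt {K L Ω : Type} [Field K] [NumberField K] [Field L] [NumberField L] [Algebra K L]
    [Field Ω] (v : Place L Ω) (φL : 𝓞 L →+* Ω) (hv : ∀ x : 𝓞 L, (x : L) ∈ v.A ∧ v.r (x : L) = φL x)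
    (ψ : 𝓞 K →+* Ω) (hψ : ψ = φL.comp (algebraMap (𝓞 K) (𝓞 L)))
    {r s m q h : ℕ} {a b : Fin r → ℤ} (G : Fin q → Pol (𝓞 K) r s m) (dG : Fin q → Fin r → ℕ)
    (fG : Fin q → ℕ) (hdG : ∀ e, MHomog (G e) (dG e)) (hfG : ∀ e, THomog (G e) (fG e))
    (Φ : Fin h → Pol (𝓞 K) r s m) {ι : Fin h → Type} [∀ j, Fintype (ι j)]
    (Λ : (j : Fin h) → ι j → Pol (𝓞 K) r s m) (d : Fin h → Fin r → ℕ) (e : Fin h → ℕ)
    (hdΦ : ∀ j, MHomog (Φ j) (d j)) (heΦ : ∀ j, THomog (Φ j) (e j))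
    (hdΛ : ∀ j x, MHomog (Λ j x) (d j)) (heΛ : ∀ j x, THomog (Λ j x) (e j))
    (P : ∀ i, Pt (a i : L) (b i : L)) (red : ∀ i, Pt (a i : L) (b i : L) → Pt (a i : Ω) (b i : Ω))
    (hred : ∀ i, IsRed v (a i) (b i) (red i)) (u : Fin s → L) (hu : ∀ l, u l ∈ v.A)
    (T : Fin m → L) (x : Fin m → Ω) (hx : IsNred v T x)
    (hG : ∀ l, vl (toL K L) (G l) (fun i => rep (P i)) u T = 0)
    (c : (Σ j, ι j) → 𝓞 K)
    (hc : ∀ j, vl (toL K L) (Φ j) (fun i => rep (P i)) u T +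
      ∑ y, toL K L (c ⟨j, y⟩) * vl (toL K L) (Λ j y) (fun i => rep (P i)) u T = 0) :
    (∀ l, vl ψ (G l) (fun i => rep (red i (P i))) (fun l => v.r (u l)) x = 0) ∧
    ∀ j, vl ψ (Φ j) (fun i => rep (red i (P i))) (fun l => v.r (u l)) x +
      ∑ y, ψ (c ⟨j, y⟩) * vl ψ (Λ j y) (fun i => rep (red i (P i))) (fun l => v.r (u l)) x = 0 := by
  have htoL : (algebraMap (𝓞 L) L).comp (algebraMap (𝓞 K) (𝓞 L)) = toL K L := by
    ext x
    rfl
  obtain ⟨_, ζ, z, hζ, hz, hTA, hxj⟩ := hx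
  choose c₁ hc₁0 hc₁ using fun i => t_R7 t_R1 L Ω v (a i) (b i) (red i) (hred i) (P i)
  set T₁ : Fin m → L := fun i => ζ * T i with hT₁
  have hG1 : ∀ l, vl (toL K L) (G l) (fun i => rep (P i)) u T₁ = 0 := by
    intro l
    rw [hT₁, vl_scaleT' _ (G l) (fG l) (hfG l), hG l, mul_zero]
  have hc1 : ∀ j, vl (toL K L) (Φ j) (fun i => rep (P i)) u T₁ +
      ∑ x, toL K L (c ⟨j, x⟩) * vl (toL K L) (Λ j x) (fun i => rep (P i)) u T₁ = 0 := by
    intro j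
    rw [hT₁, vl_scaleT' _ (Φ j) (e j) (heΦ j)]
    have h2 : ∀ x, toL K L (c ⟨j, x⟩) * vl (toL K L) (Λ j x) (fun i => rep (P i)) u
        (fun i => ζ * T i) =
        ζ ^ e j * (toL K L (c ⟨j, x⟩) * vl (toL K L) (Λ j x) (fun i => rep (P i)) u T) := by
      intro x
      rw [vl_scaleT' _ (Λ j x) (e j) (heΛ j x)]
      ring
    simp only [h2]
    rw [← Finset.mul_sum, ← mul_add, hc j, mul_zero]
  have key : ∀ (F : Pol (𝓞 L) r s m) (d : Fin r → ℕ), MHomog F d →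
      vl (algebraMap (𝓞 L) L) F (fun i => rep (P i)) u T₁ = 0 →
      vl φL F (fun i => rep (red i (P i))) (fun l => v.r (u l)) (fun j => v.r (T₁ j)) = 0 := by
    intro F d hF h0
    have h1 := (loc_val' v φL hv a b red P c₁ hc₁ F d hF u hu T₁ hTA).2
    rw [h0, mul_zero, Place.r_zero] at h1
    exact h1.symm
  have hxT : x = fun j => z * v.r (T₁ j) := funext hxj
  constructor
  · intro l
    have h1 := key (map (algebraMap (𝓞 K) (𝓞 L)) (G l)) (dG l) (mhomog_mapR _ (hdG l)) (by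
      rw [vl_mapR, htoL]
      exact hG1 l)
    rw [vl_mapR, ← hψ] at h1
    rw [hxT, vl_scaleT' _ (G l) (fG l) (hfG l), h1, mul_zero]
  · intro j
    have h1 := key (map (algebraMap (𝓞 K) (𝓞 L)) (Φ j) +
      ∑ x, C (algebraMap (𝓞 K) (𝓞 L) (c ⟨j, x⟩)) * map (algebraMap (𝓞 K) (𝓞 L)) (Λ j x)) (d j)
      (mhomog_add (mhomog_mapR _ (hdΦ j))
        (mhomog_sum _ (fun x => mhomog_C_mul (mhomog_mapR _ (hdΛ j x)) _))) (by
      rw [vl_add, vl_sum, vl_mapR, htoL]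
      simp only [vl_C_mul, vl_mapR, htoL]
      exact hc1 j)
    rw [vl_add, vl_sum, vl_mapR, ← hψ] at h1
    simp only [vl_C_mul, vl_mapR, ← hψ] at h1
    have h3 : ∀ y, φL (algebraMap (𝓞 K) (𝓞 L) (c ⟨j, y⟩)) = ψ (c ⟨j, y⟩) := fun y => by
      rw [hψ]
      rfl
    simp only [h3] at h1
    rw [hxT, vl_scaleT' _ (Φ j) (e j) (heΦ j)]
    have h2 : ∀ y, ψ (c ⟨j, y⟩) * vl ψ (Λ j y) (fun i => rep (red i (P i)))
        (fun l => v.r (u l)) (fun i => z * v.r (T₁ i)) =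
        z ^ e j * (ψ (c ⟨j, y⟩) * vl ψ (Λ j y) (fun i => rep (red i (P i)))
        (fun l => v.r (u l)) (fun j => v.r (T₁ j))) := by
      intro y
      rw [vl_scaleT' _ (Λ j y) (e j) (heΛ j y)]
      ring
    simp only [h2]
    rw [← Finset.mul_sum, ← mul_add, h1, mul_zero]

/-- `S`-units are units at the places of large characteristic -/
theorem sun_place {L Ω : Type} [Field L] [NumberField L] [Field Ω] {p S : ℕ} (hp : p.Prime)
    [CharP Ω p] (hS : 1 ≤ S) (hSp : S < p) (v : Place L Ω) (hv : ∀ x : 𝓞 L, (x : L) ∈ v.A)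
    {u : Lˣ} (hu : u ∈ SUn L S) : (u : L) ∈ v.A ∧ v.r (u : L) ≠ 0 := by
  have hS0 : v.r ((S : L)) ≠ 0 := by
    rw [Place.r_nat]
    intro h
    rw [CharP.cast_eq_zero_iff Ω p] at h
    have := Nat.le_of_dvd hS h
    omega
  have hSn : ∀ n : ℕ, v.r ((S : L) ^ n) ≠ 0 := fun n => by
    rw [v.r_pow (v.nat_mem S)]
    exact pow_ne_zero n hS0
  obtain ⟨n, h1, h2⟩ := hu
  have key : ∀ y : L, IsIntegral ℤ ((S : L) ^ n * y) → y ∈ v.A := by
    intro y hy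
    have h3 : ((S : L) ^ n * y) ∈ v.A := hv ⟨_, hy⟩
    have h4 := v.div_mem h3 (hSn n)
    have h5 : (S : L) ^ n ≠ 0 := v.ne_zero_of_r_ne (hSn n)
    rwa [mul_div_cancel_left₀ _ h5] at h4
  have h3 := key _ h1
  have h4 := key _ h2
  refine ⟨h3, fun h0 => ?_⟩
  have h5 := v.r_mul h3 h4
  rw [h0, zero_mul, Units.mul_inv, Place.r_one] at h5
  exact one_ne_zero h5

end Pool.Agent.N89.BD
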