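import Pool.Agent.N89.BD.Cnt2

/-! Project BD (helper89): the local theorem. -/

set_option autoImplicit false

namespace Pool.Agent.N89.BD

open MvPolynomial NumberField Pool.Agent.H901R3.MS Pool.Agent.W659 Pool.Agent.W659.SA
  Pool.Agent.N89.GS WeierstrassCurve

theorem rep_smul {Ω : Type} [Field Ω] {a b : Ω} {P P' : Pt a b} {c : Ω}
    (h : rep P = c • rep P') : P = P' := by
  rcases P with _ | ⟨x, y, hP⟩ <;> rcases P' with _ | ⟨x', y', hP'⟩
  · rfl
  · have h2 := congrFun h 2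
    have h1 := congrFun h 1
    simp [rep] at h1 h2
    rw [← h2, zero_mul] at h1
    exact absurd h1 one_ne_zero
  · have h2 := congrFun h 2
    simp [rep] at h2
  · have h0 := congrFun h 0
    have h1 := congrFun h 1
    have h2 := congrFun h 2
    simp [rep] at h0 h1 h2
    rw [← h2, one_mul] at h0 h1
    subst h0 h1
    rfl

section
variable {O k Ω : Type} [CommRing O] [Field k] [Fintype k] [Field Ω] [Algebra k Ω]
  {r s m q h : ℕ} {a b : Fin r → ℤ}

/-- the points of the member with coefficients `c` -/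
def XC (ψ : O →+* Ω) (G : Fin q → Pol O r s m) (Φ : Fin h → Pol O r s m) {ι : Fin h → Type}
    [∀ j, Fintype (ι j)] (Λ : (j : Fin h) → ι j → Pol O r s m) (c : (Σ j, ι j) → k) :
    Set (XG ψ a b G) :=
  {x | ∀ j, ∑ y, algebraMap k Ω (c ⟨j, y⟩) * vx ψ (Λ j y) x.1 = - vx ψ (Φ j) x.1}

theorem prob (hLNO : S_LNO) (ψ : O →+* Ω) (hf : (Fr k Ω).comp ψ = ψ) (G : Fin q → Pol O r s m)
    (Φ : Fin h → Pol O r s m)
    {ι : Fin h → Type} [∀ j, Fintype (ι j)] (Λ : (j : Fin h) → ι j → Pol O r s m) {k₀ : ℕ}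
    (hsep : ∀ j, SepAll ψ a b G (Λ j) k₀) (U : Finset (XG ψ a b G))
    (hU : ∀ x ∈ U, FG ψ (Fr k Ω) hf x ∈ U) (hUk : U.card ≤ k₀) :
    {c : (Σ j, ι j) → k | ↑U ⊆ (XC ψ G Φ Λ c : Set (XG ψ a b G))}.ncard *
      Fintype.card k ^ (h * U.card) = Fintype.card k ^ Fintype.card (Σ j, ι j) := by
  classical
  have hset : {c : (Σ j, ι j) → k | ↑U ⊆ (XC ψ G Φ Λ c : Set (XG ψ a b G))} =
      {c : (Σ j, ι j) → k | ∀ j, (fun y => c ⟨j, y⟩) ∈ {c : ι j → k | ∀ i : U,
        ∑ y, algebraMap k Ω (c y) * vx ψ (Λ j y) i.1.1 = - vx ψ (Φ j) i.1.1}} := by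
    ext c
    exact ⟨fun hc j i => hc i.2 j, fun hc x hx j => hc j ⟨x, hx⟩⟩
  rw [hset, ncard_pi, Fintype.card_sigma, ← Finset.prod_pow_eq_pow_sum]
  have h1 : Fintype.card k ^ (h * U.card) = ∏ _j : Fin h, Fintype.card k ^ U.card := by
    rw [Finset.prod_const, Finset.card_univ, Fintype.card_fin, ← pow_mul, mul_comm]
  rw [h1, ← Finset.prod_mul_distrib]
  refine Finset.prod_congr rfl fun j _ => ?_
  have hbij : Function.Bijective (fun i : U => (⟨FG ψ (Fr k Ω) hf i.1, hU i.1 i.2⟩ : U)) := by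
    rw [Fintype.bijective_iff_injective_and_card]
    refine ⟨fun x y hxy => Subtype.ext (FG_inj ψ (Fr k Ω) hf ?_), rfl⟩
    exact congrArg Subtype.val hxy
  have hli : LinearIndependent Ω (fun i : U => fun y => vx ψ (Λ j y) i.1.1) := by
    set e := U.equivFin with he
    have h2 := hsep j U.card hUk (fun i => fun l => rep ((e.symm i).1.1.1 l))
      (fun i => fun l => ((e.symm i).1.1.2.1 l : Ω)) (fun i => (e.symm i).1.1.2.2)
      (fun i => onB_rep _) (fun i => ⟨(e.symm i).1.2.1.ne, fun l => (e.symm i).1.2.2 l⟩) (by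
        intro i i' hii hcon
        apply hii
        apply e.symm.injective
        apply Subtype.ext
        apply Subtype.ext
        obtain ⟨⟨h3, h4⟩, c, h5⟩ := hcon
        refine Prod.ext ?_ (Prod.ext ?_ ?_)
        · funext l
          obtain ⟨c', hc'⟩ := h3 l
          exact rep_smul hc'
        · funext l
          exact Units.ext (congrFun h4 l)
        · exact (e.symm i).1.2.1.eq (e.symm i').1.2.1 h5)
    exact (linearIndependent_equiv e.symm).1 h2
  have h2 := hLNO k Ω (ι j) U (Equiv.ofBijective _ hbij)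
    (fun i y => vx ψ (Λ j y) i.1.1) (fun i => - vx ψ (Φ j) i.1.1) (by
      intro i y
      show _ = vx ψ (Λ j y) (FX (Fr k Ω) i.1.1)
      rw [vx_FX ψ _ hf, Fr_apply]) (by
      intro i
      show _ = - vx ψ (Φ j) (FX (Fr k Ω) i.1.1)
      rw [vx_FX ψ _ hf, ← map_neg, Fr_apply]) hli
  rw [Fintype.card_coe] at h2
  exact h2

end

end Pool.Agent.N89.BD
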