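import Pool.Agent.N89.BD.Loc
import Pool.Agent.N89.BD.Abs

/-! Project BD (helper89): the local theorem, second part. -/

set_option autoImplicit false

namespace Pool.Agent.N89.BD

open MvPolynomial NumberField Pool.Agent.H901R3.MS Pool.Agent.W659 Pool.Agent.W659.SA
  Pool.Agent.N89.GS WeierstrassCurve

/-- the coefficients of the members which contain a Frobenius-stable cycle of degree at most `B`
with given sum -/
def BLoc {O k Ω : Type} [CommRing O] [Field k] [Fintype k] [Field Ω] [DecidableEq Ω] [Algebra k Ω]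
    {r s m q h : ℕ} {a b : Fin r → ℤ} (ψ : O →+* Ω) (hf : (Fr k Ω).comp ψ = ψ)
    (G : Fin q → Pol O r s m) (Φ : Fin h → Pol O r s m) {ι : Fin h → Type}
    [∀ j, Fintype (ι j)] (Λ : (j : Fin h) → ι j → Pol O r s m) (B : ℕ) (σ : Gr Ω a b s) :
    Set ((Σ j, ι j) → k) :=
  {c | ∃ n, 1 ≤ n ∧ n ≤ B ∧ ∃ (x : Fin n → XG ψ a b G) (π : Equiv.Perm (Fin n)),
    (∀ i, FG ψ (Fr k Ω) hf (x i) = x (π i)) ∧ (∀ i, x i ∈ XC (k := k) ψ G Φ Λ c) ∧
    ∑ i, ptG ψ (x i) = σ}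

theorem localBD (hCZ : S_CZ) (hLNO : S_LNO) (hBN2 : S_BN2) (r s κ B A : ℕ) (hB : 1 ≤ B)
    (hg : 1 ≤ r + s) : ∃ (k₀ q₀ : ℕ) (δ : ℝ), 0 < δ ∧ δ < 1 ∧
    ∀ (m q h : ℕ) (a b : Fin r → ℤ), 1 ≤ h → (r + s + κ) * B ≤ (r + s) + h * B →
    ∀ (O k Ω : Type) [CommRing O] [Field k] [Fintype k] [Field Ω] [DecidableEq Ω] [Algebra k Ω]
      (ψ : O →+* Ω) (hf : (Fr k Ω).comp ψ = ψ) (G : Fin q → Pol O r s m)
      (Φ : Fin h → Pol O r s m) (ι : Fin h → Type) [∀ j, Fintype (ι j)]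
      (Λ : (j : Fin h) → ι j → Pol O r s m), q₀ ≤ Fintype.card k →
      (∀ t, 1 ≤ t → t ≤ B → {x : XG ψ a b G | (FG _ (Fr k Ω) hf)^[t] x = x}.Finite ∧
        {x : XG ψ a b G |
          (FG _ (Fr k Ω) hf)^[t] x = x}.ncard ≤ A * Fintype.card k ^ ((r + s + κ) * t)) →
      (∀ t n, 1 ≤ t → t ≤ B → 1 ≤ n → n ≤ B → ∀ v : Gr Ω a b s,
        {x : XG ψ a b G | (FG _ (Fr k Ω) hf)^[t] x = x ∧
          n • ∑ i ∈ Finset.range t, ptG _ ((FG _ (Fr k Ω) hf)^[i] x) = v}.ncard *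
          Fintype.card k ^ (r + s) ≤ A * Fintype.card k ^ ((r + s + κ) * t)) →
      (∀ j, SepAll ψ a b G (Λ j) k₀) → ∀ σ : Gr Ω a b s,
      (((BLoc ψ hf G Φ Λ B σ : Set ((Σ j, ι j) → k)).ncard : ℕ) : ℝ) ≤
        (1 - δ) * (Fintype.card k : ℝ) ^ Fintype.card (Σ j, ι j) := by
  classical
  obtain ⟨C, hC⟩ := hCZ B A (r + s + κ) (r + s)
  obtain ⟨k₁, δ, hδ0, hδ1, hBN⟩ := hBN2 B C
  obtain ⟨ε, hε, hBN⟩ := hBN (2 ^ (k₁ * B) * (1 + C))
  obtain ⟨q₁, hq₁⟩ := exists_nat_ge ((B : ℝ) * C / δ)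
  obtain ⟨q₂, hq₂⟩ := exists_nat_ge ((2 : ℝ) ^ B * C / ε)
  refine ⟨(k₁ + 1) * B, q₁ + q₂ + 2, δ, hδ0, by linarith, ?_⟩
  intro m q h a b hh hyp O k Ω _ _ _ _ _ _ ψ hf G Φ ι _ Λ hq0 hH1 hH2 hsep σ
  set Q := Fintype.card k with hQ
  have hQ2 : 2 ≤ Q := Fintype.one_lt_card
  have hQr : (0 : ℝ) < Q := by exact_mod_cast (show 0 < Q by omega)
  set F := FG ψ (Fr k Ω) hf (a := a) (b := b) (G := G) with hF
  have hFi : Function.Injective F := FG_inj ψ (Fr k Ω) hf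
  set n := Fintype.card (Σ j, ι j) with hn
  have hY : ∀ t, 1 ≤ t → t ≤ B → ∀ σ : Gr Ω a b s, (YS F (ptG ψ) B t σ).Finite ∧
      (YS F (ptG ψ) B t σ).ncard * Q ^ (r + s) ≤ C * Q ^ ((r + s + κ) * t) := fun t ht1 ht2 σ =>
    hC Q (XG ψ a b G) (Gr Ω a b s) F (ptG ψ) hQ2 (by omega) hFi hH1 hH2 t ht1 ht2 σ
  set p : ℝ := ((Q : ℝ) ^ h)⁻¹ with hp
  have hp0 : 0 ≤ p := by positivity
  have hp2 : p ≤ 1 / 2 := by
    rw [hp, one_div]
    apply inv_anti₀ (by norm_num)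
    have h1 : (2 : ℝ) ≤ (Q : ℝ) ^ 1 := by
      rw [pow_one]
      exact_mod_cast hQ2
    exact h1.trans (pow_le_pow_right₀ (by exact_mod_cast (show 1 ≤ Q by omega)) hh)
  -- the probability of a stable set
  have hprob : ∀ U : Finset (XG ψ a b G), (∀ x ∈ U, F x ∈ U) → U.card ≤ (k₁ + 1) * B →
      (({c : (Σ j, ι j) → k | ↑U ⊆ (XC ψ G Φ Λ c : Set (XG ψ a b G))}.ncard : ℕ) : ℝ) =
        (Q : ℝ) ^ n * p ^ U.card := by
    intro U hU1 hU2
    have h1 := prob hLNO ψ hf G Φ Λ hsep U hU1 hU2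
    have h2 : (({c : (Σ j, ι j) → k |
        ↑U ⊆ (XC ψ G Φ Λ c : Set (XG ψ a b G))}.ncard : ℕ) : ℝ) * (Q : ℝ) ^ (h * U.card) =
        (Q : ℝ) ^ n := by exact_mod_cast h1
    rw [← h2, hp, inv_pow, ← pow_mul, mul_assoc, mul_inv_cancel₀ (by positivity), mul_one]
  -- the reduced cycles of degree `B`
  have hZfin : {Z : Finset (XG ψ a b G) | Z.card = B ∧ (∀ x ∈ Z, F x ∈ Z) ∧
      ∑ x ∈ Z, ptG ψ x = σ}.Finite := by
    refine (hY B hB le_rfl σ).1.subset ?_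
    rintro Z ⟨h1, h2, h3⟩
    exact ⟨h1, h2, fun _ => 1, fun x _ => ⟨le_rfl, hB, rfl⟩, by simpa using h3⟩
  set 𝒵 : Finset (Finset (XG ψ a b G)) := hZfin.toFinset with h𝒵
  have hmZ : ∀ Z, Z ∈ 𝒵 ↔ Z.card = B ∧ (∀ x ∈ Z, F x ∈ Z) ∧ ∑ x ∈ Z, ptG ψ x = σ := by
    intro Z
    rw [h𝒵, Set.Finite.mem_toFinset]
    rfl
  have hstab : ∀ J ⊆ 𝒵, ∀ x ∈ J.biUnion id, F x ∈ J.biUnion id := by
    intro J hJ x hx
    rw [Finset.mem_biUnion] at hx ⊢
    obtain ⟨Z, hZ, hx⟩ := hx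
    exact ⟨Z, hZ, ((hmZ Z).1 (hJ hZ)).2.1 x hx⟩
  have hcardU : ∀ J ⊆ 𝒵, J.card ≤ k₁ → (J.biUnion id).card ≤ k₁ * B := by
    intro J hJ hJc
    refine (Finset.card_biUnion_le_card_mul J id B fun Z hZ => ?_).trans
      (Nat.mul_le_mul_right B hJc)
    exact ((hmZ Z).1 (hJ hZ)).1.le
  have hmain := hBN ((Σ j, ι j) → k) (XG ψ a b G) (fun c => XC ψ G Φ Λ c) 𝒵 p hp0 hp2
    (fun Z hZ => ((hmZ Z).1 hZ).1) hB (by
      intro J hJ hJc
      have h1 : {c : (Σ j, ι j) → k | ∀ Z ∈ J, ↑Z ⊆ (XC ψ G Φ Λ c : Set (XG ψ a b G))} =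
          {c : (Σ j, ι j) → k | ↑(J.biUnion id) ⊆ (XC ψ G Φ Λ c : Set (XG ψ a b G))} := by
        ext c
        simp only [Set.mem_ofPred_eq]
        constructor
        · intro hc x hx
          rw [Finset.mem_coe, Finset.mem_biUnion] at hx
          obtain ⟨Z, hZ, hx⟩ := hx
          exact hc Z hZ hx
        · intro hc Z hZ x hx
          apply hc
          rw [Finset.mem_coe, Finset.mem_biUnion]
          exact ⟨Z, hZ, hx⟩
      rw [h1, hprob _ (hstab J hJ) ((hcardU J hJ hJc).trans (by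
        have : (k₁ + 1) * B = k₁ * B + B := by ring
        omega)), Fintype.card_fun]
      push_cast
      rfl) (by
      have h1 := sumZ F hFi (ptG ψ) B C Q (r + s + κ) (r + s) h hQ2 hB hg hyp hY σ ∅
        (by simp) 𝒵 (fun Z hZ => (hmZ Z).1 hZ)
      -- use the count of the whole family
      have h2 : (𝒵.card : ℝ) ≤ ((YS F (ptG ψ) B B σ).ncard : ℝ) := by
        have h3 : 𝒵.card ≤ (YS F (ptG ψ) B B σ).ncard := by
          rw [← Set.ncard_coe_finset]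
          refine Set.ncard_le_ncard ?_ (hY B hB le_rfl σ).1
          intro Z hZ
          rw [Finset.mem_coe] at hZ
          obtain ⟨h1, h2, h3⟩ := (hmZ Z).1 hZ
          exact ⟨h1, h2, fun _ => 1, fun x _ => ⟨le_rfl, hB, rfl⟩, by simpa using h3⟩
        exact_mod_cast h3
      have h3 : ∑ Z ∈ 𝒵, p ^ Z.card = 𝒵.card * p ^ B := by
        rw [Finset.sum_congr rfl (fun Z hZ => by rw [((hmZ Z).1 hZ).1]), Finset.sum_const,
          nsmul_eq_mul]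
      rw [h3]
      exact (mul_le_mul_of_nonneg_right h2 (by positivity)).trans
        (yb1 F (ptG ψ) B C Q (r + s + κ) (r + s) h hQ2 hyp hY B hB le_rfl hg σ)) (by
      intro J hJ hJc
      refine ((sumZ F hFi (ptG ψ) B C Q (r + s + κ) (r + s) h hQ2 hB hg hyp hY σ (J.biUnion id)
        (hstab J hJ) 𝒵 (fun Z hZ => (hmZ Z).1 hZ)).1).trans ?_
      push_cast
      refine mul_le_mul_of_nonneg_right ?_ (by positivity)
      exact pow_le_pow_right₀ (by norm_num) (hcardU J hJ hJc)) (by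
      intro Z₀ hZ₀
      have h1 := (sumZ F hFi (ptG ψ) B C Q (r + s + κ) (r + s) h hQ2 hB hg hyp hY σ Z₀
        ((hmZ Z₀).1 hZ₀).2.1 (𝒵.filter fun Z => Z ≠ Z₀ ∧ (Z ∩ Z₀).Nonempty) (by
          intro Z hZ
          rw [Finset.mem_filter] at hZ
          exact (hmZ Z).1 hZ.1)).2 (by
        intro Z hZ
        rw [Finset.mem_filter] at hZ
        refine ⟨hZ.2.2, fun hcon => hZ.2.1 ?_⟩
        exact Finset.eq_of_subset_of_card_le hcon (by
          rw [((hmZ Z).1 hZ.1).1, ((hmZ Z₀).1 hZ₀).1]))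
      refine h1.trans ?_
      rw [((hmZ Z₀).1 hZ₀).1]
      rw [div_le_iff₀ hε] at hq₂
      rw [← mul_div_assoc, div_le_iff₀ hQr]
      have h2 : (q₂ : ℝ) ≤ Q := by exact_mod_cast (show q₂ ≤ Q by omega)
      calc (2 : ℝ) ^ B * C ≤ q₂ * ε := hq₂
        _ ≤ Q * ε := mul_le_mul_of_nonneg_right h2 hε.le
        _ = ε * Q := mul_comm _ _)
  -- the other cycles
  have hsmall : ∀ t, 1 ≤ t → t + 1 ≤ B →
      (({c : (Σ j, ι j) → k | ∃ Y ∈ (YS F (ptG ψ) B t σ),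
        ↑Y ⊆ (XC ψ G Φ Λ c : Set (XG ψ a b G))}.ncard : ℕ) : ℝ) ≤ (Q : ℝ) ^ n * (C / Q) := by
    intro t ht1 ht2
    have hfin := (hY t ht1 (by omega) σ).1
    set 𝒴 := hfin.toFinset with h𝒴
    have hsub : {c : (Σ j, ι j) → k | ∃ Y ∈ (YS F (ptG ψ) B t σ),
        ↑Y ⊆ (XC ψ G Φ Λ c : Set (XG ψ a b G))} ⊆
        ⋃ Y ∈ 𝒴, {c : (Σ j, ι j) → k | ↑Y ⊆ (XC ψ G Φ Λ c : Set (XG ψ a b G))} := by
      rintro c ⟨Y, hY1, hY2⟩
      rw [Set.mem_iUnion₂]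
      exact ⟨Y, (Set.Finite.mem_toFinset hfin).2 hY1, hY2⟩
    have h1 : (({c : (Σ j, ι j) → k | ∃ Y ∈ (YS F (ptG ψ) B t σ),
        ↑Y ⊆ (XC ψ G Φ Λ c : Set (XG ψ a b G))}.ncard : ℕ) : ℝ) ≤
        ∑ Y ∈ 𝒴, (({c : (Σ j, ι j) → k |
          ↑Y ⊆ (XC ψ G Φ Λ c : Set (XG ψ a b G))}.ncard : ℕ) : ℝ) := by
      have h2 := (Set.ncard_le_ncard hsub (Set.toFinite _)).trans
        (Finset.set_ncard_biUnion_le _ _)
      exact_mod_cast h2
    refine h1.trans ?_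
    have h2 : ∀ Y ∈ 𝒴, (({c : (Σ j, ι j) → k |
          ↑Y ⊆ (XC ψ G Φ Λ c : Set (XG ψ a b G))}.ncard : ℕ) : ℝ) = (Q : ℝ) ^ n * p ^ t := by
      intro Y hY1
      obtain ⟨h3, h4, _⟩ := (Set.Finite.mem_toFinset hfin).1 hY1
      rw [hprob Y h4 (by
        rw [h3]
        have : (k₁ + 1) * B = k₁ * B + B := by ring
        omega), h3]
    rw [Finset.sum_congr rfl h2, Finset.sum_const, nsmul_eq_mul, ← Set.ncard_eq_toFinset_card _ hfin]
    have h3 := yb2 F (ptG ψ) B C Q (r + s + κ) (r + s) h hQ2 hyp hY t ht1 ht2 hg σ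
    calc ((YS F (ptG ψ) B t σ).ncard : ℝ) * ((Q : ℝ) ^ n * p ^ t) =
        (Q : ℝ) ^ n * (((YS F (ptG ψ) B t σ).ncard : ℝ) * p ^ t) := by ring
      _ ≤ _ := mul_le_mul_of_nonneg_left h3 (by positivity)
  -- the inclusion
  have hincl : (BLoc ψ hf G Φ Λ B σ : Set ((Σ j, ι j) → k)) ⊆
      {c : (Σ j, ι j) → k | ∃ Z ∈ 𝒵, ↑Z ⊆ (XC ψ G Φ Λ c : Set (XG ψ a b G))} ∪
      ⋃ t ∈ Finset.range B, if 1 ≤ t then {c : (Σ j, ι j) → k | ∃ Y ∈ (YS F (ptG ψ) B t σ),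
        ↑Y ⊆ (XC ψ G Φ Λ c : Set (XG ψ a b G))} else ∅ := by
    rintro c ⟨l, hl1, hl2, x, π, hπ, hxc, hsum⟩
    set Y : Finset (XG ψ a b G) := Finset.univ.image x with hYdef
    have hYst : ∀ y ∈ Y, F y ∈ Y := by
      intro y hy
      rw [hYdef, Finset.mem_image] at hy ⊢
      obtain ⟨i, _, rfl⟩ := hy
      exact ⟨π i, Finset.mem_univ _, (hπ i).symm⟩
    have hYc : ↑Y ⊆ (XC ψ G Φ Λ c : Set (XG ψ a b G)) := by
      intro y hy
      rw [Finset.mem_coe, hYdef, Finset.mem_image] at hy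
      obtain ⟨i, _, rfl⟩ := hy
      exact hxc i
    have hYle : Y.card ≤ l := by
      have := Finset.card_image_le (s := (Finset.univ : Finset (Fin l))) (f := x)
      rwa [Finset.card_univ, Fintype.card_fin] at this
    have hY1 : 1 ≤ Y.card := by
      rw [Nat.one_le_iff_ne_zero, Ne, Finset.card_eq_zero, hYdef, Finset.image_eq_empty]
      have : Nonempty (Fin l) := ⟨⟨0, hl1⟩⟩
      exact Finset.univ_nonempty.ne_empty
    by_cases hYB : Y.card = B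
    · left
      have hlB : l = B := by omega
      have hinj : Function.Injective x := by
        have h7 := Finset.injOn_of_card_image_eq (s := (Finset.univ : Finset (Fin l))) (f := x) (by
          rw [Finset.card_univ, Fintype.card_fin]
          show Y.card = l
          omega)
        rwa [Finset.coe_univ, Set.injOn_univ] at h7
      refine ⟨Y, (hmZ Y).2 ⟨hYB, hYst, ?_⟩, hYc⟩
      rw [hYdef, Finset.sum_image (fun i _ j _ h => hinj h)]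
      exact hsum
    · right
      rw [Set.mem_iUnion₂]
      refine ⟨Y.card, Finset.mem_range.2 (by omega), ?_⟩
      rw [if_pos hY1]
      refine ⟨Y, ⟨rfl, hYst, fun y => (Finset.univ.filter fun i => x i = y).card, ?_, ?_⟩, hYc⟩
      · intro y hy
        rw [hYdef, Finset.mem_image] at hy
        obtain ⟨i, _, hi⟩ := hy
        refine ⟨?_, ?_, ?_⟩
        · exact Finset.card_pos.2 ⟨i, by simp [hi]⟩
        · refine (Finset.card_le_univ _).trans ?_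
          rw [Fintype.card_fin]
          exact hl2
        · symm
          refine Finset.card_bij (fun i _ => π i) ?_ ?_ ?_
          · intro j hj
            rw [Finset.mem_filter] at hj ⊢
            exact ⟨Finset.mem_univ _, by rw [← hπ j, hj.2]⟩
          · intro j _ j' _ h
            exact π.injective h
          · intro j hj
            rw [Finset.mem_filter] at hj
            refine ⟨π.symm j, ?_, π.apply_symm_apply j⟩
            rw [Finset.mem_filter]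
            refine ⟨Finset.mem_univ _, hFi ?_⟩
            have h5 := hπ (π.symm j)
            rw [π.apply_symm_apply, hj.2] at h5
            exact h5
      · rw [← hsum, Finset.sum_comp (fun y => ptG ψ y) x]
  have hfinal := Set.ncard_le_ncard hincl (Set.toFinite _)
  have hun := Set.ncard_union_le
    {c : (Σ j, ι j) → k | ∃ Z ∈ 𝒵, ↑Z ⊆ (XC ψ G Φ Λ c : Set (XG ψ a b G))}
    (⋃ t ∈ Finset.range B, if 1 ≤ t then {c : (Σ j, ι j) → k | ∃ Y ∈ (YS F (ptG ψ) B t σ),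
        ↑Y ⊆ (XC ψ G Φ Λ c : Set (XG ψ a b G))} else ∅)
  have hbi := Finset.set_ncard_biUnion_le (Finset.range B) (fun t => if 1 ≤ t then
      {c : (Σ j, ι j) → k | ∃ Y ∈ (YS F (ptG ψ) B t σ),
        ↑Y ⊆ (XC ψ G Φ Λ c : Set (XG ψ a b G))} else ∅)
  have hsm : ((∑ t ∈ Finset.range B, (if 1 ≤ t then
      {c : (Σ j, ι j) → k | ∃ Y ∈ (YS F (ptG ψ) B t σ),
        ↑Y ⊆ (XC ψ G Φ Λ c : Set (XG ψ a b G))} else ∅).ncard : ℕ) : ℝ) ≤
      B * ((Q : ℝ) ^ n * (C / Q)) := by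
    push_cast
    calc _ ≤ ∑ _t ∈ Finset.range B, ((Q : ℝ) ^ n * (C / Q)) := by
          refine Finset.sum_le_sum fun t ht => ?_
          rw [Finset.mem_range] at ht
          by_cases ht1 : 1 ≤ t
          · rw [if_pos ht1]
            exact hsmall t ht1 ht
          · rw [if_neg ht1, Set.ncard_empty, Nat.cast_zero]
            positivity
      _ = _ := by rw [Finset.sum_const, Finset.card_range, nsmul_eq_mul]
  have h1 : (((BLoc ψ hf G Φ Λ B σ : Set ((Σ j, ι j) → k)).ncard : ℕ) : ℝ) ≤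
      (({c : (Σ j, ι j) → k | ∃ Z ∈ 𝒵, ↑Z ⊆ (XC ψ G Φ Λ c : Set (XG ψ a b G))}.ncard : ℕ) : ℝ) +
      ((∑ t ∈ Finset.range B, (if 1 ≤ t then
      {c : (Σ j, ι j) → k | ∃ Y ∈ (YS F (ptG ψ) B t σ),
        ↑Y ⊆ (XC ψ G Φ Λ c : Set (XG ψ a b G))} else ∅).ncard : ℕ) : ℝ) := by
    exact_mod_cast hfinal.trans (hun.trans (Nat.add_le_add_left hbi _))
  have h2 : (Fintype.card ((Σ j, ι j) → k) : ℝ) = (Q : ℝ) ^ n := by
    rw [Fintype.card_fun]
    push_cast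
    rfl
  rw [h2] at hmain
  have h3 : (B : ℝ) * ((Q : ℝ) ^ n * (C / Q)) ≤ δ * (Q : ℝ) ^ n := by
    have h4 : (B : ℝ) * (C / Q) ≤ δ := by
      rw [← mul_div_assoc, div_le_iff₀ hQr]
      rw [div_le_iff₀ hδ0] at hq₁
      have h5 : (q₁ : ℝ) ≤ Q := by exact_mod_cast (show q₁ ≤ Q by omega)
      calc (B : ℝ) * C ≤ q₁ * δ := hq₁
        _ ≤ Q * δ := mul_le_mul_of_nonneg_right h5 hδ0.le
        _ = δ * Q := mul_comm _ _
    calc (B : ℝ) * ((Q : ℝ) ^ n * (C / Q)) = ((B : ℝ) * (C / Q)) * (Q : ℝ) ^ n := by ring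
      _ ≤ _ := mul_le_mul_of_nonneg_right h4 (by positivity)
  calc _ ≤ _ := h1
    _ ≤ (1 - 2 * δ) * (Q : ℝ) ^ n + δ * (Q : ℝ) ^ n := by
        refine add_le_add hmain (hsm.trans h3)
    _ = _ := by ring

end Pool.Agent.N89.BD
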