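import Pool.Agent.N89.BD.Glob
import Pool.Agent.N89.BD.Eng

/-! Project BD (helper89): the main theorem. -/

set_option autoImplicit false

namespace Pool.Agent.N89.BD

open MvPolynomial NumberField Pool.Agent.H901R3.MS Pool.Agent.W659 Pool.Agent.W659.SA
  Pool.Agent.N89.GS WeierstrassCurve

/-- the coefficient vectors `c` such that `X_c` has a point of degree at most `B` over `K` which is
`S`-integral -/
def BadB {K : Type} [Field K] [NumberField K] {N h r s m q : ℕ}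
    (ω : Module.Basis (Fin N) ℤ (𝓞 K)) (a b : Fin r → ℤ) (B S : ℕ)
    (G : Fin q → Pol (𝓞 K) r s m) (Φ : Fin h → Pol (𝓞 K) r s m) {ι : Fin h → Type}
    [∀ j, Fintype (ι j)] (Λ : (j : Fin h) → ι j → Pol (𝓞 K) r s m) :
    Set ((Σ j, ι j) × Fin N → ℤ) :=
  {c | ∃ (L : Type) (_ : Field L) (_ : NumberField L) (_ : Algebra K L),
    Module.finrank K L ≤ B ∧ ∃ (V : Fin r → Fin 3 → L) (u : Fin s → Lˣ) (T : Fin m → L),
    (∀ i, FD.OnE (a i) (b i) (V i)) ∧ (∀ l, u l ∈ SUn L S) ∧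
    OnF (toL K L) G V (fun l => ((u l : Lˣ) : L)) T ∧
    ∀ j, vl (toL K L) (Φ j) V (fun l => ((u l : Lˣ) : L)) T +
      ∑ x, toL K L (∑ i, c (⟨j, x⟩, i) • ω i) *
        vl (toL K L) (Λ j x) V (fun l => ((u l : Lˣ) : L)) T = 0}

theorem disc_ne {r : ℕ} {a b : Fin r → ℤ} (hab : ∀ i, a i * b i = 0 ∧ (a i ≠ 0 ∨ b i ≠ 0)) :
    ∀ i, 4 * a i ^ 3 + 27 * b i ^ 2 ≠ 0 := by
  intro i h
  obtain ⟨h1, h2⟩ := hab i
  rcases mul_eq_zero.1 h1 with h3 | h3
  · rw [h3] at h h2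
    have h4 : (b i) ^ 2 = 0 := by linarith
    rcases h2 with h2 | h2
    · exact h2 rfl
    · exact h2 (pow_eq_zero_iff two_ne_zero |>.1 h4)
  · rw [h3] at h h2
    have h4 : (a i) ^ 3 = 0 := by linarith
    rcases h2 with h2 | h2
    · exact h2 (pow_eq_zero_iff three_ne_zero |>.1 h4)
    · exact h2 rfl

/-- the norm of an `S`-unit -/
theorem norm_sun {K L : Type} [Field K] [NumberField K] [Field L] [NumberField L] [Algebra K L]
    {S : ℕ} {u : Lˣ} (hu : u ∈ SUn L S) : ∃ v ∈ SUn K S, (v : K) = Algebra.norm K (u : L) := by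
  have : FiniteDimensional K L := inferInstance
  obtain ⟨n, h1, h2⟩ := hu
  have key : ∀ y : L, IsIntegral ℤ ((S : L) ^ n * y) →
      IsIntegral ℤ ((S : K) ^ (n * Module.finrank K L) * Algebra.norm K y) := by
    intro y hy
    have h3 := Algebra.isIntegral_norm (R := ℤ) (L := L) K hy
    rw [map_mul, map_pow] at h3
    have h4 : Algebra.norm K ((S : ℕ) : L) = (S : K) ^ Module.finrank K L := by
      have h5 : ((S : ℕ) : L) = algebraMap K L (S : K) := by simp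
      rw [h5, Algebra.norm_algebraMap]
    rw [h4, ← pow_mul, mul_comm (Module.finrank K L)] at h3
    exact h3
  refine ⟨Units.map (Algebra.norm K : L →* K) u, ⟨n * Module.finrank K L, ?_, ?_⟩, rfl⟩
  · exact key _ h1
  · have h3 := key _ h2
    rw [← map_inv]
    exact h3

/-- the trace of a point -/
noncomputable def TR (hGL : S_GL) (K L : Type) [Field K] [NumberField K] [Field L] [NumberField L]
    [Algebra K L] (a b : ℤ) : Pt (a : L) (b : L) → Pt (a : K) (b : K) :=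
  Classical.choose (hGL K L) a b

/-- the coefficient vectors `c` such that `X_c` has a point of degree at most `B` with given trace -/
def BadP (hGL : S_GL) {K : Type} [Field K] [NumberField K] {N h r s m q : ℕ}
    (ω : Module.Basis (Fin N) ℤ (𝓞 K)) (a b : Fin r → ℤ) (B S : ℕ)
    (G : Fin q → Pol (𝓞 K) r s m) (Φ : Fin h → Pol (𝓞 K) r s m) {ι : Fin h → Type}
    [∀ j, Fintype (ι j)] (Λ : (j : Fin h) → ι j → Pol (𝓞 K) r s m)
    (P₀ : ∀ i, Pt (a i : K) (b i : K)) (u₀ : Fin s → Kˣ) : Set ((Σ j, ι j) × Fin N → ℤ) :=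
  {c | ∃ (L : Type) (_ : Field L) (_ : NumberField L) (_ : Algebra K L),
      Module.finrank K L ≤ B ∧ ∃ (P : ∀ i, Pt (a i : L) (b i : L)) (u : Fin s → Lˣ)
      (T : Fin m → L), (∀ l, u l ∈ SUn L S) ∧ T ≠ 0 ∧
      (∀ l, vl (toL K L) (G l) (fun i => rep (P i)) (fun l => ((u l : Lˣ) : L)) T = 0) ∧
      (∀ j, vl (toL K L) (Φ j) (fun i => rep (P i)) (fun l => ((u l : Lˣ) : L)) T +
        ∑ x, toL K L (∑ i, c (⟨j, x⟩, i) • ω i) *
          vl (toL K L) (Λ j x) (fun i => rep (P i)) (fun l => ((u l : Lˣ) : L)) T = 0) ∧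
      (∀ i, P₀ i = TR hGL K L (a i) (b i) (P i)) ∧
      ∀ l, (u₀ l : K) = Algebra.norm K ((u l : Lˣ) : L)}

theorem badB_sub (hGL : S_GL) {K : Type} [Field K] [NumberField K] {N h r s m q : ℕ}
    (ω : Module.Basis (Fin N) ℤ (𝓞 K)) (a b : Fin r → ℤ)
    (hab : ∀ i, a i * b i = 0 ∧ (a i ≠ 0 ∨ b i ≠ 0)) (B S : ℕ)
    (G : Fin q → Pol (𝓞 K) r s m) (dG : Fin q → Fin r → ℕ) (hdG : ∀ e, MHomog (G e) (dG e))
    (Φ : Fin h → Pol (𝓞 K) r s m) {ι : Fin h → Type}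
    [∀ j, Fintype (ι j)] (Λ : (j : Fin h) → ι j → Pol (𝓞 K) r s m) (d : Fin h → Fin r → ℕ)
    (hdΦ : ∀ j, MHomog (Φ j) (d j)) (hdΛ : ∀ j x, MHomog (Λ j x) (d j)) :
    BadB ω a b B S G Φ Λ ⊆
      {c | ∃ P u, (∀ l, u l ∈ SUn K S) ∧ c ∈ BadP hGL ω a b B S G Φ Λ P u} := by
  have hdisc := disc_ne hab
  rintro c ⟨L, iF, iN, iA, hL, V, u, T, hV, hu, ⟨hT0, hT⟩, hc⟩
  have hdL : ∀ i, Disc (a i : L) (b i : L) := fun i =>
    FD.disc_of two_ne_zero (by exact_mod_cast hdisc i)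
  choose P c₁ hc0 hc1 using fun i => t_PTSK L (a i) (b i) (V i) (hdL i) (hV i)
  choose u₀ hu₀ hu₀' using fun l => norm_sun (K := K) (hu l)
  have hVP : V = fun i j => c₁ i * rep (P i) j := by
    funext i j
    exact hc1 i j
  have hne : ∀ d : Fin r → ℕ, (∏ i, c₁ i ^ d i) ≠ 0 := fun d =>
    Finset.prod_ne_zero_iff.2 fun i _ => pow_ne_zero _ (hc0 i)
  refine ⟨fun i => TR hGL K L (a i) (b i) (P i), u₀, hu₀, L, iF, iN, iA, hL, P, u, T, hu, hT0,
    ?_, ?_, fun i => rfl, hu₀'⟩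
  · intro l
    have h1 := hT l
    rw [hVP, vl_scale _ (G l) (dG l) (hdG l)] at h1
    exact (mul_eq_zero.1 h1).resolve_left (hne _)
  · intro j
    have h1 := hc j
    rw [hVP, vl_scale _ (Φ j) (d j) (hdΦ j)] at h1
    have h2 : ∀ x, toL K L (∑ i, c (⟨j, x⟩, i) • ω i) * vl (toL K L) (Λ j x)
        (fun i j => c₁ i * rep (P i) j) (fun l => ((u l : Lˣ) : L)) T = (∏ i, c₁ i ^ d j i) *
        (toL K L (∑ i, c (⟨j, x⟩, i) • ω i) * vl (toL K L) (Λ j x)
          (fun i => rep (P i)) (fun l => ((u l : Lˣ) : L)) T) := by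
      intro x
      rw [vl_scale _ (Λ j x) (d j) (hdΛ j x)]
      ring
    simp only [h2] at h1
    rw [← Finset.mul_sum, ← mul_add] at h1
    exact (mul_eq_zero.1 h1).resolve_left (hne _)

/-- the unit given by an element of `k` -/
noncomputable def uo (k Ω : Type) [Field k] [Field Ω] [Algebra k Ω] (y : k) : Ωˣ := by
  classical
  exact if hy : algebraMap k Ω y = 0 then 1 else Units.mk0 _ hy

theorem uo_val (k Ω : Type) [Field k] [Field Ω] [Algebra k Ω] (y : k)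
    (hy : algebraMap k Ω y ≠ 0) : ((uo k Ω y : Ωˣ) : Ω) = algebraMap k Ω y := by
  unfold uo
  rw [dif_neg hy]
  rfl

/-- the restriction of a place to the ring of integers -/
noncomputable def resO {L Ω : Type} [Field L] [NumberField L] [Field Ω] (v : Place L Ω)
    (hv : ∀ x : 𝓞 L, (x : L) ∈ v.A) : 𝓞 L →+* Ω where
  toFun := fun x => v.r (x : L)
  map_one' := by
    rw [RingOfIntegers.coe_eq_algebraMap, map_one]
    exact v.r_one
  map_mul' := fun x y => by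
    rw [RingOfIntegers.coe_eq_algebraMap, map_mul]
    exact v.r_mul (hv x) (hv y)
  map_zero' := by
    rw [RingOfIntegers.coe_eq_algebraMap, map_zero]
    exact v.r_zero
  map_add' := fun x y => by
    rw [RingOfIntegers.coe_eq_algebraMap, map_add]
    exact v.r_add (hv x) (hv y)

theorem local_step (hGL : S_GL) {K : Type} [Field K] [NumberField K] {N h r s m q : ℕ}
    (ω : Module.Basis (Fin N) ℤ (𝓞 K)) (a b : Fin r → ℤ)
    (hab : ∀ i, a i * b i = 0 ∧ (a i ≠ 0 ∨ b i ≠ 0)) (B S : ℕ) (hS : 1 ≤ S)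
    (G : Fin q → Pol (𝓞 K) r s m) (dG : Fin q → Fin r → ℕ) (fG : Fin q → ℕ)
    (hdG : ∀ e, MHomog (G e) (dG e)) (hfG : ∀ e, THomog (G e) (fG e))
    (Φ : Fin h → Pol (𝓞 K) r s m) {ι : Fin h → Type}
    [∀ j, Fintype (ι j)] (Λ : (j : Fin h) → ι j → Pol (𝓞 K) r s m) (d : Fin h → Fin r → ℕ)
    (e : Fin h → ℕ) (hdΦ : ∀ j, MHomog (Φ j) (d j)) (heΦ : ∀ j, THomog (Φ j) (e j))
    (hdΛ : ∀ j x, MHomog (Λ j x) (d j)) (heΛ : ∀ j x, THomog (Λ j x) (e j))
    {p : ℕ} (hpp : p.Prime) (hp : S + 5 + ∑ i, (4 * a i ^ 3 + 27 * b i ^ 2).natAbs + 1 ≤ p)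
    {k : Type} [Field k] [Fintype k] [CharP k p] {φ : 𝓞 K →+* k} (hφ : Function.Surjective φ)
    {w : Place K k} (hw : ∀ x : 𝓞 K, (x : K) ∈ w.A ∧ w.r (x : K) = φ x)
    {red₀ : ∀ i, Pt (a i : K) (b i : K) → Pt (a i : k) (b i : k)}
    (hred₀ : ∀ i, IsRed w (a i) (b i) (red₀ i))
    (Ω : Type) [Field Ω] [IsAlgClosed Ω] [DecidableEq Ω] [Algebra k Ω] (ψ : 𝓞 K →+* Ω)
    (hψ : ψ = (algebraMap k Ω).comp φ) (hf : (Fr k Ω).comp ψ = ψ)
    {P₀ : ∀ i, Pt (a i : K) (b i : K)} {u₀ : Fin s → Kˣ} {c : (Σ j, ι j) × Fin N → ℤ}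
    (hc : c ∈ BadP hGL ω a b B S G Φ Λ P₀ u₀) :
    (fun i => φ (∑ j, c (i, j) • ω j)) ∈ BLoc ψ hf G Φ Λ B
      ((fun i => mp (algebraMap k Ω) (red₀ i (P₀ i)),
        fun l => Additive.ofMul (uo k Ω (w.r (u₀ l : K)))) : Gr Ω a b s) := by
  have hdisc := disc_ne hab
  have : CharP Ω p := charP_of_injective_algebraMap (algebraMap k Ω).injective p
  obtain ⟨L, _, _, _, hL, P, u, T, hu, hT0, hG0, hc0, hP₀, huu₀⟩ := hc
  obtain ⟨v, π, hv1, hv2, hv3, hv4, hv5, hv6⟩ := Classical.choose_spec (hGL K L) k w φ hφ hw Ω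
  have hdΩ : ∀ i, Disc (a i : Ω) (b i : Ω) := fun i => FD.disc_of (by
    intro h
    have h5 : ((2 : ℕ) : Ω) = 0 := by exact_mod_cast h
    rw [CharP.cast_eq_zero_iff Ω p] at h5
    have := Nat.le_of_dvd (by norm_num) h5
    omega) (by
    intro h
    have h4 := (CharP.intCast_eq_zero_iff Ω p _).1 h
    have h5 := Nat.le_of_dvd (Int.natAbs_pos.2 (hdisc i)) (Int.natCast_dvd.1 h4)
    have h6 : (4 * a i ^ 3 + 27 * b i ^ 2).natAbs ≤
        ∑ i, (4 * a i ^ 3 + 27 * b i ^ 2).natAbs :=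
      Finset.single_le_sum (f := fun i => (4 * a i ^ 3 + 27 * b i ^ 2).natAbs)
        (fun _ _ => Nat.zero_le _) (Finset.mem_univ i)
    omega)
  have hredx : ∀ (ν : Fin (Module.finrank K L)) (i : Fin r),
      ∃ red : Pt (a i : L) (b i : L) → Pt (a i : Ω) (b i : Ω), IsRed (v ν) (a i) (b i) red := by
    classical
    intro ν i
    obtain ⟨red, hred⟩ := t_R6 t_R1 t_R2 t_R3 t_R4 t_R5 L Ω (v ν) (a i) (b i) (hdΩ i)
    exact ⟨red, hred⟩
  choose red hred using hredx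
  choose x hx using fun ν => exists_nred (v ν) T hT0
  have hpS : S < p := by omega
  have hsu : ∀ ν l, ((u l : Lˣ) : L) ∈ (v ν).A ∧ (v ν).r ((u l : Lˣ) : L) ≠ 0 := fun ν l =>
    sun_place hpp hS hpS (v ν) (hv2 ν) (hu l)
  have hφL : ∀ ν, ψ = (resO (v ν) (hv2 ν)).comp (algebraMap (𝓞 K) (𝓞 L)) := by
    intro ν
    rw [hψ]
    ext z
    exact (hv1 ν z).2.symm
  have hpt := fun ν => redpt (v ν) (resO (v ν) (hv2 ν)) (fun z => ⟨hv2 ν z, rfl⟩) ψ (hφL ν) G dG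
    fG hdG hfG Φ Λ d e hdΦ heΦ hdΛ heΛ P (fun i => red ν i) (hred ν)
    (fun l => ((u l : Lˣ) : L)) (fun l => (hsu ν l).1) T (x ν) (hx ν) hG0
    (fun i => ∑ j, c (i, j) • ω j) hc0
  refine ⟨Module.finrank K L, Module.finrank_pos, hL, fun ν =>
    ⟨(fun i => red ν i (P i), fun l => Units.mk0 _ (hsu ν l).2, x ν), (hx ν).1, fun l =>
      (hpt ν).1 l⟩, π, ?_, ?_, ?_⟩
  · intro ν
    apply Subtype.ext
    have hA : ∀ z, z ∈ (v ν).A ↔ z ∈ (v (π ν)).A := fun z =>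
      ⟨fun hz => (hv3 ν z hz).1, fun hz => hv4 ν z hz⟩
    have hr : ∀ z, (Place.post (v ν) (Fr k Ω)).r z = (v (π ν)).r z := by
      intro z
      rw [post_r, Fr_apply]
      by_cases hz : z ∈ (v ν).A
      · exact (hv3 ν z hz).2.symm
      · rw [r_notMem _ hz, r_notMem _ (fun h => hz ((hA z).2 h)),
          zero_pow Fintype.card_ne_zero]
    refine Prod.ext ?_ (Prod.ext ?_ ?_)
    · funext i
      have h1 := isRed_congr (v := Place.post (v ν) (Fr k Ω)) (v' := v (π ν)) (fun z => hA z) hr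
        (isRed_post (hred ν i) (Fr k Ω))
      exact congrFun (isRed_unique h1 (hred (π ν) i)) (P i)
    · funext l
      apply Units.ext
      show Fr k Ω ((v ν).r ((u l : Lˣ) : L)) = (v (π ν)).r ((u l : Lˣ) : L)
      rw [← hr, post_r]
    · have h1 := isNred_frob (v := v ν) (v' := v (π ν)) (Fr k Ω) (fun z hz =>
        ⟨(hA z).1 hz, by rw [← hr, post_r]⟩) (hx ν)
      exact h1.unique (hx (π ν))
  · intro ν j
    have h1 := (hpt ν).2 j
    rw [add_comm] at h1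
    have h2 := eq_neg_of_add_eq_zero_left h1
    have h3 : ∀ y, ψ y = algebraMap k Ω (φ y) := fun y => by
      rw [hψ]
      rfl
    simp only [h3] at h2
    exact h2
  · refine Prod.ext ?_ ?_
    · rw [Prod.fst_sum]
      funext i
      rw [Finset.sum_apply]
      have h1 := hv5 (a i) (b i) (hdΩ i) (fun ν => red ν i) (red₀ i) (fun ν => hred ν i)
        (hred₀ i) (P i)
      show ∑ ν, red ν i (P i) = mp (algebraMap k Ω) (red₀ i (P₀ i))
      rw [hP₀ i]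
      exact h1
    · rw [Prod.snd_sum]
      funext l
      rw [Finset.sum_apply]
      have h1 := hv6 ((u l : Lˣ) : L) (fun ν => hsu ν l)
      have h2 : algebraMap k Ω (w.r (u₀ l : K)) ≠ 0 := by
        rw [huu₀ l, h1.2]
        exact Finset.prod_ne_zero_iff.2 fun ν _ => (hsu ν l).2
      show ∑ ν, Additive.ofMul (Units.mk0 _ (hsu ν l).2) =
        Additive.ofMul (uo k Ω (w.r (u₀ l : K)))
      rw [← ofMul_prod]
      congr 1
      apply Units.ext
      rw [uo_val k Ω _ h2, Units.coe_prod, huu₀ l, h1.2]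
      rfl

end Pool.Agent.N89.BD
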