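import Pool.Agent.N89.BD.Main2a
import Pool.Agent.N89.GS.Uni

/-! Project BD (helper89): the main theorem and one exceptional set for all `S`. -/

set_option autoImplicit false

namespace Pool.Agent.N89.BD

open MvPolynomial NumberField Pool.Agent.H901R3.MS Pool.Agent.W659 Pool.Agent.W659.SA
  Pool.Agent.N89.GS WeierstrassCurve

/-- the statement for fixed `k₀` -/
def MainS (K : Type) [Field K] [NumberField K] {r s m q : ℕ} (κ : ℕ) (a b : Fin r → ℤ)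
    (G : Fin q → Pol (𝓞 K) r s m) (σ : K →+* ℂ) (B k₀ : ℕ) : Prop :=
  ∀ h : ℕ, 1 ≤ h → (r + s + κ) * B ≤ (r + s) + h * B →
      ∀ (Φ : Fin h → Pol (𝓞 K) r s m) (ι : Fin h → Type) [∀ j, Fintype (ι j)]
        (Λ : (j : Fin h) → ι j → Pol (𝓞 K) r s m) (d : Fin h → Fin r → ℕ) (e : Fin h → ℕ),
        (∀ j, MHomog (Φ j) (d j)) → (∀ j, THomog (Φ j) (e j)) → (∀ j x, MHomog (Λ j x) (d j)) →
        (∀ j x, THomog (Λ j x) (e j)) → (∀ j, SepAll (toC σ) a b G (Λ j) k₀) →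
        ∀ S : ℕ, 1 ≤ S → ∀ (N : ℕ) (ω : Module.Basis (Fin N) ℤ (𝓞 K)),
        ∃ c₀ : ℝ, 0 < c₀ ∧ ∃ H₀ : ℕ, ∀ H : ℕ, H₀ ≤ H →
          (({c : (Σ j, ι j) × Fin N → ℤ | (∀ i, |c i| ≤ (H : ℤ)) ∧
            c ∈ BadB ω a b B S G Φ Λ}.ncard : ℕ) : ℝ) ≤
            (2 * (H : ℝ) + 1) ^ (Fintype.card (Σ j, ι j) * N) *
              Real.exp (-c₀ * (Real.log H / Real.log (Real.log H)))

/-- a bound for the bad sets with given traces is a bound for the bad set -/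
theorem bad_le (hGL : S_GL) {K : Type} [Field K] [NumberField K] {N h r s m q : ℕ}
    (ω : Module.Basis (Fin N) ℤ (𝓞 K)) (a b : Fin r → ℤ)
    (hab : ∀ i, a i * b i = 0 ∧ (a i ≠ 0 ∨ b i ≠ 0)) (B S : ℕ)
    (G : Fin q → Pol (𝓞 K) r s m) (dG : Fin q → Fin r → ℕ) (hdG : ∀ e, MHomog (G e) (dG e))
    (Φ : Fin h → Pol (𝓞 K) r s m) {ι : Fin h → Type}
    [∀ j, Fintype (ι j)] (Λ : (j : Fin h) → ι j → Pol (𝓞 K) r s m) (d : Fin h → Fin r → ℕ)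
    (hdΦ : ∀ j, MHomog (Φ j) (d j)) (hdΛ : ∀ j x, MHomog (Λ j x) (d j)) (H : ℕ) :
    {c : (Σ j, ι j) × Fin N → ℤ | (∀ i, |c i| ≤ (H : ℤ)) ∧ c ∈ BadB ω a b B S G Φ Λ}.ncard ≤
    {c : (Σ j, ι j) × Fin N → ℤ | (∀ i, |c i| ≤ (H : ℤ)) ∧ ∃ P u, (∀ l, u l ∈ SUn K S) ∧
      c ∈ BadP hGL ω a b B S G Φ Λ P u}.ncard := by
  have hsub := badB_sub hGL ω a b hab B S G dG hdG Φ Λ d hdΦ hdΛ
  refine Set.ncard_le_ncard (fun c hc => ⟨hc.1, hsub hc.2⟩) ?_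
  classical
  refine Set.Finite.subset (Box ((Σ j, ι j) × Fin N) H).finite_toSet ?_
  rintro c ⟨hc, _⟩
  rw [Finset.mem_coe]
  unfold Box
  rw [Fintype.mem_piFinset]
  intro i
  rw [Finset.mem_Icc]
  exact abs_le.1 (hc i)

theorem mainBD (hTRC : S_TRC) (hFIB : S_FIB) (hCZ : S_CZ) (hLNO : S_LNO) (hBN2 : S_BN2)
    (hTSA : S_TSA) (hGL : S_GL) (hSUF : S_SUF) (K : Type) [Field K] [NumberField K]
    (r s m q κ : ℕ) (a b : Fin r → ℤ) (hab : ∀ i, a i * b i = 0 ∧ (a i ≠ 0 ∨ b i ≠ 0))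
    (G : Fin q → Pol (𝓞 K) r s m) (dG : Fin q → Fin r → ℕ) (fG : Fin q → ℕ)
    (hdG : ∀ e, MHomog (G e) (dG e)) (hfG : ∀ e, THomog (G e) (fG e)) (σ : K →+* ℂ)
    (hdim : DimLE σ a b G κ) (B : ℕ) (hB : 1 ≤ B) (hg : 1 ≤ r + s) :
    ∃ k₀ : ℕ, MainS K κ a b G σ B k₀ := by
  obtain ⟨k₀, δ, hδ0, hδ1, hloc⟩ := locS_all hTRC hFIB hCZ hLNO hBN2 hTSA hGL K r s m q κ a b hab
    G dG fG hdG hfG σ hdim B hB hg
  refine ⟨k₀, ?_⟩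
  intro h hh hyp Φ ι _ Λ d e hdΦ heΦ hdΛ heΛ hsep S hS N ω
  obtain ⟨p₁, hp₁⟩ := hloc h hh hyp Φ ι Λ d e hdΦ heΦ hdΛ heΛ hsep S hS N ω
  obtain ⟨c₀, hc₀, H₀, hH₀⟩ := step1 K a b hab (SUn K S) (hSUF K S hS) (Σ j, ι j) N ω δ hδ0 hδ1
    p₁ (BadP hGL ω a b B S G Φ Λ) hp₁
  refine ⟨c₀, hc₀, H₀, fun H hH => le_trans (Nat.cast_le.2 ?_) (hH₀ H hH)⟩
  exact bad_le hGL ω a b hab B S G dG hdG Φ Λ d hdΦ hdΛ H

/-- one exceptional set for all `S` -/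
theorem uniBD (K : Type) [Field K] [NumberField K] {r s m q κ : ℕ}
    (a b : Fin r → ℤ) (G : Fin q → Pol (𝓞 K) r s m) (σ : K →+* ℂ) (B k₀ : ℕ)
    (hM : MainS K κ a b G σ B k₀) (h : ℕ) (hh : 1 ≤ h)
    (hyp : (r + s + κ) * B ≤ (r + s) + h * B)
    (Φ : Fin h → Pol (𝓞 K) r s m) (ι : Fin h → Type) [∀ j, Fintype (ι j)]
    (Λ : (j : Fin h) → ι j → Pol (𝓞 K) r s m) (d : Fin h → Fin r → ℕ) (e : Fin h → ℕ)
    (hdΦ : ∀ j, MHomog (Φ j) (d j)) (heΦ : ∀ j, THomog (Φ j) (e j))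
    (hdΛ : ∀ j x, MHomog (Λ j x) (d j)) (heΛ : ∀ j x, THomog (Λ j x) (e j))
    (hsep : ∀ j, SepAll (toC σ) a b G (Λ j) k₀) (N : ℕ) (ω : Module.Basis (Fin N) ℤ (𝓞 K)) :
    ∃ E : Set ((Σ j, ι j) × Fin N → ℤ),
      (∃ H₀ : ℕ, ∀ H : ℕ, H₀ ≤ H → (({c : (Σ j, ι j) × Fin N → ℤ |
        (∀ i, |c i| ≤ (H : ℤ)) ∧ c ∈ E}.ncard : ℕ) : ℝ) ≤
        (2 * (H : ℝ) + 1) ^ (Fintype.card (Σ j, ι j) * N) *
          Real.exp (-(Real.log H / Real.log (Real.log H) ^ 2))) ∧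
      ∀ S : ℕ, 1 ≤ S → (BadB ω a b B S G Φ Λ \ E).Finite := by
  classical
  obtain ⟨E, hE1, hE2⟩ := diag (X := (Σ j, ι j) × Fin N → ℤ) (I := {S : ℕ // 1 ≤ S})
    (fun (c : (Σ j, ι j) × Fin N → ℤ) (H : ℕ) => ∀ i, |c i| ≤ (H : ℤ))
    (fun c H H' h hc i => (hc i).trans (by exact_mod_cast h))
    (fun H => by
      refine Set.Finite.subset (Box ((Σ j, ι j) × Fin N) H).finite_toSet ?_
      intro c hc
      rw [Finset.mem_coe]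
      unfold Box
      rw [Fintype.mem_piFinset]
      intro i
      rw [Finset.mem_Icc]
      exact abs_le.1 (hc i))
    (Fintype.card (Σ j, ι j) * N)
    (fun S => BadB ω a b B S.1 G Φ Λ) (fun S =>
      hM h hh hyp Φ ι Λ d e hdΦ heΦ hdΛ heΛ hsep S.1 S.2 N ω)
  exact ⟨E, hE1, fun S hS => hE2 ⟨S, hS⟩⟩

end Pool.Agent.N89.BD
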