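import Pool.Agent.N89.BD.Base
import Pool.Agent.N89.GS.Fib
import Pool.Agent.N89.GS.Dens2

/-! Project BD (helper89): the points of `𝒯` over a field which contains the finite field `k`, the
Frobenius map and the number of the points. -/

set_option autoImplicit false

namespace Pool.Agent.N89.BD

open MvPolynomial NumberField Pool.Agent.H901R3.MS Pool.Agent.W659 Pool.Agent.W659.SA
  Pool.Agent.N89.GS WeierstrassCurve

/-- the group `E_1 × ⋯ × E_r × G_m^s` -/
abbrev Gr (Ω : Type) [Field Ω] {r : ℕ} (a b : Fin r → ℤ) (s : ℕ) : Type :=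
  (∀ i, Pt (a i : Ω) (b i : Ω)) × (Fin s → Additive Ωˣ)

/-- a point of `E_1 × ⋯ × E_r × G_m^s` and a vector -/
abbrev XT (Ω : Type) [Field Ω] {r : ℕ} (a b : Fin r → ℤ) (s m : ℕ) : Type :=
  (∀ i, Pt (a i : Ω) (b i : Ω)) × (Fin s → Ωˣ) × (Fin m → Ω)

/-- the value of a polynomial at a point -/
noncomputable def vx {O Ω : Type} [CommRing O] [Field Ω] (ψ : O →+* Ω) {r s m : ℕ}
    {a b : Fin r → ℤ} (F : Pol O r s m) (x : XT Ω a b s m) : Ω :=
  vl ψ F (fun i => rep (x.1 i)) (fun l => (x.2.1 l : Ω)) x.2.2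

/-- normalised points of `𝒯` -/
def OnX {O Ω : Type} [CommRing O] [Field Ω] (ψ : O →+* Ω) {r s m q : ℕ} {a b : Fin r → ℤ}
    (G : Fin q → Pol O r s m) (x : XT Ω a b s m) : Prop := Nrm x.2.2 ∧ ∀ e, vx ψ (G e) x = 0

/-- the points of `𝒯` -/
abbrev XG {O Ω : Type} [CommRing O] [Field Ω] (ψ : O →+* Ω) {r s m q : ℕ} (a b : Fin r → ℤ)
    (G : Fin q → Pol O r s m) : Type := {x : XT Ω a b s m // OnX ψ G x}

/-- the image of a point under an endomorphism of `Ω` -/
noncomputable def FX {Ω : Type} [Field Ω] (f : Ω →+* Ω) {r s m : ℕ} {a b : Fin r → ℤ}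
    (x : XT Ω a b s m) : XT Ω a b s m :=
  (fun i => mp f (x.1 i), fun l => Units.map (f : Ω →* Ω) (x.2.1 l), fun j => f (x.2.2 j))

theorem rep_mp {K k : Type} [Field K] [Field k] (f : K →+* k) {a b : ℤ}
    (P : Pt (a : K) (b : K)) : rep (mp f P) = fun j => f (rep P j) := by
  rcases P with _ | ⟨x, y, h⟩
  · funext j
    fin_cases j <;> simp [mp, rep]
  · funext j
    fin_cases j <;> simp [mp, rep]

theorem vx_FX {O Ω : Type} [CommRing O] [Field Ω] (ψ : O →+* Ω) (f : Ω →+* Ω)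
    (hf : f.comp ψ = ψ) {r s m : ℕ} {a b : Fin r → ℤ} (F : Pol O r s m) (x : XT Ω a b s m) :
    vx ψ F (FX f x) = f (vx ψ F x) := by
  unfold vx
  rw [vl_map, hf]
  simp only [FX, rep_mp]
  rfl

theorem onX_FX {O Ω : Type} [CommRing O] [Field Ω] (ψ : O →+* Ω) (f : Ω →+* Ω)
    (hf : f.comp ψ = ψ) {r s m q : ℕ} {a b : Fin r → ℤ} (G : Fin q → Pol O r s m)
    {x : XT Ω a b s m} (hx : OnX ψ G x) : OnX ψ G (FX f x) :=
  ⟨hx.1.map f, fun e => by rw [vx_FX ψ f hf, hx.2 e, map_zero]⟩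

/-- the image of a point of `𝒯` -/
noncomputable def FG {O Ω : Type} [CommRing O] [Field Ω] (ψ : O →+* Ω) (f : Ω →+* Ω)
    (hf : f.comp ψ = ψ) {r s m q : ℕ} {a b : Fin r → ℤ} {G : Fin q → Pol O r s m}
    (x : XG ψ a b G) : XG ψ a b G := ⟨FX f x.1, onX_FX ψ f hf G x.2⟩

/-- the point of the group below a point of `𝒯` -/
def ptG {O Ω : Type} [CommRing O] [Field Ω] (ψ : O →+* Ω) {r s m q : ℕ} {a b : Fin r → ℤ}
    {G : Fin q → Pol O r s m} (x : XG ψ a b G) : Gr Ω a b s :=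
  (x.1.1, fun l => Additive.ofMul (x.1.2.1 l))

theorem FX_inj {Ω : Type} [Field Ω] (f : Ω →+* Ω) {r s m : ℕ} {a b : Fin r → ℤ} :
    Function.Injective (FX f : XT Ω a b s m → XT Ω a b s m) := by
  rintro ⟨P, u, T⟩ ⟨P', u', T'⟩ h
  simp only [FX, Prod.mk.injEq] at h
  obtain ⟨h1, h2, h3⟩ := h
  refine Prod.ext ?_ (Prod.ext ?_ ?_)
  · funext i
    exact mp_inj f (congrFun h1 i)
  · funext l
    exact Units.map_injective f.injective (congrFun h2 l)
  · funext j
    exact f.injective (congrFun h3 j)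

theorem FG_inj {O Ω : Type} [CommRing O] [Field Ω] (ψ : O →+* Ω) (f : Ω →+* Ω)
    (hf : f.comp ψ = ψ) {r s m q : ℕ} {a b : Fin r → ℤ} {G : Fin q → Pol O r s m} :
    Function.Injective (FG ψ f hf : XG ψ a b G → XG ψ a b G) := by
  intro x y h
  exact Subtype.ext (FX_inj f (congrArg Subtype.val h))

theorem FX_iter {Ω : Type} [Field Ω] (f : Ω →+* Ω) {r s m : ℕ} {a b : Fin r → ℤ} (t : ℕ)
    (x : XT Ω a b s m) : (FX f)^[t] x = (fun i => (mp f)^[t] (x.1 i),
      fun l => (Units.map (f : Ω →* Ω))^[t] (x.2.1 l), fun j => f^[t] (x.2.2 j)) := by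
  induction t with
  | zero => rfl
  | succ t ih =>
    simp only [Function.iterate_succ', Function.comp_apply]
    rw [ih]
    rfl

theorem FG_iter {O Ω : Type} [CommRing O] [Field Ω] (ψ : O →+* Ω) (f : Ω →+* Ω)
    (hf : f.comp ψ = ψ) {r s m q : ℕ} {a b : Fin r → ℤ} {G : Fin q → Pol O r s m} (t : ℕ)
    (x : XG ψ a b G) : ((FG ψ f hf)^[t] x).1 = (FX f)^[t] x.1 := by
  induction t with
  | zero => rfl
  | succ t ih =>
    simp only [Function.iterate_succ', Function.comp_apply]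
    rw [← ih]
    rfl

theorem Fr_comp {O k Ω : Type} [CommRing O] [Field k] [Fintype k] [Field Ω] [Algebra k Ω]
    (φ : O →+* k) : (Fr k Ω).comp ((algebraMap k Ω).comp φ) = (algebraMap k Ω).comp φ := by
  ext x
  simp only [RingHom.comp_apply]
  rw [Fr_apply, ← map_pow, FiniteField.pow_card]

theorem Fr_iter {k Ω : Type} [Field k] [Fintype k] [Field Ω] [Algebra k Ω] (t : ℕ) (x : Ω) :
    (Fr k Ω)^[t] x = x ^ Fintype.card k ^ t := by
  induction t with
  | zero => simp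
  | succ t ih =>
    rw [Function.iterate_succ', Function.comp_apply, ih, Fr_apply, ← pow_mul, pow_succ]

/-! ### The fixed field -/

/-- the fixed field of the `t`-th power of the Frobenius endomorphism -/
noncomputable def Fx (k Ω : Type) [Field k] [Fintype k] [Field Ω] [Algebra k Ω] (t : ℕ) :
    Subfield Ω := RingHom.eqLocusField ((Fr k Ω) ^ t) (RingHom.id Ω)

theorem mem_Fx {k Ω : Type} [Field k] [Fintype k] [Field Ω] [Algebra k Ω] {t : ℕ} {x : Ω} :
    x ∈ Fx k Ω t ↔ (Fr k Ω)^[t] x = x := by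
  unfold Fx
  rw [RingHom.mem_eqLocusField, RingHom.coe_pow]
  rfl

theorem Fx_finite {k Ω : Type} [Field k] [Fintype k] [Field Ω] [Algebra k Ω] {t : ℕ} (ht : 1 ≤ t) :
    Finite (Fx k Ω t) ∧ Nat.card (Fx k Ω t) ≤ Fintype.card k ^ t := by
  classical
  have h2 : 1 < Fintype.card k ^ t := Nat.one_lt_pow (by omega) Fintype.one_lt_card
  set P : Polynomial Ω := Polynomial.X ^ (Fintype.card k ^ t) - Polynomial.X with hP
  have hP0 : P ≠ 0 := FiniteField.X_pow_card_sub_X_ne_zero Ω h2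
  have hPd : P.natDegree = Fintype.card k ^ t := FiniteField.X_pow_card_sub_X_natDegree_eq Ω h2
  have hsub : (Fx k Ω t : Set Ω) ⊆ (P.roots.toFinset : Set Ω) := by
    intro x hx
    have h3 : (Fr k Ω)^[t] x = x := mem_Fx.1 hx
    rw [Fr_iter] at h3
    rw [Finset.mem_coe, Multiset.mem_toFinset, Polynomial.mem_roots hP0, Polynomial.IsRoot.def]
    simp only [hP, Polynomial.eval_sub, Polynomial.eval_pow, Polynomial.eval_X]
    rw [h3, sub_self]
  have hfin : (Fx k Ω t : Set Ω).Finite := P.roots.toFinset.finite_toSet.subset hsub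
  refine ⟨hfin.to_subtype, ?_⟩
  have h4 : Nat.card (Fx k Ω t) = (Fx k Ω t : Set Ω).ncard := rfl
  rw [h4, ← hPd]
  refine (Set.ncard_le_ncard hsub P.roots.toFinset.finite_toSet).trans ?_
  rw [Set.ncard_coe_finset]
  exact (Multiset.toFinset_card_le _).trans (Polynomial.card_roots' P)

end Pool.Agent.N89.BD
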